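import Pool.Agent.H.MP_5e03f8_nt.Defs

namespace Pool.Agent.H.MP_5e03f8_nt

open NumberField Module

section general
variable {A B : Type*} [CommRing A] [CommRing B] [Algebra A B]

/-- the multiplication matrix in a basis `1, s` with `s ^ 2 = 14` -/
theorem leftMul_eq (b : Basis (Fin 2) A B) (s : B) (h0 : b 0 = 1) (h1 : b 1 = s)
    (hs : s ^ 2 = 14) (m n : A) :
    Algebra.leftMulMatrix b (algebraMap A B m + algebraMap A B n * s) = !![m, 14 * n; n, m] := by
  have key : ∀ x y : A, b.repr (algebraMap A B x + algebraMap A B y * s) = Finsupp.single 0 x + Finsupp.single 1 y := by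
    intro x y
    have : algebraMap A B x + algebraMap A B y * s = x • b 0 + y • b 1 := by
      rw [h0, h1, Algebra.smul_def, Algebra.smul_def, mul_one]
    rw [this]
    simp
  ext i j
  rw [Algebra.leftMulMatrix_eq_repr_mul]
  fin_cases j
  · simp only [Fin.zero_eta, h0, mul_one, key]
    fin_cases i <;> simp
  · have : (algebraMap A B m + algebraMap A B n * s) * b 1 = algebraMap A B (14 * n) + algebraMap A B m * s := by
      rw [h1, map_mul, map_ofNat, ← hs]; ring
    simp only [Fin.mk_one, this, key]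
    fin_cases i <;> simp

theorem norm_eq (b : Basis (Fin 2) A B) (s : B) (h0 : b 0 = 1) (h1 : b 1 = s)
    (hs : s ^ 2 = 14) (m n : A) :
    Algebra.norm A (algebraMap A B m + algebraMap A B n * s) = m ^ 2 - 14 * n ^ 2 := by
  rw [Algebra.norm_eq_matrix_det b, leftMul_eq b s h0 h1 hs, Matrix.det_fin_two]
  simp; ring

theorem trace_eq (b : Basis (Fin 2) A B) (s : B) (h0 : b 0 = 1) (h1 : b 1 = s)
    (hs : s ^ 2 = 14) (m n : A) :
    Algebra.trace A B (algebraMap A B m + algebraMap A B n * s) = 2 * m := by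
  rw [Algebra.trace_eq_matrix_trace b, leftMul_eq b s h0 h1 hs, Matrix.trace_fin_two]
  simp; ring

end general

/-- 14 is not a rational square -/
theorem rat_sq_ne (r : ℚ) : r ^ 2 ≠ 14 := by
  intro h
  have h14 : ¬ IsSquare (14 : ℤ) := by
    intro ⟨x, hx⟩
    have h1 : x ≤ 4 := by nlinarith
    have h2 : -4 ≤ x := by nlinarith
    interval_cases x <;> omega
  have : Irrational (Real.sqrt ((14 : ℤ) : ℝ)) := (irrational_sqrt_intCast_iff).2 ⟨h14, by norm_num⟩
  apply this
  refine ⟨|r|, ?_⟩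
  have h3 : ((r : ℝ)) ^ 2 = 14 := by exact_mod_cast h
  rw [show (((14 : ℤ) : ℝ)) = (r : ℝ) ^ 2 by rw [h3]; norm_num, Real.sqrt_sq_eq_abs]
  push_cast; rfl

/-- if `m ^ 2 = 14 * n ^ 2` in the rationals then both vanish -/
theorem rat_eq_zero {m n : ℚ} (h : m ^ 2 = 14 * n ^ 2) : m = 0 ∧ n = 0 := by
  by_cases hn : n = 0
  · subst hn; simp at h; exact ⟨h, rfl⟩
  · exfalso
    apply rat_sq_ne (m / n)
    rw [div_pow, h]; field_simp

section field
variable {K : Type*} [Field K] [NumberField K] (s : 𝓞 K) (hs : s ^ 2 = 14)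
  (hK : IntermediateField.adjoin ℚ {(s : K)} = ⊤)

include hs in
theorem coe_sq : ((s : K)) ^ 2 = 14 := by
  have := congrArg (algebraMap (𝓞 K) K) hs
  rw [map_pow, map_ofNat] at this
  exact this

include hs hK in
theorem exists_rat (x : K) : ∃ a b : ℚ, x = algebraMap ℚ K a + algebraMap ℚ K b * (s : K) := by
  have hs' := coe_sq s hs
  have hx : x ∈ IntermediateField.adjoin ℚ {(s : K)} := by rw [hK]; trivial
  have hint : IsAlgebraic ℚ (s : K) := Algebra.IsAlgebraic.isAlgebraic _
  have hx' : x ∈ Algebra.adjoin ℚ {(s : K)} := by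
    have h := IntermediateField.adjoin_simple_toSubalgebra_of_isAlgebraic hint
    rw [← h]; exact hx
  induction hx' using Algebra.adjoin_induction with
  | mem y hy => simp at hy; subst hy; exact ⟨0, 1, by simp⟩
  | algebraMap r => exact ⟨r, 0, by simp⟩
  | add y z hy hz ihy ihz =>
    obtain ⟨a, b, h1⟩ := ihy (by rw [hK]; trivial)
    obtain ⟨c, d, h2⟩ := ihz (by rw [hK]; trivial)
    exact ⟨a + c, b + d, by rw [h1, h2, map_add, map_add]; ring⟩
  | mul y z hy hz ihy ihz =>
    obtain ⟨a, b, h1⟩ := ihy (by rw [hK]; trivial)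
    obtain ⟨c, d, h2⟩ := ihz (by rw [hK]; trivial)
    refine ⟨a * c + 14 * b * d, a * d + b * c, ?_⟩
    rw [h1, h2]; simp only [map_add, map_mul, map_ofNat]; rw [← hs']; ring

include hs in
theorem rat_unique {a b : ℚ} (h : algebraMap ℚ K a + algebraMap ℚ K b * (s : K) = 0) : a = 0 ∧ b = 0 := by
  have hs' := coe_sq s hs
  have h1 : algebraMap ℚ K (a ^ 2) = algebraMap ℚ K (14 * b ^ 2) := by
    simp only [map_mul, map_pow, map_ofNat]
    rw [← hs']
    have : algebraMap ℚ K a = - (algebraMap ℚ K b * (s : K)) := by linear_combination h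
    rw [this]; ring
  exact rat_eq_zero ((algebraMap ℚ K).injective h1)

/-- the `ℚ`-basis `1, s` of `K` -/
noncomputable def basisK (hs : s ^ 2 = 14) (hK : IntermediateField.adjoin ℚ {(s : K)} = ⊤) :
    Basis (Fin 2) ℚ K :=
  Basis.mk (v := ![1, (s : K)])
    (by
      rw [LinearIndependent.pair_iff]
      intro a b h
      apply rat_unique s hs
      rw [← h, Algebra.smul_def, Algebra.smul_def, mul_one])
    (by
      intro x _
      obtain ⟨a, b, rfl⟩ := exists_rat s hs hK x
      have : algebraMap ℚ K a + algebraMap ℚ K b * (s : K) = a • 1 + b • (s : K) := by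
        rw [Algebra.smul_def, Algebra.smul_def, mul_one]
      rw [this]
      apply Submodule.add_mem
      · apply Submodule.smul_mem; apply Submodule.subset_span; exact ⟨0, rfl⟩
      · apply Submodule.smul_mem; apply Submodule.subset_span; exact ⟨1, rfl⟩)

include hs hK in
/-- every integer of `K` is `m + n s` with integers `m, n` -/
theorem exists_int (x : 𝓞 K) : ∃ m n : ℤ, x = (m : 𝓞 K) + (n : 𝓞 K) * s := by
  obtain ⟨a, b, hab⟩ := exists_rat s hs hK (x : K)
  have hxint : IsIntegral ℤ (x : K) := x.isIntegral_coe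
  have htr := trace_eq (basisK s hs hK) (s : K) (by simp [basisK]) (by simp [basisK]) (coe_sq s hs) a b
  have hno := norm_eq (basisK s hs hK) (s : K) (by simp [basisK]) (by simp [basisK]) (coe_sq s hs) a b
  rw [← hab] at htr hno
  have h1 : IsIntegral ℤ (2 * a) := by
    rw [← htr]; exact Algebra.isIntegral_trace hxint
  have h2 : IsIntegral ℤ (a ^ 2 - 14 * b ^ 2) := by
    rw [← hno]; exact Algebra.isIntegral_norm ℚ hxint
  obtain ⟨A, hA⟩ := IsIntegrallyClosed.isIntegral_iff.1 h1
  obtain ⟨k, hk⟩ := IsIntegrallyClosed.isIntegral_iff.1 h2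
  simp only [algebraMap_int_eq, eq_intCast] at hA hk
  -- B = 2 b is an integer
  have h3 : (14 : ℚ) * (2 * b) ^ 2 = ((A ^ 2 - 4 * k : ℤ) : ℚ) := by
    push_cast; rw [hA, hk]; ring
  have h4 : IsIntegral ℤ (14 * (2 * b)) := by
    refine IsIntegral.of_pow (n := 2) (by norm_num) ?_
    have : (14 * (2 * b)) ^ 2 = algebraMap ℤ ℚ (14 * (A ^ 2 - 4 * k)) := by
      rw [mul_pow]
      have : (14 : ℚ) ^ 2 * (2 * b) ^ 2 = 14 * (14 * (2 * b) ^ 2) := by ring
      rw [this, h3]; simp
    rw [this]; exact isIntegral_algebraMap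
  obtain ⟨C, hC⟩ := IsIntegrallyClosed.isIntegral_iff.1 h4
  simp only [algebraMap_int_eq, eq_intCast] at hC
  have h5 : C ^ 2 = 14 * (A ^ 2 - 4 * k) := by
    have : (C : ℚ) ^ 2 = 14 * ((A ^ 2 - 4 * k : ℤ) : ℚ) := by
      rw [← h3, hC]; ring
    exact_mod_cast this
  have h6 : (14 : ℤ) ∣ C := by
    have h7 : (7 : ℤ) ∣ C := by
      have : Prime (7 : ℤ) := by norm_num
      apply this.dvd_of_dvd_pow (n := 2); rw [h5]; exact ⟨2 * (A ^ 2 - 4 * k), by ring⟩
    have h2 : (2 : ℤ) ∣ C := by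
      have : Prime (2 : ℤ) := by norm_num
      apply this.dvd_of_dvd_pow (n := 2); rw [h5]; exact ⟨7 * (A ^ 2 - 4 * k), by ring⟩
    omega
  obtain ⟨B, rfl⟩ := h6
  have h8 : 14 * B ^ 2 = A ^ 2 - 4 * k := by
    have : 14 * (14 * B ^ 2) = 14 * (A ^ 2 - 4 * k) := by rw [← h5]; ring
    linarith
  have hB : (B : ℚ) = 2 * b := by
    push_cast at hC; linarith
  -- parity
  have hA2 : (2 : ℤ) ∣ A := by
    have : Prime (2 : ℤ) := by norm_num
    apply this.dvd_of_dvd_pow (n := 2)
    exact ⟨7 * B ^ 2 + 2 * k, by linarith⟩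
  obtain ⟨a', rfl⟩ := hA2
  have hB2 : (2 : ℤ) ∣ B := by
    have : Prime (2 : ℤ) := by norm_num
    apply this.dvd_of_dvd_pow (n := 2)
    refine ⟨a' ^ 2 - k - 3 * B ^ 2, ?_⟩
    have : 2 * B ^ 2 * 7 = 4 * a' ^ 2 - 4 * k := by nlinarith
    nlinarith
  obtain ⟨b', rfl⟩ := hB2
  refine ⟨a', b', ?_⟩
  apply NumberField.RingOfIntegers.ext
  have ha : a = (a' : ℚ) := by push_cast at hA; linarith
  have hb : b = (b' : ℚ) := by push_cast at hB; linarith
  rw [hab, ha, hb]
  simp

include hs in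
theorem int_unique {m n : ℤ} (h : (m : 𝓞 K) + (n : 𝓞 K) * s = 0) : m = 0 ∧ n = 0 := by
  have := congrArg (algebraMap (𝓞 K) K) h
  have h2 : algebraMap ℚ K m + algebraMap ℚ K n * (s : K) = 0 := by
    simpa using this
  have := rat_unique s hs h2
  exact ⟨by exact_mod_cast this.1, by exact_mod_cast this.2⟩

/-- the `ℤ`-basis `1, s` of `𝓞 K` -/
noncomputable def basisO (hs : s ^ 2 = 14) (hK : IntermediateField.adjoin ℚ {(s : K)} = ⊤) :
    Basis (Fin 2) ℤ (𝓞 K) :=
  Basis.mk (v := ![1, s])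
    (by
      rw [LinearIndependent.pair_iff]
      intro a b h
      apply int_unique s hs
      rw [← h]; simp)
    (by
      intro x _
      obtain ⟨a, b, rfl⟩ := exists_int s hs hK x
      have : (a : 𝓞 K) + (b : 𝓞 K) * s = a • 1 + b • s := by simp
      rw [this]
      apply Submodule.add_mem
      · apply Submodule.smul_mem; apply Submodule.subset_span; exact ⟨0, rfl⟩
      · apply Submodule.smul_mem; apply Submodule.subset_span; exact ⟨1, rfl⟩)

include hs hK in
theorem absNorm_eq (m n : ℤ) : Ideal.absNorm (Ideal.span {(m : 𝓞 K) + (n : 𝓞 K) * s}) = (m ^ 2 - 14 * n ^ 2).natAbs := by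
  rw [Ideal.absNorm_span_singleton]
  have := norm_eq (basisO s hs hK) s (by simp [basisO]) (by simp [basisO]) hs m n
  simp only [algebraMap_int_eq, eq_intCast] at this
  rw [this]

end field

end Pool.Agent.H.MP_5e03f8_nt
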