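import Mathlib

/-!
Covering certificates for the weighted norm on `ℤ[√14]`: a checker and its soundness.

A point is a triple `(x, y, n)` of integers with `n > 0` odd, standing for `(x + y √14) / n`.
-/

namespace Pool.Agent.H.MP_5e03f8_nt

/-- the weighted norm in coordinates -/
noncomputable def W (κ : ℝ) (x y : ℤ) : ℝ :=
  |((x ^ 2 - 14 * y ^ 2 : ℤ) : ℝ)| * κ ^ (padicValInt 2 (x ^ 2 - 14 * y ^ 2))

/-- the point `(x + y √14) / n` is within weighted norm `< 1` of an integer -/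
def Cov (κ : ℝ) (x y n : ℤ) : Prop := ∃ a b : ℤ, W κ (x - n * a) (y - n * b) < (n : ℝ) ^ 2

noncomputable def r14 : ℝ := Real.sqrt 14

theorem r14_sq : r14 ^ 2 = 14 := Real.sq_sqrt (by norm_num)
theorem r14_pos : 0 < r14 := Real.sqrt_pos.2 (by norm_num)

/-- scale -/
def SC : ℤ := 1152921504606846976
/-- floor of `√14` times the scale -/
def rho : ℤ := 4313837264082735680

theorem rho_lo : (rho : ℝ) ≤ SC * r14 := by
  have h1 : (0 : ℝ) ≤ SC := by norm_num [SC]
  have h2 : (rho : ℝ) ^ 2 ≤ (SC * r14) ^ 2 := by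
    rw [mul_pow, r14_sq]; norm_num [SC, rho]
  exact le_of_sq_le_sq h2 (mul_nonneg h1 r14_pos.le)

theorem rho_hi : SC * r14 ≤ ((rho + 1 : ℤ) : ℝ) := by
  have h2 : (SC * r14) ^ 2 ≤ ((rho + 1 : ℤ) : ℝ) ^ 2 := by
    rw [mul_pow, r14_sq]; norm_num [SC, rho]
  exact le_of_sq_le_sq h2 (by norm_num [rho])

/-- lower and upper bounds for `SC * (m + n √14)` -/
def lo (m n : ℤ) : ℤ := m * SC + (if 0 ≤ n then n * rho else n * (rho + 1))
def hi (m n : ℤ) : ℤ := m * SC + (if 0 ≤ n then n * (rho + 1) else n * rho)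

theorem lo_le (m n : ℤ) : (lo m n : ℝ) ≤ SC * (m + n * r14) := by
  have h1 := rho_lo
  have h2 := rho_hi
  unfold lo
  split_ifs with h
  · have h' : (0 : ℝ) ≤ n := by exact_mod_cast h
    push_cast
    nlinarith
  · have h' : (n : ℝ) ≤ 0 := by exact_mod_cast (not_le.1 h).le
    push_cast at h2 ⊢
    nlinarith

theorem le_hi (m n : ℤ) : SC * (m + n * r14) ≤ (hi m n : ℝ) := by
  have h1 := rho_lo
  have h2 := rho_hi
  unfold hi
  split_ifs with h
  · have h' : (0 : ℝ) ≤ n := by exact_mod_cast h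
    push_cast at h2 ⊢
    nlinarith
  · have h' : (n : ℝ) ≤ 0 := by exact_mod_cast (not_le.1 h).le
    push_cast
    nlinarith

/-- regions: a box in the two real embeddings (scaled by `SC`) times a residue class -/
structure Rg where
  u0 : ℤ
  u1 : ℤ
  s0 : ℤ
  s1 : ℤ
  wa : ℤ
  wb : ℤ
  k : ℕ

/-- membership of `(x + y √14) / n` in a region -/
def InRg (g : Rg) (x y n : ℤ) : Prop :=
  (g.u0 : ℝ) * n ≤ SC * (x + y * r14) ∧ SC * (x + y * r14) ≤ (g.u1 : ℝ) * n ∧
  (g.s0 : ℝ) * n ≤ SC * (x - y * r14) ∧ SC * (x - y * r14) ≤ (g.s1 : ℝ) * n ∧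
  (2 : ℤ) ^ ((g.k + 1) / 2) ∣ x - n * g.wa ∧ (2 : ℤ) ^ (g.k / 2) ∣ y - n * g.wb

/-- certificate trees -/
inductive Tr
  | q (m n : ℤ) (v : ℕ)
  | v (b : Bool) (j : ℕ) (p q : ℤ)
  | z (m n : ℤ)
  | o
  | su (p : ℤ) (l r : Tr)
  | ss (p : ℤ) (l r : Tr)
  | sw (l r : Tr)

/-- the level of a residue class near the exceptional point -/
def LV (a b : ℤ) : ℕ :=
  match (a % 4).toNat, (b % 2).toNat with
  | 0, 0 => 0
  | 1, 1 => 0
  | 0, 1 => 3
  | 1, 0 => 3
  | 2, 0 => 2
  | 3, 1 => 2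
  | 2, _ => 1
  | 3, _ => 1
  | _, _ => 0

/-- lower bounds for `SC * 0.37 * ε ^ j` -/
def LP : ℕ → ℤ
  | 0 => 426580956704533381
  | 1 => 12783193501410449523
  | 2 => 383069224085608952314
  | 3 => 11479293529066858119923
  | 4 => 343995736647920134645381
  | _ => 0

/-- lower bounds for `SC * 0.37 * ε ^ (-j)` -/
def LN : ℕ → ℤ
  | 0 => 426580956704533381
  | 1 => 14235199725551908
  | 2 => 475035062023886
  | 3 => 15852135164685
  | 4 => 528992916677
  | _ => 0

/-- valuation test: the class `(d1, d2)` has `𝔭`-adic valuation exactly `v` -/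
def valOk (v : ℕ) (d1 d2 : ℤ) : Bool :=
  if v % 2 = 0 then
    d1 % 2 ^ (v / 2) == 0 && d2 % 2 ^ (v / 2) == 0 && d1 % 2 ^ (v / 2 + 1) != 0
  else
    d1 % 2 ^ (v / 2 + 1) == 0 && d2 % 2 ^ (v / 2) == 0 && d2 % 2 ^ (v / 2 + 1) != 0

def checkQ (g : Rg) (m n : ℤ) (v : ℕ) : Bool :=
  decide (v < g.k) && valOk v (g.wa - m) (g.wb - n) &&
  decide (max (g.u1 - lo m n) (hi m n - g.u0) * max (g.s1 - lo m (-n)) (hi m (-n) - g.s0) * 1121 ^ v
    < 1000 ^ v * (SC * SC))

def checkV (lev : ℕ) (g : Rg) (b : Bool) (j : ℕ) (p q : ℤ) : Bool :=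
  p % 2 == 1 && q % 2 == 1 &&
  decide (max (2 * g.u1 - lo p q) (hi p q - 2 * g.u0) ≤ 2 * (if b then LP j else LN j)) &&
  decide (max (2 * g.s1 - lo p (-q)) (hi p (-q) - 2 * g.s0) ≤ 2 * (if b then LN j else LP j)) &&
  (decide (4 ≤ lev) || (decide (3 ≤ g.k) && decide (LV (g.wa - (p - 1) / 2) (g.wb - (q - 1) / 2) < lev)))

def checkZ (g : Rg) (m n : ℤ) : Bool :=
  decide (1 ≤ g.k) && (g.wa - m) % 2 == 0 &&
  decide (100 * max (g.u1 - lo m n) (hi m n - g.u0) ≤ 6 * SC) &&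
  decide (100 * max (g.s1 - lo m (-n)) (hi m (-n) - g.s0) ≤ 6 * SC)

def checkO (g : Rg) : Bool :=
  decide (g.u1 + g.s1 < 0) || decide (SC < g.u0 + g.s0) || decide (g.u1 - g.s0 < 0) ||
  decide (rho + 1 < g.u0 - g.s1)

def check (lev : ℕ) (base : Bool) : Rg → Tr → Bool
  | g, .q m n v => checkQ g m n v
  | g, .v b j p q => checkV lev g b j p q
  | g, .z m n => checkZ g m n
  | g, .o => base && checkO g
  | g, .su p l r => check lev base { g with u1 := p } l && check lev base { g with u0 := p } r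
  | g, .ss p l r => check lev base { g with s1 := p } l && check lev base { g with s0 := p } r
  | g, .sw l r =>
    check lev base { g with k := g.k + 1 } l &&
    check lev base (if g.k % 2 = 0 then { g with wa := g.wa + 2 ^ (g.k / 2), k := g.k + 1 }
      else { g with wb := g.wb + 2 ^ (g.k / 2), k := g.k + 1 }) r

def checkRQ (g : Rg) (m n : ℤ) : Bool :=
  decide (max (g.u1 - lo m n) (hi m n - g.u0) * max (g.s1 - lo m (-n)) (hi m (-n) - g.s0) * 1000
    < 1118 * (SC * SC))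

def checkRV (g : Rg) (b : Bool) (j : ℕ) (p q : ℤ) : Bool :=
  p % 2 == 1 && q % 2 == 1 &&
  decide (max (2 * g.u1 - lo p q) (hi p q - 2 * g.u0) ≤ 2 * (if b then LP j else LN j)) &&
  decide (max (2 * g.s1 - lo p (-q)) (hi p (-q) - 2 * g.s0) ≤ 2 * (if b then LN j else LP j))

/-- the checker for the covering of the plane without residue classes -/
def checkR (base : Bool) : Rg → Tr → Bool
  | g, .q m n _ => checkRQ g m n
  | g, .v b j p q => base && checkRV g b j p q
  | _, .z _ _ => false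
  | g, .o => base && checkO g
  | g, .su p l r => checkR base { g with u1 := p } l && checkR base { g with u0 := p } r
  | g, .ss p l r => checkR base { g with s1 := p } l && checkR base { g with s0 := p } r
  | _, .sw _ _ => false

end Pool.Agent.H.MP_5e03f8_nt
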