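import Pool.Agent.H.MP_5e03f8_nt.Exit

namespace Pool.Agent.H.MP_5e03f8_nt

/-- the statement for residue classes of level `ℓ` near the exceptional point -/
def VL (κ : ℝ) (l : ℕ) : Prop :=
  ∀ x y n : ℤ, 0 < n → ¬ (2 : ℤ) ∣ n →
    (∃ a b : ℤ, (4 : ℤ) ∣ x - n * a ∧ (2 : ℤ) ∣ y - n * b ∧ LV a b = l) →
    ∀ j : ℤ, NearP j x y n → Cov κ x y n

theorem LV_lt (a b : ℤ) : LV a b < 4 := by
  unfold LV; split <;> norm_num

theorem LP_le (j : ℕ) : (LP j : ℝ) ≤ SC * (37 / 100) * ep ^ j := by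
  have h1 := rho_lo
  have h2 := rho_hi
  have e2 : ep ^ 2 = 449 + 120 * r14 := by unfold ep; linear_combination 16 * r14_sq
  have e3 : ep ^ 3 = 13455 + 3596 * r14 := by
    rw [pow_succ, e2]; unfold ep; linear_combination 480 * r14_sq
  have e4 : ep ^ 4 = 403201 + 107760 * r14 := by
    rw [pow_succ, e3]; unfold ep; linear_combination 14384 * r14_sq
  match j with
  | 0 => norm_num [LP, SC]
  | 1 =>
    rw [pow_one]; unfold ep
    norm_num [LP, SC, rho] at *; linarith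
  | 2 => rw [e2]; norm_num [LP, SC, rho] at *; linarith
  | 3 => rw [e3]; norm_num [LP, SC, rho] at *; linarith
  | 4 => rw [e4]; norm_num [LP, SC, rho] at *; linarith
  | (k + 5) =>
    have : LP (k + 5) = 0 := rfl
    rw [this]
    have := SC_pos
    have := ep_pos
    push_cast
    positivity

theorem LN_le (j : ℕ) : (LN j : ℝ) ≤ SC * (37 / 100) * ep ^ (-(j : ℤ)) := by
  have h1 := rho_lo
  have h2 := rho_hi
  rw [zpow_neg, zpow_natCast, ← inv_pow, ep_inv]
  have e2 : (15 - 4 * r14) ^ 2 = 449 - 120 * r14 := by linear_combination 16 * r14_sq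
  have e3 : (15 - 4 * r14) ^ 3 = 13455 - 3596 * r14 := by
    rw [pow_succ, e2]; linear_combination 480 * r14_sq
  have e4 : (15 - 4 * r14) ^ 4 = 403201 - 107760 * r14 := by
    rw [pow_succ, e3]; linear_combination 14384 * r14_sq
  match j with
  | 0 => norm_num [LN, SC]
  | 1 => rw [pow_one]; norm_num [LN, SC, rho] at *; linarith
  | 2 => rw [e2]; norm_num [LN, SC, rho] at *; linarith
  | 3 => rw [e3]; norm_num [LN, SC, rho] at *; linarith
  | 4 => rw [e4]; norm_num [LN, SC, rho] at *; linarith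
  | (k + 5) =>
    have : LN (k + 5) = 0 := rfl
    rw [this]
    have := SC_pos
    have : 0 < 15 - 4 * r14 := by rw [← ep_inv]; exact inv_pos.2 ep_pos
    push_cast
    positivity

/-- the geometric part of a `v` leaf -/
theorem nearP_of_check {g : Rg} {x y n : ℤ} (hn : 0 < n) (h : InRg g x y n) {b : Bool} {j : ℕ} {p q : ℤ}
    (hp : p % 2 = 1) (hq : q % 2 = 1)
    (h1 : max (2 * g.u1 - lo p q) (hi p q - 2 * g.u0) ≤ 2 * (if b then LP j else LN j))
    (h2 : max (2 * g.s1 - lo p (-q)) (hi p (-q) - 2 * g.s0) ≤ 2 * (if b then LN j else LP j)) :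
    NearP (if b then -(j : ℤ) else j) (x - n * ((p - 1) / 2)) (y - n * ((q - 1) / 2)) n := by
  obtain ⟨hu1, hu2, hs1, hs2, -, -⟩ := h
  have hn' : (0 : ℝ) < n := by exact_mod_cast hn
  have hSC := SC_pos
  have hp' : p = 2 * ((p - 1) / 2) + 1 := by omega
  have hq' : q = 2 * ((q - 1) / 2) + 1 := by omega
  set p' := (p - 1) / 2 with hp'd
  set q' := (q - 1) / 2 with hq'd
  have a1 := lo_le p q
  have a2 := le_hi p q
  have a3 := lo_le p (-q)
  have a4 := le_hi p (-q)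
  obtain ⟨h1a, h1b⟩ := max_le_iff.1 h1
  obtain ⟨h2a, h2b⟩ := max_le_iff.1 h2
  have h1a' : (2 * g.u1 - lo p q : ℝ) ≤ 2 * ((if b then LP j else LN j : ℤ) : ℝ) := by exact_mod_cast h1a
  have h1b' : (hi p q - 2 * g.u0 : ℝ) ≤ 2 * ((if b then LP j else LN j : ℤ) : ℝ) := by exact_mod_cast h1b
  have h2a' : (2 * g.s1 - lo p (-q) : ℝ) ≤ 2 * ((if b then LN j else LP j : ℤ) : ℝ) := by exact_mod_cast h2a
  have h2b' : (hi p (-q) - 2 * g.s0 : ℝ) ≤ 2 * ((if b then LN j else LP j : ℤ) : ℝ) := by exact_mod_cast h2b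
  have b1 : ((if b then LP j else LN j : ℤ) : ℝ) ≤ SC * (37 / 100) * ep ^ (-(if b then -(j : ℤ) else j : ℤ)) := by
    cases b
    · simp only [Bool.false_eq_true, if_false]; exact LN_le j
    · simp only [if_true, neg_neg, zpow_natCast]; exact LP_le j
  have b2 : ((if b then LN j else LP j : ℤ) : ℝ) ≤ SC * (37 / 100) * ep ^ ((if b then -(j : ℤ) else j : ℤ)) := by
    cases b
    · simp only [Bool.false_eq_true, if_false, zpow_natCast]; exact LP_le j
    · simp only [if_true]; exact LN_le j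
  generalize ((if b then LP j else LN j : ℤ) : ℝ) = X at *
  generalize ((if b then LN j else LP j : ℤ) : ℝ) = Y at *
  generalize (if b then -(j : ℤ) else j : ℤ) = i at *
  have c1 : (p : ℝ) = 2 * p' + 1 := by exact_mod_cast hp'
  have c2 : (q : ℝ) = 2 * q' + 1 := by exact_mod_cast hq'
  have key1 : SC * |(2 * ((x - n * p' : ℤ) : ℝ) - n + (2 * ((y - n * q' : ℤ) : ℝ) - n) * r14 : ℝ)| ≤ 2 * X * n := by
    rw [← abs_of_pos hSC, ← abs_mul, abs_le]
    push_cast
    rw [c1, c2] at a1 a2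
    constructor <;> nlinarith
  have key2 : SC * |(2 * ((x - n * p' : ℤ) : ℝ) - n - (2 * ((y - n * q' : ℤ) : ℝ) - n) * r14 : ℝ)| ≤ 2 * Y * n := by
    rw [← abs_of_pos hSC, ← abs_mul, abs_le]
    push_cast at a3 a4 ⊢
    rw [c1, c2] at a3 a4
    constructor <;> nlinarith
  constructor
  · have : SC * |(2 * ((x - n * p' : ℤ) : ℝ) - n + (2 * ((y - n * q' : ℤ) : ℝ) - n) * r14 : ℝ)| ≤
      SC * (2 * (37 / 100) * n * ep ^ (-i)) := by nlinarith
    exact le_of_mul_le_mul_left this hSC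
  · have : SC * |(2 * ((x - n * p' : ℤ) : ℝ) - n - (2 * ((y - n * q' : ℤ) : ℝ) - n) * r14 : ℝ)| ≤
      SC * (2 * (37 / 100) * n * ep ^ i) := by nlinarith
    exact le_of_mul_le_mul_left this hSC

theorem not_o {g : Rg} {x y n : ℤ} (hn : 0 < n) (h : InRg g x y n)
    (hb : 0 ≤ x ∧ 2 * x ≤ n ∧ 0 ≤ y ∧ 2 * y ≤ n) (hc : checkO g = true) : False := by
  obtain ⟨h1, h2, h3, h4, -, -⟩ := h
  obtain ⟨b1, b2, b3, b4⟩ := hb
  have hn' : (0 : ℝ) < n := by exact_mod_cast hn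
  have hSC := SC_pos
  have b1' : (0 : ℝ) ≤ x := by exact_mod_cast b1
  have b2' : 2 * (x : ℝ) ≤ n := by exact_mod_cast b2
  have b3' : (0 : ℝ) ≤ y := by exact_mod_cast b3
  have b4' : 2 * (y : ℝ) ≤ n := by exact_mod_cast b4
  have hr := rho_hi
  have hr0 := r14_pos
  unfold checkO at hc
  simp only [Bool.or_eq_true, decide_eq_true_eq] at hc
  rcases hc with ((hc | hc) | hc) | hc
  · have hc' : (g.u1 : ℝ) + g.s1 < 0 := by exact_mod_cast hc
    have : ((g.u1 : ℝ) + g.s1) * n < 0 := mul_neg_of_neg_of_pos hc' hn'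
    nlinarith
  · have hc' : (SC : ℝ) < g.u0 + g.s0 := by exact_mod_cast hc
    have : (SC : ℝ) * n < (g.u0 + g.s0) * n := mul_lt_mul_of_pos_right hc' hn'
    nlinarith
  · have hc' : (g.u1 : ℝ) - g.s0 < 0 := by exact_mod_cast hc
    have : ((g.u1 : ℝ) - g.s0) * n < 0 := mul_neg_of_neg_of_pos hc' hn'
    have h5 : 0 ≤ SC * (y * r14) := by positivity
    nlinarith
  · have hc' : ((rho + 1 : ℤ) : ℝ) < g.u0 - g.s1 := by exact_mod_cast hc
    have h5 : ((rho + 1 : ℤ) : ℝ) * n < (g.u0 - g.s1) * n := mul_lt_mul_of_pos_right hc' hn'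
    have h6 : 2 * (y : ℝ) * (SC * r14) ≤ n * (SC * r14) := mul_le_mul_of_nonneg_right b4' (by positivity)
    have h7 : n * (SC * r14) ≤ n * ((rho + 1 : ℤ) : ℝ) := mul_le_mul_of_nonneg_left hr hn'.le
    nlinarith

/-- Soundness of the checker. -/
theorem check_sound (lev : ℕ) (base : Bool) (hV : ∀ l < lev, VL (1121 / 1000) l) :
    ∀ (t : Tr) (g : Rg), check lev base g t = true → ∀ x y n : ℤ, 0 < n → ¬ (2 : ℤ) ∣ n →
      InRg g x y n → (base = true → 0 ≤ x ∧ 2 * x ≤ n ∧ 0 ≤ y ∧ 2 * y ≤ n) →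
      Cov (1121 / 1000) x y n := by
  intro t
  induction t with
  | q m n' v =>
    intro g hc x y n hn hodd h hb
    exact sound_q hn hodd h m n' v hc
  | v b j p q =>
    intro g hc x y n hn hodd h hb
    simp only [check, checkV, Bool.and_eq_true, Bool.or_eq_true, beq_iff_eq, decide_eq_true_eq] at hc
    obtain ⟨⟨⟨⟨hp, hq⟩, h1⟩, h2⟩, h3⟩ := hc
    have hnear := nearP_of_check hn h hp hq h1 h2
    rw [cov_iff]
    apply CovF.trans ((p - 1) / 2) ((q - 1) / 2)
    rw [← cov_iff]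
    rcases h3 with h3 | ⟨hk, hl⟩
    · refine hV (LV (n * (x - n * ((p - 1) / 2))) (n * (y - n * ((q - 1) / 2)))) (lt_of_lt_of_le (LV_lt _ _) h3) _ _ n hn hodd ?_ _ hnear
      obtain ⟨k, hk⟩ : ∃ k, n = 2 * k + 1 := ⟨n / 2, by omega⟩
      refine ⟨_, _, ?_, ?_, rfl⟩
      · refine ⟨-(k ^ 2 + k) * (x - n * ((p - 1) / 2)), ?_⟩
        have : n * n = 4 * (k ^ 2 + k) + 1 := by rw [hk]; ring
        linear_combination (-(x - n * ((p - 1) / 2))) * this
      · refine ⟨-2 * (k ^ 2 + k) * (y - n * ((q - 1) / 2)), ?_⟩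
        have : n * n = 4 * (k ^ 2 + k) + 1 := by rw [hk]; ring
        linear_combination (-(y - n * ((q - 1) / 2))) * this
    · refine hV _ hl _ _ n hn hodd ?_ _ hnear
      obtain ⟨-, -, -, -, hx, hy⟩ := h
      refine ⟨_, _, ?_, ?_, rfl⟩
      · have h4 : (2 : ℤ) ^ 2 ∣ x - n * g.wa := dvd_trans (pow_dvd_pow 2 (by omega)) hx
        have h5 : x - n * ((p - 1) / 2) - n * (g.wa - (p - 1) / 2) = x - n * g.wa := by ring
        rw [h5]; simpa using h4
      · have h4 : (2 : ℤ) ^ 1 ∣ y - n * g.wb := dvd_trans (pow_dvd_pow 2 (by omega)) hy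
        have h5 : y - n * ((q - 1) / 2) - n * (g.wb - (q - 1) / 2) = y - n * g.wb := by ring
        rw [h5]; simpa using h4
  | z m n' =>
    intro g hc x y n hn hodd h hb
    simp only [check, checkZ, Bool.and_eq_true, beq_iff_eq, decide_eq_true_eq] at hc
    obtain ⟨⟨⟨hk, hpar⟩, h1⟩, h2⟩ := hc
    have hn' : (0 : ℝ) < n := by exact_mod_cast hn
    have hSC := SC_pos
    rw [cov_iff]
    apply CovF.trans m n'
    rw [← cov_iff]
    apply zlemma hn hodd
    · have hx := h.2.2.2.2.1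
      have := dvd_of_mod (e := 1) hx (by omega) (by simpa using hpar)
      simpa using this
    · have h3 := bound_u hn h m n'
      have h1' : 100 * ((max (g.u1 - lo m n') (hi m n' - g.u0) : ℤ) : ℝ) ≤ 6 * SC := by exact_mod_cast h1
      have : SC * |((x - n * m : ℤ) : ℝ) + ((y - n * n' : ℤ) : ℝ) * r14| ≤ SC * (6 / 100 * n) := by nlinarith
      exact le_of_mul_le_mul_left this hSC
    · have h3 := bound_s hn h m n'
      have h2' : 100 * ((max (g.s1 - lo m (-n')) (hi m (-n') - g.s0) : ℤ) : ℝ) ≤ 6 * SC := by exact_mod_cast h2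
      have : SC * |((x - n * m : ℤ) : ℝ) - ((y - n * n' : ℤ) : ℝ) * r14| ≤ SC * (6 / 100 * n) := by nlinarith
      exact le_of_mul_le_mul_left this hSC
  | o =>
    intro g hc x y n hn hodd h hb
    simp only [check, Bool.and_eq_true] at hc
    exact (not_o hn h (hb hc.1) hc.2).elim
  | su p l r ihl ihr =>
    intro g hc x y n hn hodd h hb
    simp only [check, Bool.and_eq_true] at hc
    obtain ⟨h1, h2, h3, h4, h5, h6⟩ := h
    rcases le_total (SC * (x + y * r14) : ℝ) ((p : ℝ) * n) with hle | hle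
    · exact ihl _ hc.1 x y n hn hodd ⟨h1, hle, h3, h4, h5, h6⟩ hb
    · exact ihr _ hc.2 x y n hn hodd ⟨hle, h2, h3, h4, h5, h6⟩ hb
  | ss p l r ihl ihr =>
    intro g hc x y n hn hodd h hb
    simp only [check, Bool.and_eq_true] at hc
    obtain ⟨h1, h2, h3, h4, h5, h6⟩ := h
    rcases le_total (SC * (x - y * r14) : ℝ) ((p : ℝ) * n) with hle | hle
    · exact ihl _ hc.1 x y n hn hodd ⟨h1, h2, h3, hle, h5, h6⟩ hb
    · exact ihr _ hc.2 x y n hn hodd ⟨h1, h2, hle, h4, h5, h6⟩ hb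
  | sw l r ihl ihr =>
    intro g hc x y n hn hodd h hb
    simp only [check, Bool.and_eq_true] at hc
    obtain ⟨hcl, hcr⟩ := hc
    obtain ⟨h1, h2, h3, h4, h5, h6⟩ := h
    have hodd' : n % 2 = 1 := by omega
    by_cases hpar : g.k % 2 = 0
    · -- refine `x`
      have e1 : (g.k + 1) / 2 = g.k / 2 := by omega
      have e2 : (g.k + 1 + 1) / 2 = g.k / 2 + 1 := by omega
      rw [if_pos hpar] at hcr
      rw [e1] at h5
      obtain ⟨c, hcc⟩ := h5
      rcases Int.even_or_odd c with ⟨d, hd⟩ | ⟨d, hd⟩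
      · refine ihl _ hcl x y n hn hodd ⟨h1, h2, h3, h4, ?_, ?_⟩ hb
        · show (2 : ℤ) ^ ((g.k + 1 + 1) / 2) ∣ x - n * g.wa
          rw [e2]; exact ⟨d, by rw [hcc, hd]; ring⟩
        · show (2 : ℤ) ^ ((g.k + 1) / 2) ∣ y - n * g.wb
          rw [e1]; exact h6
      · refine ihr _ hcr x y n hn hodd ⟨h1, h2, h3, h4, ?_, ?_⟩ hb
        · show (2 : ℤ) ^ ((g.k + 1 + 1) / 2) ∣ x - n * (g.wa + 2 ^ (g.k / 2))
          rw [e2]
          obtain ⟨m, hm⟩ : ∃ m, n = 2 * m + 1 := ⟨n / 2, by omega⟩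
          refine ⟨d - m, ?_⟩
          have : x - n * (g.wa + 2 ^ (g.k / 2)) = (x - n * g.wa) - n * 2 ^ (g.k / 2) := by ring
          rw [this, hcc, hd, hm]; ring
        · show (2 : ℤ) ^ ((g.k + 1) / 2) ∣ y - n * g.wb
          rw [e1]; exact h6
    · have e1 : (g.k + 1) / 2 = g.k / 2 + 1 := by omega
      have e2 : (g.k + 1 + 1) / 2 = (g.k + 1) / 2 := by omega
      rw [if_neg hpar] at hcr
      obtain ⟨c, hcc⟩ := h6
      rcases Int.even_or_odd c with ⟨d, hd⟩ | ⟨d, hd⟩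
      · refine ihl _ hcl x y n hn hodd ⟨h1, h2, h3, h4, ?_, ?_⟩ hb
        · show (2 : ℤ) ^ ((g.k + 1 + 1) / 2) ∣ x - n * g.wa
          rw [e2]; exact h5
        · show (2 : ℤ) ^ ((g.k + 1) / 2) ∣ y - n * g.wb
          rw [e1]; exact ⟨d, by rw [hcc, hd]; ring⟩
      · refine ihr _ hcr x y n hn hodd ⟨h1, h2, h3, h4, ?_, ?_⟩ hb
        · show (2 : ℤ) ^ ((g.k + 1 + 1) / 2) ∣ x - n * g.wa
          rw [e2]; exact h5
        · show (2 : ℤ) ^ ((g.k + 1) / 2) ∣ y - n * (g.wb + 2 ^ (g.k / 2))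
          rw [e1]
          obtain ⟨m, hm⟩ : ∃ m, n = 2 * m + 1 := ⟨n / 2, by omega⟩
          refine ⟨d - m, ?_⟩
          have : y - n * (g.wb + 2 ^ (g.k / 2)) = (y - n * g.wb) - n * 2 ^ (g.k / 2) := by ring
          rw [this, hcc, hd, hm]; ring

/-- the statement near the exceptional point for the real covering -/
def VR : Prop :=
  ∀ x y n : ℤ, 0 < n → ¬ (2 * x - n = 0 ∧ 2 * y - n = 0) → ∀ j : ℤ, NearP j x y n → CovR x y n

/-- Soundness of the checker for real coverings. -/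
theorem checkR_sound (base : Bool) (hV : base = true → VR) :
    ∀ (t : Tr) (g : Rg), checkR base g t = true → ∀ x y n : ℤ, 0 < n →
      (∀ p q : ℤ, ¬ (2 * x - n * (2 * p + 1) = 0 ∧ 2 * y - n * (2 * q + 1) = 0)) →
      InRg g x y n → g.k = 0 → (base = true → 0 ≤ x ∧ 2 * x ≤ n ∧ 0 ≤ y ∧ 2 * y ≤ n) →
      CovR x y n := by
  intro t
  induction t with
  | q m n' v =>
    intro g hc x y n hn hne h hk hb
    exact sound_rq hn h m n' hc
  | v b j p q =>
    intro g hc x y n hn hne h hk hb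
    simp only [checkR, checkRV, Bool.and_eq_true, beq_iff_eq, decide_eq_true_eq] at hc
    obtain ⟨hbase, ⟨⟨hp, hq⟩, h1⟩, h2⟩ := hc
    have hnear := nearP_of_check hn h hp hq h1 h2
    rw [covR_iff]
    apply CovF.trans ((p - 1) / 2) ((q - 1) / 2)
    rw [← covR_iff]
    apply hV hbase _ _ n hn _ _ hnear
    rintro ⟨h3, h4⟩
    apply hne ((p - 1) / 2) ((q - 1) / 2)
    constructor <;> linarith
  | z m n' => intro g hc; simp [checkR] at hc
  | o =>
    intro g hc x y n hn hne h hk hb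
    simp only [checkR, Bool.and_eq_true] at hc
    exact (not_o hn h (hb hc.1) hc.2).elim
  | su p l r ihl ihr =>
    intro g hc x y n hn hne h hk hb
    simp only [checkR, Bool.and_eq_true] at hc
    obtain ⟨h1, h2, h3, h4, h5, h6⟩ := h
    rcases le_total (SC * (x + y * r14) : ℝ) ((p : ℝ) * n) with hle | hle
    · exact ihl _ hc.1 x y n hn hne ⟨h1, hle, h3, h4, h5, h6⟩ hk hb
    · exact ihr _ hc.2 x y n hn hne ⟨hle, h2, h3, h4, h5, h6⟩ hk hb
  | ss p l r ihl ihr =>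
    intro g hc x y n hn hne h hk hb
    simp only [checkR, Bool.and_eq_true] at hc
    obtain ⟨h1, h2, h3, h4, h5, h6⟩ := h
    rcases le_total (SC * (x - y * r14) : ℝ) ((p : ℝ) * n) with hle | hle
    · exact ihl _ hc.1 x y n hn hne ⟨h1, h2, h3, hle, h5, h6⟩ hk hb
    · exact ihr _ hc.2 x y n hn hne ⟨h1, h2, hle, h4, h5, h6⟩ hk hb
  | sw l r ihl ihr => intro g hc; simp [checkR] at hc

end Pool.Agent.H.MP_5e03f8_nt
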