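import Pool.Agent.H.MP_5e03f8_nt.Cert

/-! Certificate data (generated by computer) for the covering argument. -/

namespace Pool.Agent.H.MP_5e03f8_nt

def tcDp0 : Tr := (.su (.ofNat 120911094683271168) (.ss (.negSucc 109440989382311935) (.q (.negSucc 0) (.ofNat 0) 0) (.su (.ofNat 99950005011349504) (.ss (.negSucc 91980744733229055) (.q (.negSucc 0) (.ofNat 0) 0) (.su (.ofNat 85181364827062272) (.ss (.negSucc 79323166874271743) (.q (.negSucc 0) (.ofNat 0) 0) (.su (.ofNat 74212636828368896) (.su (.ofNat 87960930222080) (.ss (.negSucc 96757023244287) .o (.z (.ofNat 0) (.ofNat 0))) (.su (.ofNat 37145900832784384) (.su (.ofNat 18616930881503232) (.su (.ofNat 9352445905862656) (.su (.ofNat 4720203418042368) (.su (.ofNat 2404082174132224) (.q (.ofNat 449) (.negSucc 119) 0) (.q (.ofNat 15) (.negSucc 3) 0)) (.q (.ofNat 15) (.negSucc 3) 0)) (.q (.ofNat 15) (.negSucc 3) 0)) (.q (.ofNat 15) (.negSucc 3) 0)) (.q (.ofNat 15) (.negSucc 3) 0))) (.ss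 (.negSucc 39661583437135871) (.ss (.negSucc 59492375155703807) (.ss (.negSucc 69407771014987775) (.su (.ofNat 79697000827715584) (.ss (.negSucc 74365468944629759) (.su (.ofNat 76954818828042240) (.q (.negSucc 0) (.ofNat 0) 0) (.q (.ofNat 1) (.ofNat 0) 0)) (.q (.ofNat 1) (.ofNat 0) 0)) (.q (.ofNat 1) (.ofNat 0) 0)) (.q (.ofNat 1) (.ofNat 0) 0)) (.q (.ofNat 1) (.ofNat 0) 0)) (.q (.ofNat 1) (.ofNat 0) 0)))) (.ss (.negSucc 45994770413125631) (.ss (.negSucc 68987757573177343) (.ss (.negSucc 80484251153203199) (.su (.ofNat 92565684919205888) (.ss (.negSucc 86232497943216127) (.q (.negSucc 0) (.ofNat 0) 0) (.q (.ofNat 1) (.ofNat 0) 0)) (.q (.ofNat 1) (.ofNat 0) 0)) (.q (.ofNat 1) (.ofNat 0) 0)) (.q (.ofNat 1) (.ofNat 0) 0)) (.q (.ofNat 1) (.ofNat 0) 0)))) (.ss (.negSucc 54720494691155967) (.ss (.negSucc 82080742036733951) (.ss (.negSucc 95760865709522943) (.su (.ofNat 110430549847310336) (.q (.negSucc 70) (.ofNat 19) 0) (.q (.ofNat 1) (.ofNat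 0) 0)) (.q (.ofNat 1) (.ofNat 0) 0)) (.q (.ofNat 1) (.ofNat 0) 0)) (.q (.ofNat 1) (.ofNat 0) 0)))) (.ss (.negSucc 67545198317535231) (.ss (.negSucc 101317797476302847) (.su (.ofNat 136955168355778560) (.v false 1 (.negSucc 10) (.ofNat 3)) (.q (.ofNat 1) (.ofNat 0) 0)) (.q (.ofNat 1) (.ofNat 0) 0)) (.q (.ofNat 1) (.ofNat 0) 0)))
def tcDp1 : Tr := (.ss (.ofNat 144115188075855872) (.su (.ofNat 93854312546959360) (.ss (.ofNat 72057594037927936) (.ss (.ofNat 36028797018963968) (.ss (.ofNat 18014398509481984) (.ss (.ofNat 9007199254740992) (.ss (.ofNat 4503599627370496) (.ss (.ofNat 2251799813685248) (.ss (.ofNat 1125899906842624) (.ss (.ofNat 562949953421312) (.ss (.ofNat 281474976710656) (.ss (.ofNat 140737488355328) (.ss (.ofNat 70368744177664) (.ss (.ofNat 35184372088832) (.sw (.ss (.ofNat 17592186044416) (.ss (.ofNat 8796093022208) (.sw (.ss (.ofNat 4398046511104) (.ss (.ofNat 2199023255552) (.sw (.ss (.ofNat 1099511627776) (.sw (.ss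 (.ofNat 549755813888) (.ss (.ofNat 274877906944) (.sw (.ss (.ofNat 137438953472) (.ss (.ofNat 68719476736) (.sw (.su (.ofNat 46918360180457472) (.z (.ofNat 0) (.ofNat 0)) (.q (.ofNat 1) (.ofNat 0) 0)) (.q (.ofNat 0) (.ofNat 0) 6)) (.q (.ofNat 15) (.ofNat 4) 0)) (.q (.ofNat 15) (.ofNat 4) 0)) (.q (.ofNat 0) (.ofNat 0) 5)) (.q (.ofNat 15) (.ofNat 4) 0)) (.q (.ofNat 1) (.ofNat 0) 0)) (.q (.ofNat 0) (.ofNat 0) 4)) (.q (.ofNat 1) (.ofNat 0) 0)) (.q (.ofNat 0) (.ofNat 0) 3)) (.q (.ofNat 1) (.ofNat 0) 0)) (.q (.ofNat 1) (.ofNat 0) 0)) (.q (.ofNat 0) (.ofNat 0) 2)) (.q (.ofNat 1) (.ofNat 0) 0)) (.q (.ofNat 1) (.ofNat 0) 0)) (.q (.ofNat 0) (.ofNat 0) 1)) (.q (.ofNat 1) (.ofNat 0) 0)) (.q (.ofNat 1) (.ofNat 0) 0)) (.q (.ofNat 1) (.ofNat 0) 0)) (.q (.ofNat 1) (.ofNat 0) 0)) (.q (.ofNat 1) (.ofNat 0) 0)) (.q (.ofNat 1) (.ofNat 0) 0)) (.q (.ofNat 1) (.ofNat 0) 0)) (.q (.ofNat 1) (.ofNat 0) 0)) (.q (.ofNat 1) (.ofNat 0) 0)) (.q (.ofNat 1) (.ofNat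 0) 0)) (.q (.ofNat 1) (.ofNat 0) 0)) (.q (.ofNat 1) (.ofNat 0) 0)) (.q (.ofNat 1) (.ofNat 0) 0)) (.q (.ofNat 1) (.ofNat 0) 0))
def tcDp2 : Tr := (.ss (.negSucc 1630139650192441343) (.q (.ofNat 934) (.ofNat 250) 2) (.ss (.negSucc 1629953970166300671) (.ss (.negSucc 1630113725769842687) (.sw (.q (.ofNat 36) (.ofNat 10) 3) (.su (.ofNat 1632444913759027200) (.q (.negSucc 0) (.ofNat 0) 0) (.sw (.q (.ofNat 36) (.ofNat 10) 4) (.su (.ofNat 1633086478793834496) (.q (.negSucc 484) (.ofNat 130) 0) (.sw (.su (.ofNat 1633610121206562816) (.su (.ofNat 1633348300000198656) (.sw (.q (.negSucc 35) (.ofNat 10) 6) (.q (.ofNat 36) (.ofNat 10) 6)) (.q (.ofNat 413) (.negSucc 109) 0)) (.q (.ofNat 413) (.negSucc 109) 0)) (.q (.ofNat 36) (.ofNat 10) 5)))))) (.ss (.negSucc 1630033856558006271) (.ss (.negSucc 1630073791163924479) (.sw (.q (.ofNat 36) (.ofNat 10) 3) (.ss (.negSucc 1630093758466883583) (.sw (.q (.ofNat 36) (.ofNat 10) 4) (.ss (.negSucc 1630103742118363135)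 (.ss (.negSucc 1630113712884940799) (.sw (.sw (.q (.negSucc 35) (.ofNat 10) 6) (.q (.ofNat 36) (.ofNat 10) 6)) (.q (.ofNat 36) (.ofNat 10) 5)) (.ss (.negSucc 1630108727501651967) (.sw (.ss (.negSucc 1630111220193296383) (.ss (.negSucc 1630112466539118591) (.sw (.q (.negSucc 35) (.ofNat 10) 6) (.q (.ofNat 36) (.ofNat 10) 6)) (.q (.negSucc 5568) (.negSucc 1487) 0)) (.q (.negSucc 5568) (.negSucc 1487) 0)) (.q (.ofNat 36) (.ofNat 10) 5)) (.q (.negSucc 5568) (.negSucc 1487) 0))) (.q (.negSucc 5568) (.negSucc 1487) 0))) (.q (.negSucc 5568) (.negSucc 1487) 0))) (.q (.negSucc 5568) (.negSucc 1487) 0)) (.q (.negSucc 5568) (.negSucc 1487) 0))) (.ss (.negSucc 1629682390794239999) (.ss (.negSucc 1629818180480270335) (.ss (.negSucc 1629886075323285503) (.sw (.q (.ofNat 36) (.ofNat 10) 3) (.ss (.negSucc 1629920022744793087) (.q (.negSucc 5568) (.negSucc 1487) 0) (.q (.negSucc 2092) (.negSucc 558) 0))) (.q (.negSucc 2092) (.negSucc 558) 0)) (.q (.negSucc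 0) (.ofNat 0) 0)) (.q (.negSucc 0) (.ofNat 0) 0))))
def tcDp3 : Tr := (.su (.ofNat 1684205523148210176) (.su (.ofNat 1629405863619854336) (.q (.ofNat 1) (.ofNat 0) 0) (.su (.ofNat 1644258066687852544) (.ss (.negSucc 1628126032085123071) (.su (.ofNat 1636708819851542528) (.ss (.negSucc 1629410811422179327) (.sw (.ss (.negSucc 1634134313375105023) (.q (.ofNat 6) (.ofNat 2) 2) (.su (.ofNat 1634133763619291136) (.ss (.negSucc 1633087028549648383) (.q (.negSucc 412) (.negSucc 109) 0) (.ss (.negSucc 1630726102206906367) (.q (.ofNat 485) (.ofNat 130) 0) tcDp2)) (.su (.ofNat 1635421291735416832) (.q (.ofNat 413) (.negSucc 109) 0) (.q (.negSucc 5) (.ofNat 2) 2)))) (.q (.ofNat 36) (.ofNat 10) 2)) (.ss (.negSucc 1628768421753651199) (.su (.ofNat 1633057341735698432) (.q (.negSucc 0) (.ofNat 0) 0) (.ss (.negSucc 1629089616587915263) (.q (.ofNat 1383) (.ofNat 370) 0) (.q (.negSucc 0) (.ofNat 0) 0))) (.q (.negSucc 0) (.ofNat 0) 0))) (.su (.ofNat 1640483443269697536)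 (.su (.ofNat 1638596131560620032) (.su (.ofNat 1637652475706081280) (.su (.ofNat 1637180647778811904) (.q (.ofNat 1311) (.negSucc 349) 0) (.q (.ofNat 80) (.negSucc 20) 1)) (.q (.ofNat 80) (.negSucc 20) 1)) (.q (.ofNat 80) (.negSucc 20) 1)) (.q (.ofNat 80) (.negSucc 20) 1))) (.ss (.negSucc 1617075940225974271) (.ss (.negSucc 1622600986155548671) (.ss (.negSucc 1625363509120335871) (.ss (.negSucc 1626744770602729471) (.su (.ofNat 1636831965153853440) (.q (.negSucc 0) (.ofNat 0) 0) (.q (.ofNat 80) (.negSucc 20) 1)) (.q (.negSucc 0) (.ofNat 0) 0)) (.q (.negSucc 0) (.ofNat 0) 0)) (.q (.negSucc 0) (.ofNat 0) 0)) (.q (.negSucc 0) (.ofNat 0) 0))) (.su (.ofNat 1664229595894775808) (.su (.ofNat 1654243831291314176) (.su (.ofNat 1649250948989583360) (.q (.ofNat 80) (.negSucc 20) 1) (.q (.negSucc 20) (.ofNat 6) 0)) (.q (.negSucc 20) (.ofNat 6) 0)) (.q (.negSucc 20) (.ofNat 6) 0)))) (.su (.ofNat 1727834144538361856) (.su (.ofNat 1706019833843286016)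 (.su (.ofNat 1695112678495748096) (.q (.negSucc 20) (.ofNat 6) 0) (.q (.ofNat 9) (.negSucc 1) 0)) (.q (.ofNat 9) (.negSucc 1) 0)) (.q (.ofNat 9) (.negSucc 1) 0)))
def tcDp4 : Tr := (.su (.ofNat 2306687434143825920) (.ss (.negSucc 1686246216729362431) (.q (.negSucc 8) (.negSucc 1) 0) (.ss (.negSucc 1558104733581836287) (.ss (.negSucc 1644288853013430271) (.q (.ofNat 21) (.ofNat 6) 0) (.ss (.negSucc 1594696480554221567) (.ss (.negSucc 1606025848366825471) (.ss (.negSucc 1636733009107353599) (.q (.negSucc 79) (.negSucc 20) 1) (.su (.ofNat 1933029402560430080) (.su (.ofNat 1771462765928513536) tcDp3 (.su (.ofNat 1852246084244471808) (.su (.ofNat 1811854425086492672) (.q (.ofNat 9) (.negSucc 1) 0) (.q (.negSucc 1) (.ofNat 1) 1)) (.q (.negSucc 1) (.ofNat 1) 1))) (.su (.ofNat 2244481464290770944) (.q (.negSucc 1) (.ofNat 1) 1) (.q (.negSucc 12) (.ofNat 4) 0)))) (.ss (.negSucc 1600361164460523519) (.q (.negSucc 64) (.negSucc 16) 0) (.q (.ofNat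 51) (.ofNat 14) 0))) (.ss (.negSucc 1576400607068028927) (.ss (.negSucc 1585548543811125247) (.q (.ofNat 51) (.ofNat 14) 0) (.v true 1 (.ofNat 1) (.ofNat 1))) (.q (.negSucc 49) (.negSucc 12) 1)))) (.ss (.negSucc 1526544351818153983) (.ss (.negSucc 1542324542699995135) (.ss (.negSucc 1550214638140915711) (.ss (.negSucc 1558094837977186303) (.q (.negSucc 49) (.negSucc 12) 1) (.ss (.negSucc 1554154738059051007) (.su (.ofNat 1933029402560430080) (.q (.negSucc 0) (.ofNat 0) 0) (.ss (.negSucc 1556124788018118655) (.q (.negSucc 49) (.negSucc 12) 1) (.q (.negSucc 4) (.negSucc 0) 0))) (.q (.negSucc 4) (.negSucc 0) 0))) (.q (.negSucc 4) (.negSucc 0) 0)) (.q (.negSucc 4) (.negSucc 0) 0)) (.q (.negSucc 0) (.ofNat 0) 0)))) (.su (.ofNat 2520010282118414336) (.su (.ofNat 2413348858131120128) (.su (.ofNat 2306792987260092416) (.q (.negSucc 12) (.ofNat 4) 0) (.su (.ofNat 2360070922695606272) (.su (.ofNat 2333431954977849344) (.su (.ofNat 2320112471118970880)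 (.su (.ofNat 2313452729189531648) (.su (.ofNat 2310122858224812032) (.q (.negSucc 12) (.ofNat 4) 0) (.q (.ofNat 17) (.negSucc 3) 0)) (.q (.ofNat 17) (.negSucc 3) 0)) (.q (.ofNat 17) (.negSucc 3) 0)) (.q (.ofNat 17) (.negSucc 3) 0)) (.v false 0 (.ofNat 1) (.ofNat 1)))) (.v false 0 (.ofNat 1) (.ofNat 1))) (.v false 0 (.ofNat 1) (.ofNat 1))))
def tcDp5 : Tr := (.ss (.negSucc 1752955786209787903) (.ss (.negSucc 1812399782853869567) (.ss (.negSucc 1892549782472228863) .o (.ss (.negSucc 1852474782663049215) .o (.ss (.negSucc 1840344970385424383) (.ss (.negSucc 1848225170221694975) .o (.su (.ofNat 1595822380461064192) .o (.su (.ofNat 1718563062492954624) .o (.su (.ofNat 1812355802388758528) .o (.su (.ofNat 1840342771362168832) .o (.q (.negSucc 1) (.ofNat 1) 4)))))) (.ss (.negSucc 1826372376619646975) (.ss (.negSucc 1833358673502535679) (.ss (.negSucc 1836851821943980031) (.ss (.negSucc 1838598396164702207) (.ss (.negSucc 1839471683275063295)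 (.ss (.negSucc 1839908326830243839) (.ss (.negSucc 1840344523708825599) (.q (.ofNat 1525) (.ofNat 408) 0) (.ss (.negSucc 1840126442449403903) (.q (.ofNat 1525) (.ofNat 408) 0) (.q (.negSucc 38) (.negSucc 9) 0))) (.q (.negSucc 38) (.negSucc 9) 0)) (.q (.negSucc 38) (.negSucc 9) 0)) (.q (.negSucc 38) (.negSucc 9) 0)) (.q (.negSucc 38) (.negSucc 9) 0)) (.q (.negSucc 38) (.negSucc 9) 0)) (.q (.negSucc 38) (.negSucc 9) 0))))) (.ss (.negSucc 1782677784531828735) (.ss (.negSucc 1797538783692849151) (.ss (.negSucc 1804969283273359359) (.ss (.negSucc 1812385489202708479) (.q (.negSucc 38) (.negSucc 9) 0) (.ss (.negSucc 1808677386238033919) (.q (.ofNat 77) (.ofNat 21) 0) (.q (.negSucc 8) (.negSucc 1) 0))) (.q (.negSucc 8) (.negSucc 1) 0)) (.q (.negSucc 8) (.negSucc 1) 0)) (.q (.ofNat 6) (.ofNat 2) 1))) (.ss (.negSucc 1625377253015683071) (.q (.ofNat 6) (.ofNat 2) 1) (.ss (.negSucc 1596855921391173631) (.ss (.negSucc 1613520119621746687) (.ss (.negSucc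 1618927517807149055) (.q (.ofNat 36) (.ofNat 10) 1) (.ss (.negSucc 1617787324249145343) (.su (.ofNat 1699457948448718848) (.q (.negSucc 0) (.ofNat 0) 0) (.su (.ofNat 1813068285923557376) (.q (.ofNat 9) (.negSucc 1) 0) (.su (.ofNat 1840380154757513216) (.q (.ofNat 39) (.negSucc 9) 0) (.q (.negSucc 1) (.ofNat 1) 4)))) (.ss (.negSucc 1615653721935446015) (.ss (.negSucc 1616720523092295679) (.ss (.negSucc 1617253923670720511) (.ss (.negSucc 1617520623959932927) (.ss (.negSucc 1617786808853069823) (.q (.ofNat 5424) (.ofNat 1450) 1) (.ss (.negSucc 1617653716406501375) (.ss (.negSucc 1617720262629785599) (.q (.ofNat 5424) (.ofNat 1450) 1) (.q (.negSucc 180) (.negSucc 47) 0)) (.q (.negSucc 180) (.negSucc 47) 0))) (.q (.negSucc 180) (.negSucc 47) 0)) (.q (.negSucc 180) (.negSucc 47) 0)) (.q (.negSucc 180) (.negSucc 47) 0)) (.q (.negSucc 180) (.negSucc 47) 0)))) (.ss (.negSucc 1605188020506460159) (.ss (.negSucc 1609354070064103423) (.ss (.negSucc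 1611437094842925055) (.q (.negSucc 180) (.negSucc 47) 0) (.q (.negSucc 64) (.negSucc 16) 0)) (.q (.negSucc 64) (.negSucc 16) 0)) (.q (.ofNat 51) (.ofNat 14) 0))) (.su (.ofNat 1700337557750939648) (.q (.negSucc 0) (.ofNat 0) 0) (.ss (.negSucc 1583391301997428735) (.su (.ofNat 1770820651137892352) (.q (.negSucc 0) (.ofNat 0) 0) (.ss (.negSucc 1590123611694301183) (.q (.ofNat 51) (.ofNat 14) 0) (.q (.negSucc 0) (.ofNat 0) 0))) (.q (.negSucc 0) (.ofNat 0) 0))))))
def tcDp6 : Tr := (.ss (.negSucc 1594696480554221567) (.su (.ofNat 1854497884058157056) (.su (.ofNat 1848222971198439424) (.ss (.negSucc 1606052236645892095) (.ss (.negSucc 1613519020110118911) (.ss (.negSucc 1618879139295526911) (.q (.ofNat 36) (.ofNat 10) 1) (.ss (.negSucc 1617786774493331455) (.ss (.negSucc 1618456377074647039) (.v true 2 (.negSucc 28) (.negSucc 6)) (.ss (.negSucc 1618118827004919807) (.q (.negSucc 1527) (.negSucc 407) 1) (.su (.ofNat 1844281771768676352) (.su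 (.ofNat 1841273233077174272) (.ss (.negSucc 1617888135721517055) (.q (.ofNat 1948) (.ofNat 521) 2) (.q (.negSucc 8030) (.negSucc 2145) 0)) (.su (.ofNat 1842777364983971840) (.su (.ofNat 1842025299030573056) (.q (.negSucc 1075) (.ofNat 288) 1) (.q (.negSucc 177) (.ofNat 48) 1)) (.q (.negSucc 177) (.ofNat 48) 1))) (.su (.ofNat 1847572610070609920) (.q (.ofNat 271) (.negSucc 71) 0) (.q (.ofNat 1169) (.negSucc 311) 0))))) (.ss (.negSucc 1615652897301725183) (.ss (.negSucc 1616719835897528319) (.ss (.negSucc 1617253305195429887) (.ss (.negSucc 1617520039844380671) (.ss (.negSucc 1617653407168856063) (.ss (.negSucc 1617720090831093759) (.q (.ofNat 5424) (.ofNat 1450) 1) (.q (.negSucc 180) (.negSucc 47) 0)) (.q (.negSucc 180) (.negSucc 47) 0)) (.q (.negSucc 180) (.negSucc 47) 0)) (.q (.negSucc 180) (.negSucc 47) 0)) (.q (.negSucc 180) (.negSucc 47) 0)) (.q (.negSucc 180) (.negSucc 47) 0)))) (.ss (.negSucc 1609785628378005503) (.ss (.negSucc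 1611652324244062207) (.q (.negSucc 180) (.negSucc 47) 0) (.q (.negSucc 64) (.negSucc 16) 0)) (.q (.negSucc 64) (.negSucc 16) 0))) (.ss (.negSucc 1600374358600056831) (.q (.negSucc 64) (.negSucc 16) 0) (.q (.ofNat 51) (.ofNat 14) 0))) (.su (.ofNat 1851360427628298240) (.su (.ofNat 1849791699413368832) (.su (.ofNat 1849007335305904128) (.su (.ofNat 1848615153252171776) (.su (.ofNat 1848419062225305600) (.q (.ofNat 1169) (.negSucc 311) 0) (.q (.negSucc 61) (.ofNat 17) 4)) (.q (.negSucc 61) (.ofNat 17) 4)) (.q (.negSucc 61) (.ofNat 17) 4)) (.q (.negSucc 61) (.ofNat 17) 4)) (.q (.negSucc 61) (.ofNat 17) 4))) (.su (.ofNat 1859282958662238208) (.q (.negSucc 61) (.ofNat 17) 4) (.q (.ofNat 54) (.negSucc 13) 1))) (.ss (.negSucc 1582311581578952703) (.ss (.negSucc 1588504031066587135) (.q (.ofNat 51) (.ofNat 14) 0) (.q (.negSucc 0) (.ofNat 0) 0)) (.q (.negSucc 0) (.ofNat 0) 0)))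
def tcDp7 : Tr := (.ss (.negSucc 1705791135424708607) (.ss (.negSucc 1812162288342269951) (.ss (.negSucc 1840333975269146623) (.q (.ofNat 2) (.ofNat 1) 4) (.ss (.negSucc 1826249231317336063) (.ss (.negSucc 1833291603293241343) (.q (.ofNat 2) (.ofNat 1) 4) (.q (.negSucc 38) (.negSucc 9) 0)) (.q (.negSucc 38) (.negSucc 9) 0))) (.ss (.negSucc 1758981109930000383) (.ss (.negSucc 1785571699136135167) (.ss (.negSucc 1798866993739202559) (.ss (.negSucc 1805514641040736255) (.ss (.negSucc 1812155691272503295) (.q (.negSucc 38) (.negSucc 9) 0) (.ss (.negSucc 1808835166156619775) (.q (.ofNat 77) (.ofNat 21) 0) (.q (.negSucc 8) (.negSucc 1) 0))) (.q (.negSucc 8) (.negSucc 1) 0)) (.q (.negSucc 8) (.negSucc 1) 0)) (.q (.ofNat 6) (.ofNat 2) 1)) (.q (.ofNat 6) (.ofNat 2) 1))) (.su (.ofNat 1910877541795627008) (.q (.ofNat 69) (.negSucc 17) 0) (.su (.ofNat 1915569707667161088) (.q (.ofNat 185) (.negSucc 48) 0) (.ss (.negSucc 1623151841481064447) (.q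 (.ofNat 6) (.ofNat 2) 1) (.ss (.negSucc 1594696480554221567) (.ss (.negSucc 1606061032738914303) (.ss (.negSucc 1613514622063607807) (.ss (.negSucc 1618865945155993599) (.q (.ofNat 36) (.ofNat 10) 1) (.ss (.negSucc 1617786224737517567) (.su (.ofNat 1916305006068236288) (.su (.ofNat 1916004564515946496) (.su (.ofNat 1915707833815400448) (.q (.negSucc 5419) (.ofNat 1449) 2) (.su (.ofNat 1915856199165673472) (.su (.ofNat 1915782016490536960) (.su (.ofNat 1915744925152968704) (.q (.ofNat 8035) (.negSucc 2146) 0) (.q (.negSucc 1943) (.ofNat 520) 1)) (.q (.negSucc 1943) (.ofNat 520) 1)) (.q (.negSucc 1943) (.ofNat 520) 1))) (.su (.ofNat 1916154785292091392) (.q (.negSucc 1943) (.ofNat 520) 1) (.q (.ofNat 1532) (.negSucc 408) 2))) (.su (.ofNat 1916542912896696320) (.q (.ofNat 1532) (.negSucc 408) 2) (.v false 2 (.ofNat 37) (.negSucc 8)))) (.ss (.negSucc 1615650423400562687) (.ss (.negSucc 1616718324069040127) (.ss (.negSucc 1617252274403278847)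 (.ss (.negSucc 1617519249570398207) (.ss (.negSucc 1617652737153957887) (.ss (.negSucc 1617719480945737727) (.q (.ofNat 5424) (.ofNat 1450) 1) (.q (.negSucc 180) (.negSucc 47) 0)) (.q (.negSucc 180) (.negSucc 47) 0)) (.q (.negSucc 180) (.negSucc 47) 0)) (.q (.negSucc 180) (.negSucc 47) 0)) (.q (.negSucc 180) (.negSucc 47) 0)) (.q (.negSucc 180) (.negSucc 47) 0)))) (.ss (.negSucc 1609787827401261055) (.ss (.negSucc 1611651224732434431) (.q (.negSucc 180) (.negSucc 47) 0) (.q (.negSucc 64) (.negSucc 16) 0)) (.q (.negSucc 64) (.negSucc 16) 0))) (.ss (.negSucc 1600378756646567935) (.q (.negSucc 64) (.negSucc 16) 0) (.q (.ofNat 51) (.ofNat 14) 0))) (.ss (.negSucc 1582311581578952703) (.ss (.negSucc 1588504031066587135) (.q (.ofNat 51) (.ofNat 14) 0) (.v true 1 (.ofNat 1) (.ofNat 1))) (.q (.negSucc 0) (.ofNat 0) 0)))))))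
def tcDp8 : Tr := (.su (.ofNat 2001814849994096640) (.su (.ofNat 1935949705443803136) (.su (.ofNat 1864068033266319360) (.su (.ofNat 1812382190667825152) (.q (.ofNat 9) (.negSucc 1) 0) (.su (.ofNat 1840340572338913280) (.q (.ofNat 39) (.negSucc 9) 0) (.ss (.negSucc 1705791135424708607) (.ss (.negSucc 1812320618016669695) (.ss (.negSucc 1840342771362168831) (.q (.ofNat 2) (.ofNat 1) 4) (.ss (.negSucc 1826332794201047039) (.ss (.negSucc 1833337782781607935) (.q (.ofNat 2) (.ofNat 1) 4) (.q (.negSucc 38) (.negSucc 9) 0)) (.q (.negSucc 38) (.negSucc 9) 0))) (.ss (.negSucc 1759060274767200255) (.ss (.negSucc 1785690446391934975) (.ss (.negSucc 1799005532204302335) (.ss (.negSucc 1805663075110486015) (.ss (.negSucc 1808991846563577855) (.q (.ofNat 77) (.ofNat 21) 0) (.q (.negSucc 8) (.negSucc 1) 0)) (.q (.negSucc 8) (.negSucc 1) 0)) (.q (.negSucc 8) (.negSucc 1) 0)) (.q (.ofNat 6) (.ofNat 2) 1)) (.q (.ofNat 6) (.ofNat 2) 1))) (.ss (.negSucc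 1623626830504263679) (.q (.ofNat 6) (.ofNat 2) 1) tcDp6)))) (.su (.ofNat 1900008869355061248) (.su (.ofNat 1882038451310690304) (.su (.ofNat 1873053242288504832) (.q (.ofNat 54) (.negSucc 13) 1) (.v false 1 (.ofNat 7) (.negSucc 0))) (.q (.negSucc 46) (.ofNat 13) 0)) (.su (.ofNat 1916780819725156352) tcDp7 (.su (.ofNat 1926364163072851968) (.su (.ofNat 1921572491399004160) (.su (.ofNat 1919176655562080256) (.su (.ofNat 1917978737643618304) (.su (.ofNat 1917379778684387328) (.su (.ofNat 1916781644358877184) (.v false 2 (.ofNat 37) (.negSucc 8)) (.su (.ofNat 1917080711521632256) (.v false 2 (.ofNat 37) (.negSucc 8)) (.q (.negSucc 31) (.ofNat 9) 2))) (.q (.negSucc 31) (.ofNat 9) 2)) (.q (.negSucc 31) (.ofNat 9) 2)) (.q (.negSucc 31) (.ofNat 9) 2)) (.q (.negSucc 31) (.ofNat 9) 2)) (.q (.negSucc 31) (.ofNat 9) 2))))) (.su (.ofNat 1968882277718949888) (.su (.ofNat 1952415991581376512) (.su (.ofNat 1944182848512589824) (.q (.negSucc 31) (.ofNat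 9) 2) (.q (.negSucc 16) (.ofNat 5) 0)) (.q (.negSucc 16) (.ofNat 5) 0)) (.q (.negSucc 16) (.ofNat 5) 0))) (.su (.ofNat 2018333912689803264) (.su (.ofNat 2010074381341949952) (.su (.ofNat 2005944615668023296) (.su (.ofNat 2001819522918514688) (.q (.negSucc 16) (.ofNat 5) 0) (.su (.ofNat 2003881931854315520) (.su (.ofNat 2002850727386415104) (.q (.negSucc 16) (.ofNat 5) 0) (.q (.ofNat 13) (.negSucc 2) 0)) (.q (.ofNat 13) (.negSucc 2) 0))) (.q (.ofNat 13) (.negSucc 2) 0)) (.q (.ofNat 13) (.negSucc 2) 0)) (.q (.ofNat 13) (.negSucc 2) 0)))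
def tcDp9 : Tr := (.su (.ofNat 1821107914945855488) (.ss (.negSucc 1821530127410921471) .o (.su (.ofNat 1599798214507102208) (.q (.ofNat 1) (.ofNat 0) 0) (.ss (.negSucc 1695728405007302655) (.ss (.negSucc 1812452559412002815) (.q (.negSucc 38) (.negSucc 9) 0) (.ss (.negSucc 1754090482209652735) (.ss (.negSucc 1783271520810827775) (.ss (.negSucc 1797862040111415295) (.ss (.negSucc 1805157299761709055) (.ss (.negSucc 1808804929586855935) (.q (.ofNat 77) (.ofNat 21) 0) (.q (.negSucc 8) (.negSucc 1) 0)) (.q (.negSucc 8) (.negSucc 1) 0)) (.q (.negSucc 8) (.negSucc 1) 0)) (.q (.ofNat 6) (.ofNat 2) 1)) (.q (.ofNat 6) (.ofNat 2) 1))) (.ss (.negSucc 1625122166318039039) (.q (.ofNat 6) (.ofNat 2) 1) (.ss (.negSucc 1599868583251279871) (.ss (.negSucc 1613522318645002239) (.ss (.negSucc 1618920920737382399) (.q (.ofNat 36) (.ofNat 10) 1) (.ss (.negSucc 1617787324249145343) (.su (.ofNat 1699493132820807680) (.q (.negSucc 0) (.ofNat 0) 0) (.su (.ofNat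 1813068285923557376) (.q (.ofNat 9) (.negSucc 1) 0) (.q (.ofNat 39) (.negSucc 9) 0))) (.ss (.negSucc 1615654821447073791) (.ss (.negSucc 1616721072848109567) (.ss (.negSucc 1617254198548627455) (.ss (.negSucc 1617520761398886399) (.ss (.negSucc 1617786963471892479) (.q (.ofNat 5424) (.ofNat 1450) 1) (.ss (.negSucc 1617653871025324031) (.ss (.negSucc 1617720417248608255) (.q (.ofNat 5424) (.ofNat 1450) 1) (.q (.negSucc 180) (.negSucc 47) 0)) (.q (.negSucc 180) (.negSucc 47) 0))) (.q (.negSucc 180) (.negSucc 47) 0)) (.q (.negSucc 180) (.negSucc 47) 0)) (.q (.negSucc 180) (.negSucc 47) 0)) (.q (.negSucc 180) (.negSucc 47) 0)))) (.ss (.negSucc 1606695450948141055) (.ss (.negSucc 1610108884796571647) (.ss (.negSucc 1611815601720786943) (.q (.negSucc 180) (.negSucc 47) 0) (.q (.negSucc 64) (.negSucc 16) 0)) (.q (.negSucc 64) (.negSucc 16) 0)) (.q (.negSucc 64) (.negSucc 16) 0))) (.su (.ofNat 1710453064726478848) (.q (.negSucc 0) (.ofNat 0)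 0) (.ss (.negSucc 1584897632927481855) (.q (.ofNat 51) (.ofNat 14) 0) (.q (.negSucc 0) (.ofNat 0) 0)))))))) (.su (.ofNat 1927980445165682688) (.su (.ofNat 1874544180055769088) (.su (.ofNat 1847826047500812288) (.su (.ofNat 1821134303224922112) (.q (.ofNat 39) (.negSucc 9) 0) (.su (.ofNat 1834480175362867200) (.q (.ofNat 39) (.negSucc 9) 0) (.q (.negSucc 1) (.ofNat 1) 3))) (.q (.negSucc 1) (.ofNat 1) 3)) (.q (.negSucc 1) (.ofNat 1) 3)) (.q (.negSucc 1) (.ofNat 1) 3)))
def tcDp10 : Tr := (.sw (.su (.ofNat 1798519548064825344) (.su (.ofNat 1685137909008564224) (.su (.ofNat 1625298088178483200) (.su (.ofNat 1566219129394823168) .o (.su (.ofNat 1595756409763397632) (.su (.ofNat 1580987769579110400) (.q (.ofNat 1) (.ofNat 0) 0) (.su (.ofNat 1594692082507710464) (.v false 1 (.negSucc 0) (.ofNat 1)) (.q (.negSucc 50) (.ofNat 14) 0))) (.ss (.negSucc 1797464016902160383) .o (.ss (.negSucc 1684187930962165759) .o (.su (.ofNat 1621434404318478336)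 (.q (.ofNat 1) (.ofNat 0) 0) (.q (.negSucc 35) (.ofNat 10) 1)))))) (.su (.ofNat 1655217998593523712) (.su (.ofNat 1640258043386003456) (.q (.negSucc 35) (.ofNat 10) 1) (.q (.negSucc 5) (.ofNat 2) 1)) (.q (.negSucc 5) (.ofNat 2) 1))) (.su (.ofNat 1741828728536694784) (.q (.negSucc 5) (.ofNat 2) 1) (.q (.ofNat 9) (.negSucc 1) 0))) (.su (.ofNat 1916686261725167616) (.su (.ofNat 1857602904894996480) (.su (.ofNat 1828061226479910912) (.su (.ofNat 1813290387272368128) (.ss (.negSucc 1752955786209787903) (.q (.negSucc 1) (.ofNat 1) 2) (.su (.ofNat 1805904967668596736) (.q (.ofNat 9) (.negSucc 1) 0) (.q (.negSucc 1) (.ofNat 1) 2))) (.q (.negSucc 1) (.ofNat 1) 2)) (.q (.negSucc 1) (.ofNat 1) 2)) (.q (.negSucc 1) (.ofNat 1) 2)) (.q (.negSucc 1) (.ofNat 1) 2))) (.sw (.sw (.su (.ofNat 1841303744524845056) tcDp5 (.su (.ofNat 1938078359955177472) (.su (.ofNat 1889691052240011264) (.su (.ofNat 1865497398382428160) (.su (.ofNat 1853400571453636608)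 (.su (.ofNat 1847352157989240832) (.ss (.negSucc 1752955786209787903) (.q (.negSucc 1) (.ofNat 1) 4) (.su (.ofNat 1844327951257042944) (.q (.negSucc 177) (.ofNat 48) 1) (.q (.negSucc 1) (.ofNat 1) 4))) (.q (.negSucc 1) (.ofNat 1) 4)) (.q (.negSucc 1) (.ofNat 1) 4)) (.q (.negSucc 1) (.ofNat 1) 4)) (.q (.negSucc 1) (.ofNat 1) 4)) (.q (.negSucc 1) (.ofNat 1) 4))) (.ss (.negSucc 1841655588245733375) (.q (.ofNat 2) (.ofNat 1) 4) (.su (.ofNat 1797112173181272064) (.su (.ofNat 1684838841845809152) (.su (.ofNat 1625298088178483200) (.su (.ofNat 1596798746786529280) (.q (.ofNat 1) (.ofNat 0) 0) (.su (.ofNat 1613517920598491136) (.q (.ofNat 65) (.negSucc 16) 0) (.su (.ofNat 1618924219272265728) (.su (.ofNat 1617786774493331456) (.q (.ofNat 181) (.negSucc 47) 0) (.ss (.negSucc 1699493132820807679) .o (.ss (.negSucc 1634709907712245759) .o (.q (.ofNat 1) (.ofNat 0) 0)))) (.su (.ofNat 1622111153725374464) (.su (.ofNat 1620517686498820096) (.su (.ofNat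 1619720952885542912) (.su (.ofNat 1619322586078904320) (.v false 2 (.ofNat 29) (.negSucc 6)) (.q (.negSucc 35) (.ofNat 10) 1)) (.q (.negSucc 35) (.ofNat 10) 1)) (.q (.negSucc 35) (.ofNat 10) 1)) (.q (.negSucc 35) (.ofNat 10) 1))))) (.su (.ofNat 1655068465012146176) (.su (.ofNat 1640183276595314688) (.q (.negSucc 35) (.ofNat 10) 1) (.q (.negSucc 5) (.ofNat 2) 1)) (.q (.negSucc 5) (.ofNat 2) 1))) (.su (.ofNat 1740975507513540608) (.q (.negSucc 5) (.ofNat 2) 1) (.q (.ofNat 9) (.negSucc 1) 0))) tcDp8))) tcDp9))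
def tcDp11 : Tr := (.sw (.ss (.negSucc 1773855303230554111) (.q (.ofNat 2) (.ofNat 1) 1) (.ss (.negSucc 598697275463565311) (.ss (.negSucc 1186276289347059711) (.ss (.negSucc 1494983970054471679) tcDp4 (.ss (.negSucc 1340630129700765695) (.ss (.negSucc 1417807049877618687) (.q (.negSucc 4) (.negSucc 0) 0) (.q (.negSucc 0) (.ofNat 0) 0)) (.q (.negSucc 0) (.ofNat 0) 0))) (.ss (.negSucc 810929407903399935) (.q (.negSucc 0) (.ofNat 0) 0) (.ss (.negSucc 641147220388741119) (.q (.ofNat 3) (.ofNat 1) 0) (.q (.ofNat 7) (.ofNat 2) 0)))) (.su (.ofNat 1911778041818775552) (.q (.ofNat 1) (.ofNat 0) 0) .o))) (.ss (.negSucc 790381734603522047) (.ss (.negSucc 1069041961547071487) (.ss (.negSucc 1494983970054471679) (.ss (.negSucc 2070600297427763199) (.q (.negSucc 1) (.ofNat 0) 1) (.su (.ofNat 2146246697418752000) (.su (.ofNat 2034852975385509888) (.ss (.negSucc 1569926682603683839) (.ss (.negSucc 2002131509342896127) (.q (.negSucc 12) (.negSucc 2)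 0) (.ss (.negSucc 1935984889815891967) (.q (.ofNat 17) (.ofNat 5) 0) tcDp10)) (.ss (.negSucc 1532455326329077759) (.su (.ofNat 1797112173181272064) (.q (.negSucc 0) (.ofNat 0) 0) (.ss (.negSucc 1551191004466380799) (.su (.ofNat 1915982574283390976) (.q (.negSucc 0) (.ofNat 0) 0) (.ss (.negSucc 1569900294324617215) (.q (.negSucc 1396) (.negSucc 372) 0) (.ss (.negSucc 1560545649395499007) (.su (.ofNat 1975417774834450432) (.q (.negSucc 0) (.ofNat 0) 0) (.ss (.negSucc 1565222971860058111) (.su (.ofNat 2005135375109980160) (.q (.negSucc 0) (.ofNat 0) 0) (.q (.ofNat 2) (.ofNat 0) 1)) (.q (.negSucc 0) (.ofNat 0) 0))) (.q (.negSucc 0) (.ofNat 0) 0)))) (.q (.negSucc 0) (.ofNat 0) 0))) (.q (.negSucc 0) (.ofNat 0) 0))) (.su (.ofNat 2090549836402130944) (.q (.ofNat 13) (.negSucc 2) 0) (.q (.ofNat 2) (.ofNat 0) 1))) (.su (.ofNat 2576762674297700352) (.q (.ofNat 2) (.ofNat 0) 1) (.ss (.negSucc 2007057321435332607) .o (.ss (.negSucc 1751020645744902143)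 .o (.v false 0 (.ofNat 1) (.ofNat 1))))))) (.ss (.negSucc 1282012965800771583) (.ss (.negSucc 1388498467927621631) (.q (.negSucc 4) (.negSucc 0) 0) (.q (.negSucc 0) (.ofNat 0) 0)) (.q (.negSucc 0) (.ofNat 0) 0))) (.ss (.negSucc 929711848075296767) (.q (.negSucc 0) (.ofNat 0) 0) (.q (.ofNat 3) (.ofNat 1) 0))) (.su (.ofNat 1836905698013741056) (.q (.ofNat 1) (.ofNat 0) 0) (.ss (.negSucc 222787444066484223) (.ss (.negSucc 433823307855298559) (.ss (.negSucc 631137266529468415) (.q (.ofNat 3) (.ofNat 1) 0) .o) .o) .o))))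
def tcDp12 : Tr := (.su (.ofNat 1617263544397463552) (.su (.ofNat 1617054224871325696) (.q (.negSucc 2396) (.ofNat 641) 1) (.ss (.negSucc 1245361845200486399) (.q (.ofNat 186) (.ofNat 50) 0) (.sw (.q (.negSucc 0) (.ofNat 0) 2) (.ss (.negSucc 1244587789014532095) (.sw (.ss (.negSucc 1244911045433098239) (.sw (.q (.negSucc 0) (.ofNat 0) 4) (.ss (.negSucc 1245208051011551231) (.sw (.ss (.negSucc 1245359732076576767) (.sw (.q (.negSucc 0) (.ofNat 0) 6) (.q (.ofNat 1079) (.negSucc 287) 6)) (.ss (.negSucc 1245283900133998591) (.ss (.negSucc 1245321816105287679) (.sw (.q (.negSucc 0) (.ofNat 0) 6) (.q (.ofNat 1079) (.negSucc 287) 6)) (.q (.negSucc 5418) (.negSucc 1447) 2)) (.q (.negSucc 5418) (.negSucc 1447) 2))) (.q (.negSucc 0) (.ofNat 0) 5)) (.ss (.negSucc 1245059548222324735) (.sw (.ss (.negSucc 1245133799616937983) (.ss (.negSucc 1245170925314244607) (.q (.ofNat 8036) (.ofNat 2148) 0) (.q (.negSucc 1942) (.negSucc 518) 1)) (.q (.negSucc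 1942) (.negSucc 518) 1)) (.q (.negSucc 0) (.ofNat 0) 5)) (.q (.negSucc 1942) (.negSucc 518) 1)))) (.sw (.q (.negSucc 0) (.ofNat 0) 4) (.ss (.negSucc 1244749417223815167) (.q (.negSucc 1942) (.negSucc 518) 1) (.q (.ofNat 1533) (.ofNat 410) 2)))) (.q (.negSucc 0) (.ofNat 0) 3)) (.ss (.negSucc 1235803790620229631) (.ss (.negSucc 1240195789817380863) (.ss (.negSucc 1242391789415956479) (.ss (.negSucc 1243489789215244287) (.sw (.ss (.negSucc 1244586552063950847) (.q (.ofNat 1533) (.ofNat 410) 2) (.ss (.negSucc 1244038170639597567) (.v true 2 (.ofNat 39) (.ofNat 11)) (.q (.negSucc 30) (.negSucc 7) 2))) (.q (.negSucc 0) (.ofNat 0) 3)) (.q (.negSucc 30) (.negSucc 7) 2)) (.q (.negSucc 30) (.negSucc 7) 2)) (.q (.negSucc 30) (.negSucc 7) 2)) (.q (.negSucc 30) (.negSucc 7) 2)))))) (.su (.ofNat 1617929436127035392) (.su (.ofNat 1617596490262249472) (.su (.ofNat 1617430017329856512) (.su (.ofNat 1617346780863660032) (.su (.ofNat 1617263647476678656)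 (.sw (.q (.negSucc 0) (.ofNat 0) 2) (.q (.ofNat 27989) (.negSucc 7479) 2)) (.su (.ofNat 1617305214170169344) (.sw (.q (.negSucc 0) (.ofNat 0) 2) (.su (.ofNat 1617284430823424000) (.su (.ofNat 1617274039150051328) (.sw (.su (.ofNat 1617268843313364992) (.q (.ofNat 27989) (.negSucc 7479) 2) (.q (.negSucc 35) (.ofNat 10) 0)) (.q (.negSucc 0) (.ofNat 0) 3)) (.q (.negSucc 35) (.ofNat 10) 0)) (.q (.negSucc 35) (.ofNat 10) 0))) (.q (.negSucc 35) (.ofNat 10) 0))) (.q (.negSucc 5) (.ofNat 2) 0)) (.q (.negSucc 5) (.ofNat 2) 0)) (.q (.negSucc 5) (.ofNat 2) 0)) (.q (.negSucc 5) (.ofNat 2) 0)))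
def tcDp13 : Tr := (.ss (.negSucc 1296851974729236479) (.ss (.negSucc 1306248401100210175) (.ss (.negSucc 1320898294028697599) (.q (.ofNat 40) (.ofNat 11) 0) (.su (.ofNat 1605500281808748544) (.su (.ofNat 1596737174135373824) (.su (.ofNat 1594692907141431296) (.v false 1 (.negSucc 0) (.ofNat 1)) (.q (.ofNat 398) (.negSucc 105) 0)) (.su (.ofNat 1601118727972061184) (.su (.ofNat 1598927951053717504) (.su (.ofNat 1597832562594545664) (.su (.ofNat 1597284868364959744) (.q (.ofNat 398) (.negSucc 105) 0) (.q (.ofNat 65) (.negSucc 16) 1)) (.q (.ofNat 65) (.negSucc 16) 1)) (.q (.ofNat 65) (.negSucc 16) 1)) (.q (.ofNat 65) (.negSucc 16) 1))) (.su (.ofNat 1612589932784648192) (.q (.ofNat 65) (.negSucc 16) 1) (.su (.ofNat 1615469553737793536) (.q (.negSucc 267) (.ofNat 72) 0) (.su (.ofNat 1616793915493449728) (.q (.ofNat 630) (.negSucc 167) 0) (.su (.ofNat 1617694690394505216) (.su (.ofNat 1617244302943977472) (.su (.ofNat 1617019109218713600)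 (.q (.negSucc 2396) (.ofNat 641) 1) (.q (.negSucc 5) (.ofNat 2) 0)) (.q (.negSucc 5) (.ofNat 2) 0)) (.q (.negSucc 5) (.ofNat 2) 0))))))) (.ss (.negSucc 1301550187914723327) (.ss (.negSucc 1303899294507466751) (.ss (.negSucc 1305073847803838463) (.q (.ofNat 388) (.ofNat 104) 0) (.q (.ofNat 55) (.ofNat 15) 1)) (.q (.ofNat 55) (.ofNat 15) 1)) (.q (.ofNat 55) (.ofNat 15) 1))) (.ss (.negSucc 1261935883477581823) (.ss (.negSucc 1279393929103409151) (.ss (.negSucc 1288122951916322815) (.q (.ofNat 55) (.ofNat 15) 1) (.v true 1 (.ofNat 9) (.ofNat 3))) (.q (.negSucc 45) (.negSucc 11) 0)) (.ss (.negSucc 1250151317851078655) (.q (.ofNat 70) (.ofNat 19) 0) (.su (.ofNat 1605500281808748544) (.su (.ofNat 1596733875600490496) (.su (.ofNat 1594692907141431296) (.v false 1 (.negSucc 0) (.ofNat 1)) (.q (.ofNat 398) (.negSucc 105) 0)) (.su (.ofNat 1601117078704619520) (.su (.ofNat 1598925477152555008) (.su (.ofNat 1597829676376522752) (.su (.ofNat 1597281775988506624)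 (.q (.ofNat 398) (.negSucc 105) 0) (.q (.ofNat 65) (.negSucc 16) 1)) (.q (.ofNat 65) (.negSucc 16) 1)) (.q (.ofNat 65) (.negSucc 16) 1)) (.q (.ofNat 65) (.negSucc 16) 1))) (.su (.ofNat 1612594330831159296) (.q (.ofNat 65) (.negSucc 16) 1) (.su (.ofNat 1615469003981979648) (.q (.negSucc 267) (.ofNat 72) 0) (.su (.ofNat 1616802711586471936) (.q (.ofNat 630) (.negSucc 167) 0) tcDp12)))))))
def tcDp14 : Tr := (.ss (.negSucc 1050675719316701183) (.ss (.negSucc 1155780234839064575) (.q (.negSucc 15) (.negSucc 3) 0) (.ss (.negSucc 1072657155779198975) (.q (.ofNat 14) (.ofNat 4) 0) (.ss (.negSucc 1055421211502182399) (.su (.ofNat 1605500281808748544) (.su (.ofNat 1596723979995840512) (.su (.ofNat 1594692907141431296) (.v false 1 (.negSucc 0) (.ofNat 1)) (.q (.ofNat 398) (.negSucc 105) 0)) (.su (.ofNat 1601112130902294528) (.su (.ofNat 1598918055449067520) (.su (.ofNat 1597821017722454016) (.su (.ofNat 1597272498859147264) (.q (.ofNat 398) (.negSucc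 105) 0) (.q (.ofNat 65) (.negSucc 16) 1)) (.q (.ofNat 65) (.negSucc 16) 1)) (.q (.ofNat 65) (.negSucc 16) 1)) (.q (.ofNat 65) (.negSucc 16) 1))) (.su (.ofNat 1612603126924181504) (.q (.ofNat 65) (.negSucc 16) 1) (.su (.ofNat 1615468454226165760) (.q (.negSucc 267) (.ofNat 72) 0) (.su (.ofNat 1616802711586471936) (.q (.ofNat 630) (.negSucc 167) 0) (.su (.ofNat 1617296254868389888) (.su (.ofNat 1617054224871325696) (.q (.negSucc 2396) (.ofNat 641) 1) (.ss (.negSucc 1060442681106235391) (.sw (.q (.negSucc 0) (.ofNat 0) 2) (.q (.ofNat 1) (.ofNat 0) 2)) (.ss (.negSucc 1057931946304208895) (.sw (.q (.negSucc 0) (.ofNat 0) 2) (.q (.ofNat 1) (.ofNat 0) 2)) (.q (.negSucc 187) (.negSucc 49) 0)))) (.su (.ofNat 1617945791362498560) (.su (.ofNat 1617621023115444224) (.su (.ofNat 1617458638991917056) (.su (.ofNat 1617377446930153472) (.su (.ofNat 1617296357947604992) (.q (.ofNat 41444) (.negSucc 11075) 0) (.su (.ofNat 1617336902438879232) (.sw (.q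 (.negSucc 0) (.ofNat 0) 2) (.q (.ofNat 1) (.ofNat 0) 2)) (.q (.negSucc 35) (.ofNat 10) 0))) (.q (.negSucc 35) (.ofNat 10) 0)) (.q (.negSucc 35) (.ofNat 10) 0)) (.q (.negSucc 35) (.ofNat 10) 0)) (.q (.negSucc 35) (.ofNat 10) 0))))))) (.ss (.negSucc 1053048465409441791) (.ss (.negSucc 1054234838455812095) (.q (.ofNat 710) (.ofNat 190) 0) (.q (.negSucc 71) (.negSucc 18) 0)) (.q (.negSucc 71) (.negSucc 18) 0))))) (.ss (.negSucc 1038150082853076991) (.ss (.negSucc 1044412901084889087) (.q (.negSucc 71) (.negSucc 18) 0) (.q (.ofNat 3) (.ofNat 1) 1)) (.q (.ofNat 3) (.ofNat 1) 1)))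
def tcDp15 : Tr := (.ss (.negSucc 1323424971749326847) (.ss (.negSucc 1472290050057175039) (.ss (.negSucc 1552158574698823679) (.ss (.negSucc 1594696480554221567) (.ss (.negSucc 1614881315016933375) (.q (.ofNat 6) (.ofNat 2) 0) (.ss (.negSucc 1611169363761561599) (.q (.ofNat 268) (.ofNat 72) 0) (.ss (.negSucc 1596754766321418239) (.q (.negSucc 64) (.negSucc 16) 1) (.q (.negSucc 397) (.negSucc 105) 0)))) (.ss (.negSucc 1573427527626522623) (.ss (.negSucc 1584062004090372095) (.ss (.negSucc 1589379242322296831) (.ss (.negSucc 1592037861438259199) (.ss (.negSucc 1594693182019338239) (.q (.negSucc 397) (.negSucc 105) 0) (.ss (.negSucc 1593365521728798719) (.ss (.negSucc 1594029351874068479) (.ss (.negSucc 1594361266946703359) (.ss (.negSucc 1594527224483020799) (.ss (.negSucc 1594610203251179519) (.q (.negSucc 397) (.negSucc 105) 0) (.v true 1 (.ofNat 1) (.ofNat 1))) (.q (.ofNat 500) (.ofNat 134) 0)) (.q (.ofNat 500) (.ofNat 134) 0)) (.q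 (.ofNat 500) (.ofNat 134) 0)) (.v true 1 (.ofNat 1) (.ofNat 1)))) (.v true 1 (.ofNat 1) (.ofNat 1))) (.v true 1 (.ofNat 1) (.ofNat 1))) (.v true 1 (.ofNat 1) (.ofNat 1))) (.ss (.negSucc 1554667660233408511) (.q (.negSucc 49) (.negSucc 12) 0) (.q (.ofNat 66) (.ofNat 18) 0)))) (.ss (.negSucc 1512224312377999359) (.ss (.negSucc 1532191443538411519) (.ss (.negSucc 1542175009118617599) (.ss (.negSucc 1552143181536034815) (.q (.ofNat 66) (.ofNat 18) 0) (.ss (.negSucc 1547159095327326207) (.ss (.negSucc 1549651138431680511) (.q (.ofNat 66) (.ofNat 18) 0) (.q (.negSucc 4) (.negSucc 0) 1)) (.q (.negSucc 4) (.negSucc 0) 1))) (.q (.negSucc 4) (.negSucc 0) 1)) (.q (.negSucc 4) (.negSucc 0) 1)) (.q (.negSucc 4) (.negSucc 0) 1))) (.ss (.negSucc 1349408630536929279) (.q (.negSucc 4) (.negSucc 0) 1) (.q (.ofNat 40) (.ofNat 11) 0))) (.ss (.negSucc 1174524709069389823) (.ss (.negSucc 1227019792225927167) tcDp13 (.ss (.negSucc 1200772250647658495) (.ss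 (.negSucc 1213896021436792831) (.ss (.negSucc 1220457906831359999) (.ss (.negSucc 1227011545888718847) (.q (.ofNat 4343) (.ofNat 1161) 1) (.ss (.negSucc 1223735001237946367) (.ss (.negSucc 1225373273563332607) (.ss (.negSucc 1226192409726025727) (.ss (.negSucc 1226601977807372287) (.ss (.negSucc 1226806761848045567) (.ss (.negSucc 1226909153868382207) (.q (.ofNat 4343) (.ofNat 1161) 1) (.q (.negSucc 15) (.negSucc 3) 0)) (.q (.negSucc 15) (.negSucc 3) 0)) (.q (.negSucc 15) (.negSucc 3) 0)) (.q (.negSucc 15) (.negSucc 3) 0)) (.q (.negSucc 15) (.negSucc 3) 0)) (.q (.negSucc 15) (.negSucc 3) 0))) (.q (.negSucc 15) (.negSucc 3) 0)) (.q (.negSucc 15) (.negSucc 3) 0)) (.q (.negSucc 15) (.negSucc 3) 0))) tcDp14))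
def tcDp16 : Tr := (.ss (.negSucc 1607138554134134783) (.ss (.negSucc 1608302936947949567) (.ss (.negSucc 1608885128354856959) (.ss (.negSucc 1609176224058310655) (.q (.ofNat 1615) (.ofNat 432) 1) (.v true 2 (.ofNat 203) (.ofNat 55))) (.q (.negSucc 1411) (.negSucc 376) 0)) (.ss (.negSucc 1607905051177648127) (.q (.ofNat 2064) (.ofNat 552) 0) (.ss (.negSucc 1607748576929120255) (.q (.ofNat 5540) (.ofNat 1481) 0) (.su (.ofNat 1608516791959552000) (.sw (.q (.negSucc 64) (.negSucc 16) 2) (.q (.ofNat 65) (.negSucc 16) 2)) (.su (.ofNat 1609842528104742912) (.sw (.q (.negSucc 64) (.negSucc 16) 2) (.q (.ofNat 65) (.negSucc 16) 2)) (.sw (.q (.negSucc 64) (.negSucc 16) 2) (.q (.ofNat 65) (.negSucc 16) 2))))))) (.su (.ofNat 1608516791959552000) (.su (.ofNat 1606662190721400832) (.su (.ofNat 1604826556058828800) (.q (.negSucc 383) (.ofNat 103) 0) (.su (.ofNat 1605744373390114816) (.su (.ofNat 1605285464724471808) (.sw (.q (.negSucc 64) (.negSucc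 16) 2) (.q (.ofNat 65) (.negSucc 16) 2)) (.q (.ofNat 514) (.negSucc 136) 0)) (.q (.ofNat 514) (.negSucc 136) 0))) (.su (.ofNat 1608107636195065856) (.su (.ofNat 1607069697218445312) (.q (.ofNat 514) (.negSucc 136) 0) (.su (.ofNat 1607904913738694656) (.su (.ofNat 1607748508209643520) (.ss (.negSucc 1605974171320319999) (.sw (.q (.negSucc 64) (.negSucc 16) 2) (.q (.ofNat 65) (.negSucc 16) 2)) (.sw (.q (.negSucc 64) (.negSucc 16) 2) (.q (.ofNat 65) (.negSucc 16) 2))) (.sw (.q (.negSucc 64) (.negSucc 16) 2) (.q (.ofNat 65) (.negSucc 16) 2))) (.sw (.q (.negSucc 64) (.negSucc 16) 2) (.q (.ofNat 65) (.negSucc 16) 2)))) (.sw (.q (.negSucc 64) (.negSucc 16) 2) (.q (.ofNat 65) (.negSucc 16) 2)))) (.su (.ofNat 1609842528104742912) (.su (.ofNat 1609179660032147456) (.su (.ofNat 1608848225995849728) (.q (.ofNat 1412) (.negSucc 376) 0) (.v false 2 (.negSucc 202) (.ofNat 55))) (.su (.ofNat 1609786521731203072) (.q (.negSucc 1614) (.ofNat 432) 1) (.sw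 (.q (.negSucc 64) (.negSucc 16) 2) (.q (.ofNat 65) (.negSucc 16) 2)))) (.su (.ofNat 1610257593744228352) (.sw (.q (.negSucc 64) (.negSucc 16) 2) (.q (.ofNat 65) (.negSucc 16) 2)) (.su (.ofNat 1610712928997081088) (.sw (.q (.negSucc 64) (.negSucc 16) 2) (.q (.ofNat 65) (.negSucc 16) 2)) (.q (.negSucc 1165) (.ofNat 312) 0))))))
def tcDp17 : Tr := (.su (.ofNat 1615015455435522048) (.ss (.negSucc 1594696480554221567) (.su (.ofNat 1594692082507710464) .o (.su (.ofNat 1604807589483249664) (.q (.negSucc 50) (.ofNat 14) 1) (.ss (.negSucc 1604809788506505215) (.ss (.negSucc 1614795553109966847) (.q (.ofNat 6) (.ofNat 2) 0) (.su (.ofNat 1611168264249933824) (.ss (.negSucc 1611169363761561599) .o (.ss (.negSucc 1609467319761764351) (.ss (.negSucc 1610257731183181823) (.q (.ofNat 1166) (.ofNat 312) 0) (.ss (.negSucc 1609786590450679807) (.su (.ofNat 1608516791959552000) .o (.su (.ofNat 1609842528104742912) (.sw (.q (.negSucc 64) (.negSucc 16) 2)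 (.q (.ofNat 65) (.negSucc 16) 2)) (.sw (.q (.negSucc 64) (.negSucc 16) 2) (.q (.ofNat 65) (.negSucc 16) 2)))) (.ss (.negSucc 1609626955106222079) (.sw (.q (.negSucc 64) (.negSucc 16) 2) (.q (.ofNat 65) (.negSucc 16) 2)) (.q (.ofNat 1615) (.ofNat 432) 1)))) tcDp16)) (.su (.ofNat 1613091859842727936) (.su (.ofNat 1612130062046330880) (.su (.ofNat 1611649163148132352) (.su (.ofNat 1611168814005747712) (.q (.negSucc 1165) (.ofNat 312) 0) (.su (.ofNat 1611408988576940032) (.su (.ofNat 1611288901291343872) (.q (.ofNat 2310) (.negSucc 616) 0) (.q (.negSucc 267) (.ofNat 72) 0)) (.q (.negSucc 267) (.ofNat 72) 0))) (.q (.negSucc 267) (.ofNat 72) 0)) (.q (.ofNat 181) (.negSucc 47) 1)) (.q (.ofNat 181) (.negSucc 47) 1)))) (.ss (.negSucc 1599753134530363391) (.ss (.negSucc 1602281461518434303) (.q (.ofNat 384) (.ofNat 103) 0) (.q (.ofNat 51) (.ofNat 14) 1)) (.q (.ofNat 51) (.ofNat 14) 1))))) (.ss (.negSucc 1583507850229972991) (.ss (.negSucc 1589102165392097279)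 (.q (.ofNat 51) (.ofNat 14) 1) (.v true 1 (.ofNat 1) (.ofNat 1))) (.v true 1 (.ofNat 1) (.ofNat 1)))) (.su (.ofNat 1644825414687784960) (.su (.ofNat 1629920435061653504) (.su (.ofNat 1622467945248587776) (.su (.ofNat 1618741700342054912) (.su (.ofNat 1616878577888788480) (.q (.ofNat 181) (.negSucc 47) 1) (.q (.negSucc 5) (.ofNat 2) 0)) (.q (.negSucc 5) (.ofNat 2) 0)) (.q (.negSucc 5) (.ofNat 2) 0)) (.q (.negSucc 5) (.ofNat 2) 0)) (.q (.negSucc 5) (.ofNat 2) 0)))
def tcDp18 : Tr := (.sw (.ss (.negSucc 1025624446389452799) (.su (.ofNat 1030761364714422272) (.q (.negSucc 2) (.ofNat 1) 1) (.su (.ofNat 1352698369327235072) (.sw (.ss (.negSucc 1575133969672830975) .o (.ss (.negSucc 1300379208031141887) (.ss (.negSucc 1437756588851986431) .o (.q (.negSucc 0) (.ofNat 0) 2)) (.q (.negSucc 0) (.ofNat 0) 2))) (.q (.ofNat 1) (.ofNat 0) 2)) (.su (.ofNat 1552088205954646016) (.q (.ofNat 5) (.negSucc 0) 1) (.su (.ofNat 1618595465295560704) (.su (.ofNat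 1566219129394823168) (.su (.ofNat 1564954691022880768) (.q (.negSucc 65) (.ofNat 18) 0) (.q (.ofNat 50) (.negSucc 12) 0)) (.su (.ofNat 1592405098321936384) (.su (.ofNat 1579312113858379776) (.su (.ofNat 1572765621626601472) (.q (.ofNat 50) (.negSucc 12) 0) (.q (.ofNat 166) (.negSucc 43) 0)) (.v false 1 (.negSucc 0) (.ofNat 1))) tcDp15)) (.su (.ofNat 1646615419617804288) (.q (.negSucc 35) (.ofNat 10) 0) (.q (.negSucc 5) (.ofNat 2) 0)))))) (.ss (.negSucc 909691940356751359) (.ss (.negSucc 967658193373102079) (.ss (.negSucc 996641319881277439) (.ss (.negSucc 1011132883135365119) (.su (.ofNat 1247215621804916736) (.q (.ofNat 0) (.ofNat 0) 0) (.q (.ofNat 3) (.ofNat 1) 1)) (.q (.ofNat 3) (.ofNat 1) 1)) (.q (.ofNat 3) (.ofNat 1) 1)) (.q (.ofNat 3) (.ofNat 1) 1)) (.q (.ofNat 3) (.ofNat 1) 1))) (.ss (.negSucc 1572319219905724415) (.su (.ofNat 1580341256741978112) (.q (.ofNat 1) (.ofNat 0) 1) tcDp17) (.ss (.negSucc 1183039327114887167) (.ss (.negSucc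 1377679273510305791) (.ss (.negSucc 1474999246708015103) (.su (.ofNat 1247215621804916736) .o (.ss (.negSucc 1523659233306869759) (.su (.ofNat 1460925497872482304) .o (.ss (.negSucc 1547989226606297087) (.su (.ofNat 1674336306777292800) (.q (.negSucc 0) (.ofNat 0) 1) (.q (.negSucc 5) (.ofNat 2) 0)) (.q (.negSucc 0) (.ofNat 0) 1))) (.q (.negSucc 0) (.ofNat 0) 1))) (.q (.negSucc 0) (.ofNat 0) 1)) (.q (.negSucc 0) (.ofNat 0) 1)) (.q (.negSucc 0) (.ofNat 0) 1))))
def tcDp19 : Tr := (.ss (.negSucc 1621155128365023231) (.q (.ofNat 6) (.ofNat 2) 0) (.su (.ofNat 1674635373940047872) (.su (.ofNat 819866238413963264) (.q (.ofNat 0) (.ofNat 0) 0) (.ss (.negSucc 793759434324049919) tcDp18 (.su (.ofNat 1247215621804916736) (.q (.ofNat 0) (.ofNat 0) 0) (.su (.ofNat 1460925497872482304) (.q (.ofNat 0) (.ofNat 0) 0) (.ss (.negSucc 699465317125980159) (.su (.ofNat 1567780435906265088) (.q (.ofNat 0) (.ofNat 0) 0) (.ss (.negSucc 746612375725015039) (.su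 (.ofNat 1621207904923156480) (.q (.ofNat 0) (.ofNat 0) 0) (.q (.negSucc 5) (.ofNat 2) 0)) (.q (.ofNat 0) (.ofNat 0) 0))) (.q (.ofNat 0) (.ofNat 0) 0)))))) (.su (.ofNat 2203949067644436480) (.su (.ofNat 1786979074019688448) (.q (.negSucc 5) (.ofNat 2) 0) (.su (.ofNat 1995446478646018048) (.su (.ofNat 1891212776332853248) (.su (.ofNat 1839095925176270848) (.su (.ofNat 1813037499597979648) (.ss (.negSucc 1113163164146466815) (.q (.negSucc 1) (.ofNat 1) 0) (.su (.ofNat 1800008286808834048) (.q (.ofNat 24) (.negSucc 5) 0) (.q (.negSucc 1) (.ofNat 1) 0))) (.q (.negSucc 1) (.ofNat 1) 0)) (.q (.negSucc 1) (.ofNat 1) 0)) (.q (.negSucc 1) (.ofNat 1) 0)) (.q (.ofNat 2) (.ofNat 0) 0))) (.su (.ofNat 2644316668708257792) (.q (.ofNat 2) (.ofNat 0) 0) (.su (.ofNat 2707111976793800704) (.q (.ofNat 6) (.negSucc 0) 0) (.su (.ofNat 2719142833024925696) (.ss (.negSucc 1153906667025334271) (.v false 0 (.ofNat 1) (.ofNat 1)) .o) (.su (.ofNat 2726261071303147520)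 (.su (.ofNat 2722701952164036608) (.su (.ofNat 2720922392594481152) (.su (.ofNat 2720032612809703424) (.su (.ofNat 2719144138694983680) (.q (.negSucc 397) (.ofNat 107) 0) (.su (.ofNat 2719588341392605184) (.su (.ofNat 2719366240043794432) (.su (.ofNat 2719255189369389056) (.q (.negSucc 397) (.ofNat 107) 0) (.q (.ofNat 500) (.negSucc 132) 0)) (.q (.ofNat 500) (.negSucc 132) 0)) (.q (.ofNat 500) (.negSucc 132) 0))) (.q (.ofNat 500) (.negSucc 132) 0)) (.v false 1 (.ofNat 1) (.ofNat 1))) (.v false 1 (.ofNat 1) (.ofNat 1))) (.v false 1 (.ofNat 1) (.ofNat 1)))))))))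
def tcD : Tr := (.sw (.su (.ofNat 1366561011930234880) (.su (.ofNat 751256712840740864) (.ss (.ofNat 0) (.ss (.negSucc 1078471373266878463) .o (.ss (.negSucc 454863562364420095) (.q (.negSucc 0) (.ofNat 0) 0) (.su (.ofNat 326159129263472640) (.ss (.negSucc 254242272713900031) (.q (.negSucc 0) (.ofNat 0) 0) (.su (.ofNat 208291482765885440) (.ss (.negSucc 176432033839448063) (.q (.negSucc 0) (.ofNat 0) 0) (.su (.ofNat 152999242028285952) (.ss (.negSucc 135090396635070463) (.q (.negSucc 0) (.ofNat 0) 0) tcDp0) (.ss (.negSucc 88224813012746239) (.ss (.negSucc 132328423426097151) (.su (.ofNat 180645362397085696) (.ss (.negSucc 154380228632772607) (.su (.ofNat 166822302212685824) (.q (.negSucc 0) (.ofNat 0) 0) (.q (.ofNat 1) (.ofNat 0) 0)) (.q (.ofNat 1) (.ofNat 0) 0)) (.q (.ofNat 1) (.ofNat 0) 0)) (.q (.ofNat 1) (.ofNat 0) 0)) (.q (.ofNat 1) (.ofNat 0) 0)))) (.ss (.negSucc 127121136356950015) (.su (.ofNat 267225306014679040) (.q (.negSucc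 10) (.ofNat 3) 0) (.q (.ofNat 1) (.ofNat 0) 0)) (.q (.ofNat 1) (.ofNat 0) 0)))) (.su (.ofNat 538707921052106752) (.ss (.negSucc 227431781182210047) (.su (.ofNat 432433525157789696) (.ss (.negSucc 341147671773315071) (.q (.negSucc 0) (.ofNat 0) 0) (.q (.ofNat 1) (.ofNat 0) 0)) (.q (.ofNat 1) (.ofNat 0) 0)) (.q (.ofNat 1) (.ofNat 0) 0)) (.q (.ofNat 1) (.ofNat 0) 0))))) (.su (.ofNat 375557987676192768) (.ss (.ofNat 288230376151711744) (.su (.ofNat 187743809466007552) tcDp1 (.q (.ofNat 1) (.ofNat 0) 0)) (.q (.ofNat 1) (.ofNat 0) 0)) (.q (.ofNat 1) (.ofNat 0) 0))) (.su (.ofNat 1058908862385487872) (.ss (.negSucc 790381734603522047) (.su (.ofNat 905082787613114368) (.q (.negSucc 2) (.ofNat 1) 0) (.q (.ofNat 1) (.ofNat 0) 0)) (.q (.ofNat 1) (.ofNat 0) 0)) (.q (.ofNat 1) (.ofNat 0) 0))) (.su (.ofNat 1559371370977034240) (.q (.ofNat 5) (.negSucc 0) 0) tcDp11)) (.su (.ofNat 616148724019625984) (.q (.ofNat 0) (.ofNat 0) 0) (.ss (.negSucc 1786803152159244287)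 (.q (.ofNat 2) (.ofNat 1) 0) (.ss (.negSucc 605171199927910399) tcDp19 (.su (.ofNat 2196349243273248768) (.q (.ofNat 0) (.ofNat 0) 0) .o)))))
def g_tcD : Rg := ⟨(.negSucc 4095), (.ofNat 2733379384344795425), (.negSucc 2156918632041371936), (.ofNat 576460752303427584), 0, 0, 0⟩
theorem ok_tcD : check 4 true g_tcD tcD = true := by decide +kernel

def tcX000 : Tr := (.su (.ofNat 2852713704590409728) (.su (.ofNat 2762659304229044224) (.su (.ofNat 2749755435765465088) (.q (.negSucc 49) (.ofNat 14) 2) (.su (.ofNat 2756207369997254656) (.q (.negSucc 49) (.ofNat 14) 2) (.q (.ofNat 66) (.negSucc 16) 1))) (.su (.ofNat 2807686504409726976) (.su (.ofNat 2785172904319385600) (.su (.ofNat 2773916104274214912) (.su (.ofNat 2768287704251629568) (.ss (.negSucc 1580481994230333439) (.q (.negSucc 4) (.ofNat 2) 0) (.su (.ofNat 2765473504240336896) (.ss (.negSucc 1367194330627833855) (.q (.negSucc 4) (.ofNat 2) 0) (.q (.negSucc 0) (.ofNat 0) 0)) (.q (.negSucc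 4) (.ofNat 2) 0))) (.q (.negSucc 4) (.ofNat 2) 0)) (.q (.negSucc 4) (.ofNat 2) 0)) (.q (.negSucc 4) (.ofNat 2) 0)) (.q (.negSucc 4) (.ofNat 2) 0))) (.su (.ofNat 3006328673130250240) (.su (.ofNat 2929521188860329984) (.q (.negSucc 4) (.ofNat 2) 0) (.q (.negSucc 0) (.ofNat 1) 0)) (.q (.negSucc 0) (.ofNat 1) 0)))
def g_tcX000 : Rg := ⟨(.ofNat 2747614584070339142), (.ofNat 3159960341049328806), (.negSucc 2007038836442481829), (.negSucc 1153876923033406874), 0, 0, 3⟩
theorem ok_tcX000 : check 0 false g_tcX000 tcX000 = true := by decide +kernel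

def tcX011p0 : Tr := (.ss (.negSucc 1455084892105736191) (.ss (.negSucc 1533088645026676735) (.su (.ofNat 2770856575730974720) (.su (.ofNat 2770828039968260096) (.q (.ofNat 8032) (.negSucc 2145) 0) (.q (.ofNat 34942) (.negSucc 9337) 0)) (.su (.ofNat 2771287653008539648) (.su (.ofNat 2771072114369757184) (.su (.ofNat 2770964345050365952) (.ss (.negSucc 1544154130048614399) (.q (.negSucc 4) (.ofNat 2) 1) (.su (.ofNat 2770910460390670336) (.ss (.negSucc 1538621387537645567) (.q (.negSucc 4) (.ofNat 2) 1) (.sw (.q (.negSucc 34) (.negSucc 8) 3) (.q (.negSucc 1946) (.ofNat 521) 3))) (.q (.negSucc 4) (.ofNat 2) 1))) (.q (.negSucc 4) (.ofNat 2) 1)) (.q (.negSucc 4) (.ofNat 2) 1)) (.q (.negSucc 4) (.ofNat 2) 1))) (.ss (.negSucc 1494086768566206463) (.ss (.negSucc 1513587706796441599) (.ss (.negSucc 1523338175911559167) (.ss (.negSucc 1528213410469117951) (.ss (.negSucc 1530651027747897343) (.ss (.negSucc 1533085346491793407) (.q (.ofNat 8148)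 (.ofNat 2178) 0) (.ss (.negSucc 1531868187119845375) (.ss (.negSucc 1532476766805819391) (.ss (.negSucc 1532781056648806399) (.sw (.q (.negSucc 34) (.negSucc 8) 3) (.ss (.negSucc 1532933201570299903) (.ss (.negSucc 1533009274031046655) (.sw (.q (.negSucc 34) (.negSucc 8) 4) (.ss (.negSucc 1533047310261420031) (.ss (.negSucc 1533066328376606719) (.sw (.q (.negSucc 34) (.negSucc 8) 5) (.ss (.negSucc 1533075837434200063) (.q (.ofNat 8148) (.ofNat 2178) 0) (.q (.negSucc 4) (.negSucc 0) 2))) (.q (.negSucc 4) (.negSucc 0) 2)) (.q (.negSucc 4) (.negSucc 0) 2))) (.q (.negSucc 4) (.negSucc 0) 2)) (.q (.negSucc 4) (.negSucc 0) 2))) (.q (.negSucc 4) (.negSucc 0) 2)) (.q (.negSucc 4) (.negSucc 0) 2)) (.q (.negSucc 4) (.negSucc 0) 2))) (.q (.negSucc 4) (.negSucc 0) 2)) (.q (.negSucc 4) (.negSucc 0) 2)) (.q (.negSucc 4) (.negSucc 0) 2)) (.q (.negSucc 4) (.negSucc 0) 2)) (.q (.negSucc 4) (.negSucc 0) 2))) (.ss (.negSucc 1304495779565535231) (.ss (.negSucc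 1379790335835635711) (.q (.negSucc 4) (.negSucc 0) 2) (.q (.negSucc 0) (.ofNat 0) 1)) (.q (.negSucc 0) (.ofNat 0) 1)))
def tcX011 : Tr := (.su (.ofNat 2915658546257330176) (.su (.ofNat 2773496090832404480) (.su (.ofNat 2759017721717850112) (.q (.negSucc 49) (.ofNat 14) 0) (.su (.ofNat 2766362459391393792) (.q (.ofNat 66) (.negSucc 16) 0) (.su (.ofNat 2770697833739714560) (.q (.ofNat 182) (.negSucc 47) 0) (.su (.ofNat 2771718730286104576) (.ss (.negSucc 1555219615070552063) (.q (.negSucc 4) (.ofNat 2) 1) tcX011p0) (.su (.ofNat 2772607410559254528) (.su (.ofNat 2772163070422679552) (.su (.ofNat 2771940900354392064) (.su (.ofNat 2771829815320248320) (.ss (.negSucc 1580481994230333439) (.q (.negSucc 4) (.ofNat 2) 1) (.su (.ofNat 2771774272803176448) (.ss (.negSucc 1367194330627833855) (.q (.negSucc 34) (.ofNat 10) 1) (.q (.negSucc 0) (.ofNat 0) 1)) (.q (.negSucc 34) (.ofNat 10) 1))) (.q (.negSucc 34) (.ofNat 10) 1)) (.q (.negSucc 34) (.ofNat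 10) 1)) (.q (.negSucc 34) (.ofNat 10) 1)) (.q (.negSucc 34) (.ofNat 10) 1)))))) (.su (.ofNat 2844577318544867328) (.su (.ofNat 2809036704688635904) (.su (.ofNat 2791266397760520192) (.q (.negSucc 34) (.ofNat 10) 1) (.q (.negSucc 4) (.ofNat 2) 1)) (.q (.negSucc 4) (.ofNat 2) 1)) (.q (.negSucc 4) (.ofNat 2) 1))) (.su (.ofNat 3037801093963710464) (.su (.ofNat 2976729820110520320) (.su (.ofNat 2946194183183925248) (.q (.negSucc 4) (.ofNat 2) 1) (.q (.negSucc 0) (.ofNat 1) 2)) (.q (.negSucc 0) (.ofNat 1) 2)) (.q (.negSucc 0) (.ofNat 1) 2)))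
def g_tcX011 : Rg := ⟨(.ofNat 2747614584070339142), (.ofNat 3159960341049328806), (.negSucc 2007038836442481829), (.negSucc 1153876923033406874), 1, 1, 3⟩
theorem ok_tcX011 : check 0 false g_tcX011 tcX011 = true := by decide +kernel

def tcX121 : Tr := (.su (.ofNat 2852713704590409728) (.su (.ofNat 2762659304229044224) (.su (.ofNat 2757790666741252096) (.q (.negSucc 49) (.ofNat 14) 1) (.su (.ofNat 2759989689996804096) (.q (.ofNat 515) (.negSucc 136) 0) (.ss (.negSucc 1496883926147268607) (.q (.negSucc 4) (.ofNat 2) 0) (.ss (.negSucc 1492415510891986943) (.q (.negSucc 4) (.negSucc 0) 0) (.ss (.negSucc 1323178681144705023) (.ss (.negSucc 1407797096018345983) (.q (.negSucc 4) (.negSucc 0) 0) (.q (.negSucc 0) (.ofNat 0) 0)) (.q (.negSucc 0) (.ofNat 0) 0)))))) (.su (.ofNat 2807686504409726976) (.su (.ofNat 2785172904319385600) (.su (.ofNat 2773916104274214912) (.su (.ofNat 2768287704251629568) (.ss (.negSucc 1580481994230333439) (.q (.negSucc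 4) (.ofNat 2) 0) (.su (.ofNat 2765473504240336896) (.ss (.negSucc 1367194330627833855) (.q (.negSucc 4) (.ofNat 2) 0) (.q (.negSucc 0) (.ofNat 0) 0)) (.q (.negSucc 4) (.ofNat 2) 0))) (.q (.negSucc 4) (.ofNat 2) 0)) (.q (.negSucc 4) (.ofNat 2) 0)) (.q (.negSucc 4) (.ofNat 2) 0)) (.q (.negSucc 4) (.ofNat 2) 0))) (.su (.ofNat 3006328673130250240) (.su (.ofNat 2929521188860329984) (.q (.negSucc 4) (.ofNat 2) 0) (.q (.negSucc 0) (.ofNat 1) 0)) (.q (.negSucc 0) (.ofNat 1) 0)))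
def g_tcX121 : Rg := ⟨(.ofNat 2747614584070339142), (.ofNat 3159960341049328806), (.negSucc 2007038836442481829), (.negSucc 1153876923033406874), 2, 1, 3⟩
theorem ok_tcX121 : check 1 false g_tcX121 tcX121 = true := by decide +kernel

def tcX130p0 : Tr := (.ss (.negSucc 1543045822327816191) (.ss (.negSucc 1606096217111003135) (.q (.ofNat 6) (.ofNat 2) 0) (.su (.ofNat 2771377606803587072) (.su (.ofNat 2771076615495483392) (.su (.ofNat 2770781053026041856) (.q (.negSucc 5422) (.ofNat 1450) 2) (.su (.ofNat 2770928834260762624) (.su (.ofNat 2770854943643402240) (.su (.ofNat 2770817998334722048) (.q (.ofNat 8032) (.negSucc 2145) 0) (.q (.negSucc 1946) (.ofNat 521) 1)) (.q (.negSucc 1946) (.ofNat 521) 1)) (.q (.negSucc 1946) (.ofNat 521) 1))) (.su (.ofNat 2771227111149535232) (.q (.negSucc 1946) (.ofNat 521) 1) (.q (.ofNat 1529) (.negSucc 407) 2))) (.su (.ofNat 2772324698631962624) (.su (.ofNat 2771851152717774848) (.su (.ofNat 2771614379760680960)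 (.q (.ofNat 1529) (.negSucc 407) 2) (.v false 2 (.ofNat 31) (.negSucc 6))) (.v false 2 (.ofNat 31) (.negSucc 6))) (.su (.ofNat 2772787043271442432) (.su (.ofNat 2772369160133410816) (.q (.negSucc 1497) (.ofNat 401) 0) (.su (.ofNat 2772578101702426624) (.q (.negSucc 1497) (.ofNat 401) 0) (.q (.ofNat 1978) (.negSucc 527) 0))) (.su (.ofNat 2773029416865890304) (.su (.ofNat 2772908230068666368) (.q (.ofNat 1978) (.negSucc 527) 0) (.q (.negSucc 150) (.ofNat 41) 1)) (.q (.negSucc 150) (.ofNat 41) 1)))))) (.ss (.negSucc 1476177923172990975) (.ss (.negSucc 1509611872750403583) (.ss (.negSucc 1526328847539109887) (.ss (.negSucc 1534687334933463039) (.ss (.negSucc 1543034827211538431) (.q (.negSucc 5422) (.negSucc 1448) 1) (.ss (.negSucc 1538861081072500735) (.ss (.negSucc 1540947954142019583) (.ss (.negSucc 1541991390676779007) (.ss (.negSucc 1542513108944158719) (.ss (.negSucc 1542773968077848575) (.ss (.negSucc 1543034328995332095) (.q (.negSucc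 5422) (.negSucc 1448) 1) (.ss (.negSucc 1542904157126524927) (.sw (.ss (.negSucc 1542969243060928511) (.ss (.negSucc 1543001786028130303) (.sw (.ss (.negSucc 1543018057511731199) (.q (.ofNat 8032) (.ofNat 2147) 0) (.q (.negSucc 4) (.negSucc 0) 1)) (.ss (.negSucc 1543018057511731199) (.q (.ofNat 8032) (.ofNat 2147) 0) (.q (.negSucc 4) (.negSucc 0) 1))) (.q (.negSucc 4) (.negSucc 0) 1)) (.q (.negSucc 4) (.negSucc 0) 1)) (.ss (.negSucc 1542969243060928511) (.ss (.negSucc 1543001786028130303) (.sw (.ss (.negSucc 1543018057511731199) (.q (.ofNat 8032) (.ofNat 2147) 0) (.q (.negSucc 4) (.negSucc 0) 1)) (.ss (.negSucc 1543018057511731199) (.q (.ofNat 8032) (.ofNat 2147) 0) (.q (.negSucc 4) (.negSucc 0) 1))) (.q (.negSucc 4) (.negSucc 0) 1)) (.q (.negSucc 4) (.negSucc 0) 1))) (.q (.negSucc 4) (.negSucc 0) 1))) (.q (.negSucc 4) (.negSucc 0) 1)) (.q (.negSucc 4) (.negSucc 0) 1)) (.q (.negSucc 4) (.negSucc 0) 1)) (.q (.negSucc 4) (.negSucc 0) 1))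 (.q (.negSucc 4) (.negSucc 0) 1))) (.q (.negSucc 4) (.negSucc 0) 1)) (.q (.negSucc 4) (.negSucc 0) 1)) (.q (.negSucc 4) (.negSucc 0) 1)) (.q (.negSucc 4) (.negSucc 0) 1)))
def tcX130p1 : Tr := (.ss (.negSucc 1664713381010997247) (.q (.ofNat 2) (.ofNat 1) 0) (.su (.ofNat 2840619076684873728) (.su (.ofNat 2796770552969166848) (.su (.ofNat 2773271790460338176) (.su (.ofNat 2759017721717850112) (.q (.negSucc 49) (.ofNat 14) 0) (.su (.ofNat 2766382250600693760) (.q (.ofNat 66) (.negSucc 16) 0) (.su (.ofNat 2770700582518784000) (.q (.ofNat 182) (.negSucc 47) 0) (.ss (.negSucc 1409310024018165759) tcX130p0 (.su (.ofNat 2771377606803587072) (.su (.ofNat 2771076615495483392) (.su (.ofNat 2770781087385780224) (.q (.negSucc 5422) (.ofNat 1450) 2) (.su (.ofNat 2770928834260762624) (.su (.ofNat 2770854960823271424) (.su (.ofNat 2770818024104525824) (.q (.ofNat 8032) (.negSucc 2145) 0) (.q (.negSucc 1946) (.ofNat 521) 1)) (.q (.negSucc 1946) (.ofNat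 521) 1)) (.q (.negSucc 1946) (.ofNat 521) 1))) (.su (.ofNat 2771227111149535232) (.q (.negSucc 1946) (.ofNat 521) 1) (.q (.ofNat 1529) (.negSucc 407) 2))) (.su (.ofNat 2772324698631962624) (.su (.ofNat 2771851152717774848) (.su (.ofNat 2771614379760680960) (.q (.ofNat 1529) (.negSucc 407) 2) (.v false 2 (.ofNat 31) (.negSucc 6))) (.v false 2 (.ofNat 31) (.negSucc 6))) (.su (.ofNat 2772790822842662912) (.su (.ofNat 2772369125773672448) (.q (.negSucc 1497) (.ofNat 401) 0) (.su (.ofNat 2772579957128298496) (.q (.negSucc 1497) (.ofNat 401) 0) (.q (.ofNat 1978) (.negSucc 527) 0))) (.su (.ofNat 2773031306651500544) (.su (.ofNat 2772911064747081728) (.q (.ofNat 1978) (.negSucc 527) 0) (.q (.negSucc 150) (.ofNat 41) 1)) (.q (.negSucc 150) (.ofNat 41) 1))))))))) (.su (.ofNat 2785021171714752512) (.su (.ofNat 2779146481087545344) (.q (.negSucc 150) (.ofNat 41) 1) (.q (.negSucc 34) (.ofNat 10) 2)) (.q (.negSucc 34) (.ofNat 10) 2))) (.su (.ofNat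 2818694814827020288) (.su (.ofNat 2807732683898093568) (.su (.ofNat 2802251618433630208) (.q (.ofNat 81) (.negSucc 20) 1) (.q (.negSucc 19) (.ofNat 6) 0)) (.q (.negSucc 19) (.ofNat 6) 0)) (.q (.negSucc 19) (.ofNat 6) 0))) (.su (.ofNat 2863291006449614848) (.su (.ofNat 2851955041567244288) (.q (.negSucc 19) (.ofNat 6) 0) (.q (.ofNat 10) (.negSucc 1) 0)) (.q (.ofNat 10) (.negSucc 1) 0))))
def tcX130 : Tr := (.su (.ofNat 2885962936214355968) tcX130p1 (.su (.ofNat 3022953288942223360) (.su (.ofNat 2954458112578289664) (.q (.ofNat 10) (.negSucc 1) 0) (.q (.negSucc 0) (.ofNat 1) 1)) (.q (.negSucc 0) (.ofNat 1) 1)))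
def g_tcX130 : Rg := ⟨(.ofNat 2747614584070339142), (.ofNat 3159960341049328806), (.negSucc 2007038836442481829), (.negSucc 1153876923033406874), 3, 0, 3⟩
theorem ok_tcX130 : check 1 false g_tcX130 tcX130 = true := by decide +kernel

def tcX220 : Tr := (.su (.ofNat 2852713704590409728) (.su (.ofNat 2762659304229044224) (.su (.ofNat 2749755435765465088) (.q (.ofNat 399) (.negSucc 105) 0) (.su (.ofNat 2756207369997254656) (.su (.ofNat 2752981402881359872) (.su (.ofNat 2751368419323412480) (.su (.ofNat 2750561927544438784) (.q (.ofNat 848) (.negSucc 225) 2) (.q (.ofNat 66) (.negSucc 16) 1)) (.q (.ofNat 66) (.negSucc 16) 1)) (.q (.ofNat 66) (.negSucc 16) 1)) (.q (.ofNat 66) (.negSucc 16) 1))) (.su (.ofNat 2807686504409726976) (.su (.ofNat 2785172904319385600) (.su (.ofNat 2773916104274214912) (.su (.ofNat 2768287704251629568) (.ss (.negSucc 1580481994230333439) (.q (.negSucc 4) (.ofNat 2) 0) (.su (.ofNat 2765473504240336896) (.ss (.negSucc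 1367194330627833855) (.q (.negSucc 4) (.ofNat 2) 0) (.q (.negSucc 0) (.ofNat 0) 0)) (.q (.negSucc 4) (.ofNat 2) 0))) (.q (.negSucc 4) (.ofNat 2) 0)) (.q (.negSucc 4) (.ofNat 2) 0)) (.q (.negSucc 4) (.ofNat 2) 0)) (.q (.negSucc 4) (.ofNat 2) 0))) (.su (.ofNat 3006328673130250240) (.su (.ofNat 2929521188860329984) (.q (.negSucc 4) (.ofNat 2) 0) (.q (.negSucc 0) (.ofNat 1) 0)) (.q (.negSucc 0) (.ofNat 1) 0)))
def g_tcX220 : Rg := ⟨(.ofNat 2747614584070339142), (.ofNat 3159960341049328806), (.negSucc 2007038836442481829), (.negSucc 1153876923033406874), 2, 0, 3⟩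
theorem ok_tcX220 : check 2 false g_tcX220 tcX220 = true := by decide +kernel

def tcX231p0 : Tr := (.su (.ofNat 2994036511088836608) (.su (.ofNat 2994000295924596736) (.q (.ofNat 5428) (.negSucc 1449) 0) (.sw (.ss (.negSucc 1582056494881308671) (.sw (.q (.negSucc 0) (.ofNat 1) 4) (.ss (.negSucc 1582648856770772991) (.ss (.negSucc 1584438586822885375) (.q (.negSucc 281) (.negSucc 74) 0) (.ss (.negSucc 1583543721796829183) (.ss (.negSucc 1583991154309857279) (.sw (.q (.ofNat 167) (.ofNat 45) 5) (.q (.negSucc 0) (.ofNat 1) 5)) (.q (.ofNat 616) (.ofNat 165) 0)) (.q (.ofNat 616) (.ofNat 165) 0))) (.sw (.ss (.negSucc 1582352675826040831) (.q (.negSucc 2410) (.negSucc 643) 1) (.q (.ofNat 1065) (.ofNat 285) 2)) (.q (.negSucc 0) (.ofNat 1) 5)))) (.sw (.q (.negSucc 0) (.ofNat 1) 4) (.su (.ofNat 2994030622688673792) (.su (.ofNat 2994011385530155008) (.sw (.su (.ofNat 2994003688948760576) (.q (.ofNat 240666) (.negSucc 64319) 0) (.su (.ofNat 2994007537239457792)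 (.sw (.q (.negSucc 0) (.ofNat 1) 6) (.su (.ofNat 2994005613094109184) (.su (.ofNat 2994004651021434880) (.sw (.su (.ofNat 2994004169985097728) (.q (.ofNat 240666) (.negSucc 64319) 0) (.q (.negSucc 58370) (.ofNat 15601) 2)) (.su (.ofNat 2994004169985097728) (.q (.ofNat 240666) (.negSucc 64319) 0) (.q (.negSucc 58370) (.ofNat 15601) 2))) (.q (.negSucc 58370) (.ofNat 15601) 2)) (.q (.negSucc 58370) (.ofNat 15601) 2))) (.q (.negSucc 58370) (.ofNat 15601) 2))) (.q (.negSucc 0) (.ofNat 1) 5)) (.su (.ofNat 2994021004109414400) (.sw (.su (.ofNat 2994016194819784704) (.q (.negSucc 58370) (.ofNat 15601) 2) (.q (.ofNat 45793) (.negSucc 12237) 1)) (.q (.negSucc 0) (.ofNat 1) 5)) (.q (.ofNat 45793) (.negSucc 12237) 1))) (.sw (.su (.ofNat 2994033566888755200) (.q (.ofNat 45793) (.negSucc 12237) 1) (.q (.ofNat 149957) (.negSucc 40076) 2)) (.q (.negSucc 0) (.ofNat 1) 5))))) (.q (.negSucc 0) (.ofNat 1) 3))) (.su (.ofNat 2994111776095731712) (.su (.ofNat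 2994074143592284160) (.sw (.su (.ofNat 2994055327340560384) (.sw (.q (.negSucc 0) (.ofNat 1) 4) (.su (.ofNat 2994045919214698496) (.su (.ofNat 2994041215151767552) (.sw (.su (.ofNat 2994038863120302080) (.su (.ofNat 2994036515383803904) (.q (.ofNat 149957) (.negSucc 40076) 2) (.su (.ofNat 2994037689252052992) (.sw (.q (.negSucc 0) (.ofNat 1) 6) (.su (.ofNat 2994037102317928448) (.sw (.su (.ofNat 2994036808850866176) (.q (.ofNat 956359) (.negSucc 255596) 3) (.q (.negSucc 1074) (.ofNat 288) 1)) (.su (.ofNat 2994036808850866176) (.q (.ofNat 956359) (.negSucc 255596) 3) (.q (.negSucc 1074) (.ofNat 288) 1))) (.q (.negSucc 1074) (.ofNat 288) 1))) (.q (.negSucc 1074) (.ofNat 288) 1))) (.q (.negSucc 1074) (.ofNat 288) 1)) (.q (.negSucc 0) (.ofNat 1) 5)) (.q (.negSucc 1074) (.ofNat 288) 1)) (.q (.negSucc 1074) (.ofNat 288) 1))) (.q (.negSucc 1074) (.ofNat 288) 1)) (.q (.negSucc 0) (.ofNat 1) 3)) (.q (.negSucc 1074) (.ofNat 288) 1)) (.q (.negSucc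 1074) (.ofNat 288) 1)))
def tcX231p1 : Tr := (.ss (.negSucc 1580823942346571775) (.ss (.negSucc 1581315011727327231) (.ss (.negSucc 1581786908374073343) (.q (.ofNat 1065) (.ofNat 285) 2) (.ss (.negSucc 1581559412546338815) (.ss (.negSucc 1581703345490362367) (.sw (.su (.ofNat 3001104481069826048) (.sw (.q (.negSucc 0) (.ofNat 1) 4) (.su (.ofNat 3000440994521939968) (.q (.ofNat 272) (.negSucc 71) 0) (.su (.ofNat 3000772703436144640) (.q (.negSucc 2305) (.ofNat 617) 0) (.q (.ofNat 1170) (.negSucc 311) 0)))) (.sw (.q (.negSucc 0) (.ofNat 1) 4) (.q (.negSucc 60) (.ofNat 17) 4))) (.q (.negSucc 0) (.ofNat 1) 3)) (.sw (.ss (.negSucc 1581631379018350591) (.ss (.negSucc 1581667362254356479) (.sw (.q (.negSucc 0) (.ofNat 1) 4) (.ss (.negSucc 1581685353872359423) (.sw (.ss (.negSucc 1581694349681360895) (.ss (.negSucc 1581703334752944127) (.q (.ofNat 162525) (.ofNat 43437) 2) (.ss (.negSucc 1581698842217152511) (.sw (.q (.negSucc 0) (.ofNat 1)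 6) (.ss (.negSucc 1581701088485048319) (.q (.ofNat 162525) (.ofNat 43437) 2) (.q (.negSucc 5437) (.negSucc 1452) 0))) (.q (.negSucc 5437) (.negSucc 1452) 0))) (.q (.negSucc 5437) (.negSucc 1452) 0)) (.q (.negSucc 0) (.ofNat 1) 5)) (.q (.negSucc 5437) (.negSucc 1452) 0))) (.q (.negSucc 5437) (.negSucc 1452) 0)) (.q (.negSucc 5437) (.negSucc 1452) 0)) (.q (.negSucc 0) (.ofNat 1) 3))) (.ss (.negSucc 1581437212136833023) (.sw (.ss (.negSucc 1581498312341585919) (.q (.negSucc 5437) (.negSucc 1452) 0) (.q (.negSucc 1961) (.negSucc 523) 0)) (.q (.negSucc 0) (.ofNat 1) 3)) (.q (.negSucc 1961) (.negSucc 523) 0)))) (.ss (.negSucc 1581069477036949503) (.q (.negSucc 1961) (.negSucc 523) 0) (.q (.ofNat 1514) (.ofNat 405) 0))) (.ss (.negSucc 1580553187608231935) (.q (.ofNat 1514) (.ofNat 405) 0) (.su (.ofNat 3001104481069826048) (.su (.ofNat 3000440994521939968) (.q (.ofNat 272) (.negSucc 71) 0) (.su (.ofNat 3000772703436144640) (.q (.negSucc 2305)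 (.ofNat 617) 0) (.q (.ofNat 1170) (.negSucc 311) 0))) (.su (.ofNat 3001426912854671360) (.q (.ofNat 1170) (.negSucc 311) 0) (.ss (.negSucc 1580072288710033407) (.sw (.ss (.negSucc 1580321534252154879) (.ss (.negSucc 1580395476409122815) (.sw (.q (.negSucc 0) (.ofNat 1) 4) (.q (.negSucc 60) (.ofNat 17) 4)) (.sw (.q (.negSucc 0) (.ofNat 1) 4) (.q (.negSucc 60) (.ofNat 17) 4))) (.ss (.negSucc 1580196911481094143) (.sw (.q (.negSucc 0) (.ofNat 1) 4) (.q (.negSucc 60) (.ofNat 17) 4)) (.q (.negSucc 1512) (.negSucc 403) 1))) (.q (.negSucc 0) (.ofNat 1) 3)) (.sw (.ss (.negSucc 1579642070425927679) (.q (.negSucc 1512) (.negSucc 403) 1) (.q (.ofNat 15418) (.ofNat 4121) 0)) (.q (.negSucc 0) (.ofNat 1) 3)))))))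
def tcX231p2 : Tr := (.su (.ofNat 3002218698665623552) (.su (.ofNat 3001900115171475456) (.ss (.negSucc 1582056494881308671) (.ss (.negSucc 1582648856770772991) (.ss (.negSucc 1584438586822885375) (.q (.negSucc 281) (.negSucc 74) 0) (.ss (.negSucc 1583543721796829183) (.ss (.negSucc 1583991154309857279) (.ss (.negSucc 1584214870566371327) (.q (.negSucc 281) (.negSucc 74) 0) (.q (.ofNat 616) (.ofNat 165) 0)) (.q (.ofNat 616) (.ofNat 165) 0)) (.q (.ofNat 616) (.ofNat 165) 0))) (.ss (.negSucc 1582352675826040831) (.q (.negSucc 2410) (.negSucc 643) 1) (.q (.ofNat 1065) (.ofNat 285) 2))) tcX231p1) (.su (.ofNat 3002059406918549504) (.su (.ofNat 3001979761045012480) (.su (.ofNat 3001939938108243968) (.q (.ofNat 11598) (.negSucc 3098) 0) (.q (.ofNat 1619) (.negSucc 431) 1)) (.q (.ofNat 1619) (.negSucc 431) 1)) (.q (.ofNat 1619) (.negSucc 431) 1))) (.su (.ofNat 3004860825107169280) (.su (.ofNat 3003539761886396416) (.su (.ofNat 3002879230276009984)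 (.su (.ofNat 3002548964470816768) (.su (.ofNat 3002383831568220160) (.q (.ofNat 1619) (.negSucc 431) 1) (.v false 2 (.ofNat 211) (.negSucc 54))) (.v false 2 (.ofNat 211) (.negSucc 54))) (.q (.negSucc 1407) (.ofNat 377) 0)) (.su (.ofNat 3003975855685763072) (.su (.ofNat 3003780554932879360) (.q (.ofNat 2068) (.negSucc 551) 0) (.su (.ofNat 3003937424318398464) (.q (.ofNat 5544) (.negSucc 1480) 0) (.sw (.ss (.negSucc 1582056494881308671) (.sw (.q (.negSucc 0) (.ofNat 1) 4) (.q (.negSucc 60) (.ofNat 17) 4)) (.sw (.q (.negSucc 0) (.ofNat 1) 4) (.q (.negSucc 60) (.ofNat 17) 4))) (.q (.negSucc 0) (.ofNat 1) 3)))) (.su (.ofNat 3004418340396466176) (.su (.ofNat 3004197098041114624) (.su (.ofNat 3004086476863438848) (.su (.ofNat 3004031166274600960) (.sw (.su (.ofNat 3003975915815305216) (.q (.ofNat 150073) (.negSucc 40107) 1) (.su (.ofNat 3004003541044953088) (.su (.ofNat 3003989728430129152) (.v false 3 (.ofNat 1109) (.negSucc 294)) (.q (.negSucc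 958) (.ofNat 257) 2)) (.q (.negSucc 958) (.ofNat 257) 2))) (.q (.negSucc 0) (.ofNat 1) 3)) (.q (.negSucc 958) (.ofNat 257) 2)) (.q (.negSucc 958) (.ofNat 257) 2)) (.q (.negSucc 958) (.ofNat 257) 2)) (.q (.negSucc 958) (.ofNat 257) 2)))) (.su (.ofNat 3006866609194139648) (.q (.negSucc 509) (.ofNat 137) 0) (.q (.ofNat 388) (.negSucc 102) 0))))
def tcX231p3 : Tr := (.su (.ofNat 2994036511088836608) (.sw (.su (.ofNat 2994000295924596736) (.q (.ofNat 5428) (.negSucc 1449) 0) (.sw (.q (.negSucc 0) (.ofNat 1) 4) (.ss (.negSucc 1541892984386093055) (.su (.ofNat 2994030622688673792) (.su (.ofNat 2994011385530155008) (.sw (.su (.ofNat 2994003688948760576) (.q (.ofNat 240666) (.negSucc 64319) 0) (.sw (.q (.negSucc 0) (.ofNat 1) 6) (.su (.ofNat 2994007537239457792) (.su (.ofNat 2994005613094109184) (.sw (.su (.ofNat 2994004651021434880) (.su (.ofNat 2994004169985097728) (.q (.ofNat 240666) (.negSucc 64319) 0) (.q (.negSucc 58370) (.ofNat 15601)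 2)) (.q (.negSucc 58370) (.ofNat 15601) 2)) (.su (.ofNat 2994004651021434880) (.su (.ofNat 2994004169985097728) (.q (.ofNat 240666) (.negSucc 64319) 0) (.q (.negSucc 58370) (.ofNat 15601) 2)) (.q (.negSucc 58370) (.ofNat 15601) 2))) (.q (.negSucc 58370) (.ofNat 15601) 2)) (.q (.negSucc 58370) (.ofNat 15601) 2)))) (.q (.negSucc 0) (.ofNat 1) 5)) (.sw (.su (.ofNat 2994021004109414400) (.su (.ofNat 2994016194819784704) (.q (.negSucc 58370) (.ofNat 15601) 2) (.q (.ofNat 45793) (.negSucc 12237) 1)) (.q (.ofNat 45793) (.negSucc 12237) 1)) (.q (.negSucc 0) (.ofNat 1) 5))) (.sw (.sw (.q (.negSucc 0) (.ofNat 1) 6) (.su (.ofNat 2994033566888755200) (.q (.ofNat 45793) (.negSucc 12237) 1) (.q (.ofNat 149957) (.negSucc 40076) 2))) (.q (.negSucc 0) (.ofNat 1) 5))) (.sw (.ss (.negSucc 1541680572483502079) (.sw (.q (.negSucc 0) (.ofNat 1) 6) (.ss (.negSucc 1541786778434797567) (.q (.negSucc 4973) (.negSucc 1328) 0) (.q (.negSucc 1497) (.negSucc 399)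 0))) (.q (.negSucc 1497) (.negSucc 399) 0)) (.q (.negSucc 0) (.ofNat 1) 5))))) (.q (.negSucc 0) (.ofNat 1) 3)) (.sw (.su (.ofNat 2994111913534685184) (.su (.ofNat 2994074212311760896) (.sw (.q (.negSucc 0) (.ofNat 1) 4) (.su (.ofNat 2994055361700298752) (.sw (.su (.ofNat 2994045936394567680) (.su (.ofNat 2994036522899996672) (.q (.ofNat 149957) (.negSucc 40076) 2) (.su (.ofNat 2994041229110411264) (.sw (.q (.negSucc 0) (.ofNat 1) 6) (.su (.ofNat 2994038876005203968) (.su (.ofNat 2994037699452600320) (.sw (.su (.ofNat 2994037111176298496) (.su (.ofNat 2994036817038147584) (.q (.ofNat 956359) (.negSucc 255596) 3) (.q (.negSucc 1074) (.ofNat 288) 1)) (.q (.negSucc 1074) (.ofNat 288) 1)) (.su (.ofNat 2994037111176298496) (.su (.ofNat 2994036817038147584) (.q (.ofNat 956359) (.negSucc 255596) 3) (.q (.negSucc 1074) (.ofNat 288) 1)) (.q (.negSucc 1074) (.ofNat 288) 1))) (.q (.negSucc 1074) (.ofNat 288) 1)) (.q (.negSucc 1074) (.ofNat 288)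 1))) (.q (.negSucc 1074) (.ofNat 288) 1))) (.q (.negSucc 1074) (.ofNat 288) 1)) (.q (.negSucc 0) (.ofNat 1) 5)) (.q (.negSucc 1074) (.ofNat 288) 1))) (.q (.negSucc 1074) (.ofNat 288) 1)) (.q (.negSucc 1074) (.ofNat 288) 1)) (.q (.negSucc 0) (.ofNat 1) 3)))
def tcX231p4 : Tr := (.su (.ofNat 3002218698665623552) (.su (.ofNat 3001900115171475456) (.su (.ofNat 3001104481069826048) (.su (.ofNat 3000440994521939968) (.q (.ofNat 272) (.negSucc 71) 0) (.su (.ofNat 3000772703436144640) (.q (.negSucc 2305) (.ofNat 617) 0) (.q (.ofNat 1170) (.negSucc 311) 0))) (.su (.ofNat 3001426912854671360) (.q (.ofNat 1170) (.negSucc 311) 0) (.ss (.negSucc 1542513383822065663) (.sw (.ss (.negSucc 1542760636499361791) (.ss (.negSucc 1543056198968803327) (.q (.negSucc 5422) (.negSucc 1448) 2) (.ss (.negSucc 1542908417734082559) (.sw (.q (.negSucc 0) (.ofNat 1) 4) (.q (.negSucc 60) (.ofNat 17) 4)) (.q (.negSucc 1946) (.negSucc 519) 1))) (.ss (.negSucc 1542637010160713727)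 (.q (.negSucc 1946) (.negSucc 519) 1) (.q (.ofNat 1529) (.ofNat 409) 2))) (.q (.negSucc 0) (.ofNat 1) 3)) (.sw (.ss (.negSucc 1542160371870072831) (.q (.ofNat 1529) (.ofNat 409) 2) (.ss (.negSucc 1542026042472923135) (.q (.ofNat 5005) (.ofNat 1338) 1) (.sw (.q (.negSucc 0) (.ofNat 1) 4) (.q (.negSucc 60) (.ofNat 17) 4)))) (.q (.negSucc 0) (.ofNat 1) 3))))) (.su (.ofNat 3002059406918549504) (.sw (.su (.ofNat 3001979761045012480) (.sw (.q (.negSucc 0) (.ofNat 1) 4) (.q (.negSucc 60) (.ofNat 17) 4)) (.q (.ofNat 1619) (.negSucc 431) 1)) (.q (.negSucc 0) (.ofNat 1) 3)) (.q (.ofNat 1619) (.negSucc 431) 1))) (.su (.ofNat 3004860825107169280) (.su (.ofNat 3003539761886396416) (.su (.ofNat 3002879230276009984) (.su (.ofNat 3002548964470816768) (.su (.ofNat 3002383831568220160) (.q (.ofNat 1619) (.negSucc 431) 1) (.v false 2 (.ofNat 211) (.negSucc 54))) (.v false 2 (.ofNat 211) (.negSucc 54))) (.q (.negSucc 1407) (.ofNat 377) 0)) (.su (.ofNat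 3003975855685763072) (.su (.ofNat 3003780589292617728) (.q (.ofNat 2068) (.negSucc 551) 0) (.sw (.su (.ofNat 3003937424318398464) (.q (.ofNat 5544) (.negSucc 1480) 0) (.sw (.q (.negSucc 0) (.ofNat 1) 4) (.q (.negSucc 60) (.ofNat 17) 4))) (.q (.negSucc 0) (.ofNat 1) 3))) (.su (.ofNat 3004418340396466176) (.su (.ofNat 3004197098041114624) (.sw (.su (.ofNat 3004086476863438848) (.su (.ofNat 3004031166274600960) (.sw (.q (.negSucc 0) (.ofNat 1) 4) (.q (.negSucc 60) (.ofNat 17) 4)) (.q (.negSucc 958) (.ofNat 257) 2)) (.q (.negSucc 958) (.ofNat 257) 2)) (.q (.negSucc 0) (.ofNat 1) 3)) (.q (.negSucc 958) (.ofNat 257) 2)) (.q (.negSucc 958) (.ofNat 257) 2)))) (.su (.ofNat 3006866609194139648) (.q (.negSucc 509) (.ofNat 137) 0) (.q (.ofNat 388) (.negSucc 102) 0))))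
def tcX231p5 : Tr := (.ss (.negSucc 1573427527626522623) (.ss (.negSucc 1579591389811834879) (.ss (.negSucc 1592941659996291071) (.ss (.negSucc 1604929635273932799) (.q (.ofNat 6) (.ofNat 2) 0) (.ss (.negSucc 1598936197390925823) (.ss (.negSucc 1601932916332429311) (.ss (.negSucc 1603431275803181055) (.ss (.negSucc 1604180455538556927) (.ss (.negSucc 1604555045406244863) (.q (.ofNat 6) (.ofNat 2) 0) (.q (.ofNat 51) (.ofNat 14) 1)) (.q (.ofNat 51) (.ofNat 14) 1)) (.q (.ofNat 51) (.ofNat 14) 1)) (.q (.ofNat 51) (.ofNat 14) 1)) (.q (.ofNat 51) (.ofNat 14) 1))) (.ss (.negSucc 1584521599950782463) (.q (.ofNat 51) (.ofNat 14) 1) (.su (.ofNat 3000308846968176640) (.su (.ofNat 2996241753457033216) (.su (.ofNat 2994187041102626816) (.su (.ofNat 2993608766705893376) (.q (.negSucc 1523) (.ofNat 408) 0) (.su (.ofNat 2993857806089584640) (.q (.ofNat 1952) (.negSucc 520) 0) tcX231p0)) (.su (.ofNat 2995214397279830016) (.su (.ofNat 2994700719191228416)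 (.q (.negSucc 1074) (.ofNat 288) 1) (.q (.negSucc 176) (.ofNat 48) 1)) (.q (.negSucc 176) (.ofNat 48) 1))) (.su (.ofNat 2998275300212604928) (.q (.negSucc 176) (.ofNat 48) 1) (.q (.ofNat 272) (.negSucc 71) 0))) tcX231p2))) (.ss (.negSucc 1576509458719178751) (.ss (.negSucc 1578050424265506815) (.ss (.negSucc 1579589877983346687) (.q (.ofNat 15418) (.ofNat 4121) 0) (.ss (.negSucc 1578820219843903487) (.ss (.negSucc 1579205048913625087) (.ss (.negSucc 1579397463448485887) (.ss (.negSucc 1579493670715916287) (.ss (.negSucc 1579541774349631487) (.ss (.negSucc 1579565826166489087) (.sw (.ss (.negSucc 1579577852074917887) (.q (.ofNat 15418) (.ofNat 4121) 0) (.q (.negSucc 165) (.negSucc 43) 0)) (.q (.negSucc 0) (.ofNat 1) 3)) (.q (.negSucc 165) (.negSucc 43) 0)) (.q (.negSucc 165) (.negSucc 43) 0)) (.q (.negSucc 165) (.negSucc 43) 0)) (.q (.negSucc 165) (.negSucc 43) 0)) (.q (.negSucc 165) (.negSucc 43) 0)) (.q (.negSucc 165) (.negSucc 43)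 0))) (.q (.negSucc 165) (.negSucc 43) 0)) (.q (.negSucc 49) (.negSucc 12) 0))) (.ss (.negSucc 1554803999675252735) (.q (.negSucc 49) (.negSucc 12) 0) (.ss (.negSucc 1547433973234270207) (.q (.ofNat 66) (.ofNat 18) 0) (.ss (.negSucc 1543133783258038271) (.q (.ofNat 182) (.ofNat 49) 0) (.ss (.negSucc 1541048009700147199) (.ss (.negSucc 1541468160580911103) (.su (.ofNat 3000308846968176640) (.su (.ofNat 2996241753457033216) (.su (.ofNat 2994187315980533760) (.su (.ofNat 2993608766705893376) (.q (.negSucc 1523) (.ofNat 408) 0) (.su (.ofNat 2993857806089584640) (.q (.ofNat 1952) (.negSucc 520) 0) tcX231p3)) (.su (.ofNat 2995214534718783488) (.su (.ofNat 2994700925349658624) (.q (.negSucc 1074) (.ofNat 288) 1) (.q (.negSucc 176) (.ofNat 48) 1)) (.q (.negSucc 176) (.ofNat 48) 1))) (.su (.ofNat 2998275300212604928) (.q (.negSucc 176) (.ofNat 48) 1) (.q (.ofNat 272) (.negSucc 71) 0))) (.ss (.negSucc 1541892984386093055) tcX231p4 (.ss (.negSucc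 1541680572483502079) (.ss (.negSucc 1541786778434797567) (.q (.negSucc 4973) (.negSucc 1328) 0) (.q (.negSucc 1497) (.negSucc 399) 0)) (.q (.negSucc 1497) (.negSucc 399) 0)))) (.ss (.negSucc 1541258085140529151) (.q (.negSucc 1497) (.negSucc 399) 0) (.q (.ofNat 1978) (.ofNat 529) 0))) (.ss (.negSucc 1540806666897850367) (.ss (.negSucc 1540927338298998783) (.q (.ofNat 1978) (.ofNat 529) 0) (.q (.negSucc 150) (.negSucc 39) 1)) (.q (.negSucc 150) (.negSucc 39) 1)))))))
def tcX231p6 : Tr := (.su (.ofNat 3088466589771628544) (.su (.ofNat 3052728063822397440) (.su (.ofNat 3034858800847781888) (.su (.ofNat 3025924169360474112) (.q (.ofNat 55) (.negSucc 13) 1) (.v false 1 (.ofNat 9) (.negSucc 0))) (.q (.negSucc 45) (.ofNat 13) 0)) (.su (.ofNat 3069482422006448128) (.su (.ofNat 3063744070821085184) (.q (.ofNat 70) (.negSucc 17) 0) (.su (.ofNat 3068483515692613632) (.q (.ofNat 186) (.negSucc 48) 0) (.ss (.negSucc 1573427527626522623) (.su (.ofNat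 3068926137842270208) (.su (.ofNat 3068629269702770688) (.q (.negSucc 5418) (.ofNat 1449) 2) (.su (.ofNat 3068777703772520448) (.su (.ofNat 3068703486737645568) (.su (.ofNat 3068666378220208128) (.q (.ofNat 8036) (.negSucc 2146) 0) (.q (.negSucc 1942) (.ofNat 520) 1)) (.q (.negSucc 1942) (.ofNat 520) 1)) (.q (.negSucc 1942) (.ofNat 520) 1))) (.su (.ofNat 3069204279924359168) (.su (.ofNat 3069065208883314688) (.q (.negSucc 1942) (.ofNat 520) 1) (.q (.ofNat 1533) (.negSucc 408) 2)) (.q (.ofNat 1533) (.negSucc 408) 2))) (.ss (.negSucc 1554810596745019391) (.q (.negSucc 49) (.negSucc 12) 0) (.su (.ofNat 3068926137842270208) (.su (.ofNat 3068629269702770688) (.q (.negSucc 5418) (.ofNat 1449) 2) (.su (.ofNat 3068777703772520448) (.su (.ofNat 3068703486737645568) (.su (.ofNat 3068666378220208128) (.q (.ofNat 8036) (.negSucc 2146) 0) (.q (.negSucc 1942) (.ofNat 520) 1)) (.q (.negSucc 1942) (.ofNat 520) 1)) (.q (.negSucc 1942) (.ofNat 520) 1)))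 (.su (.ofNat 3069204279924359168) (.su (.ofNat 3069065208883314688) (.q (.negSucc 1942) (.ofNat 520) 1) (.q (.ofNat 1533) (.negSucc 408) 2)) (.q (.ofNat 1533) (.negSucc 408) 2))))))) (.su (.ofNat 3078973406377410560) (.su (.ofNat 3074227914191929344) (.su (.ofNat 3071855168099188736) (.su (.ofNat 3070668795052818432) (.su (.ofNat 3069483658957029376) (.q (.ofNat 1533) (.negSucc 408) 2) (.su (.ofNat 3070076158285447168) (.v false 2 (.ofNat 39) (.negSucc 8)) (.q (.negSucc 30) (.ofNat 9) 2))) (.q (.negSucc 30) (.ofNat 9) 2)) (.q (.negSucc 30) (.ofNat 9) 2)) (.q (.negSucc 30) (.ofNat 9) 2)) (.q (.negSucc 30) (.ofNat 9) 2)))) (.su (.ofNat 3156988154414628864) (.q (.negSucc 15) (.ofNat 5) 0) (.q (.ofNat 14) (.negSucc 2) 0)))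
def tcX231p7 : Tr := (.ss (.negSucc 1517062163540213759) (.ss (.negSucc 1540565324095553535) (.su (.ofNat 2953763221229535232) (.su (.ofNat 2770786894181564416) (.su (.ofNat 2759055105113194496) (.q (.negSucc 49) (.ofNat 14) 0) (.su (.ofNat 2766385549135577088) (.q (.ofNat 66) (.negSucc 16) 0) (.su (.ofNat 2770701132274597888) (.q (.ofNat 182) (.negSucc 47) 0) (.q (.negSucc 5422) (.ofNat 1450) 1)))) (.su (.ofNat 2862266261612527616) (.su (.ofNat 2816526577897046016) (.su (.ofNat 2793656736039305216) (.su (.ofNat 2782221815110434816) (.su (.ofNat 2770802287344353280) (.q (.negSucc 5422) (.ofNat 1450) 1) (.su (.ofNat 2776512051227394048) (.su (.ofNat 2773657169285873664) (.su (.ofNat 2772229728315113472) (.su (.ofNat 2771516007829733376) (.su (.ofNat 2771159147587043328) (.ss (.negSucc 1540657683072286719) (.q (.negSucc 4) (.ofNat 2) 1) (.q (.negSucc 150) (.negSucc 39) 1)) (.q (.negSucc 4) (.ofNat 2) 1)) (.q (.negSucc 4) (.ofNat 2) 1))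 (.q (.negSucc 4) (.ofNat 2) 1)) (.q (.negSucc 4) (.ofNat 2) 1)) (.q (.negSucc 4) (.ofNat 2) 1))) (.q (.negSucc 4) (.ofNat 2) 1)) (.q (.negSucc 4) (.ofNat 2) 1)) (.q (.negSucc 4) (.ofNat 2) 1)) (.q (.negSucc 4) (.ofNat 2) 1))) (.su (.ofNat 3016989537873166336) (.su (.ofNat 3007502951548715008) (.su (.ofNat 2962616488856387584) (.q (.ofNat 10) (.negSucc 1) 0) (.su (.ofNat 2976070113133854720) (.q (.negSucc 75) (.ofNat 21) 0) (.su (.ofNat 2993114742387638272) (.q (.ofNat 40) (.negSucc 9) 0) tcX231p5))) (.su (.ofNat 3012246244710940672) (.su (.ofNat 3009874598129827840) (.su (.ofNat 3007505975205691392) (.q (.ofNat 388) (.negSucc 102) 0) (.su (.ofNat 3008690149228806144) (.q (.ofNat 388) (.negSucc 102) 0) (.q (.ofNat 55) (.negSucc 13) 1))) (.q (.ofNat 55) (.negSucc 13) 1)) (.q (.ofNat 55) (.negSucc 13) 1))) tcX231p6)) (.ss (.negSucc 1528813743817883647) (.ss (.negSucc 1534689533956718591) (.q (.negSucc 150) (.negSucc 39) 1) (.q (.negSucc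 34) (.negSucc 8) 2)) (.q (.negSucc 34) (.negSucc 8) 2))) (.ss (.negSucc 1495274241124204543) (.ss (.negSucc 1506168202332209151) (.ss (.negSucc 1511615182936211455) (.q (.ofNat 81) (.ofNat 22) 1) (.q (.negSucc 19) (.negSucc 4) 0)) (.q (.negSucc 19) (.negSucc 4) 0)) (.q (.negSucc 19) (.negSucc 4) 0)))
def tcX231 : Tr := (.ss (.negSucc 1664713381010997247) (.q (.ofNat 2) (.ofNat 1) 0) (.ss (.negSucc 1427887372481069055) (.ss (.negSucc 1606289731157491711) (.q (.ofNat 6) (.ofNat 2) 0) (.ss (.negSucc 1473486318708195327) tcX231p7 (.ss (.negSucc 1450686845594632191) (.ss (.negSucc 1462086582151413759) (.q (.negSucc 19) (.negSucc 4) 0) (.q (.ofNat 10) (.ofNat 3) 0)) (.q (.ofNat 10) (.ofNat 3) 0)))) (.ss (.negSucc 1290897019753201663) (.ss (.negSucc 1359392196117135359) (.q (.ofNat 10) (.ofNat 3) 0) (.q (.negSucc 0) (.ofNat 0) 1)) (.q (.negSucc 0) (.ofNat 0) 1))))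
def g_tcX231 : Rg := ⟨(.ofNat 2747614584070339142), (.ofNat 3159960341049328806), (.negSucc 2007038836442481829), (.negSucc 1153876923033406874), 3, 1, 3⟩
theorem ok_tcX231 : check 2 false g_tcX231 tcX231 = true := by decide +kernel

def tcX301 : Tr := (.su (.ofNat 2852713704590409728) (.su (.ofNat 2762659304229044224) (.su (.ofNat 2750599860695597056) (.q (.negSucc 49) (.ofNat 14) 1) (.su (.ofNat 2756629582462320640) (.q (.negSucc 49) (.ofNat 14) 1) (.q (.ofNat 66) (.negSucc 16) 2))) (.su (.ofNat 2807686504409726976) (.su (.ofNat 2785172904319385600) (.su (.ofNat 2773916104274214912) (.su (.ofNat 2768287704251629568) (.ss (.negSucc 1580481994230333439) (.q (.negSucc 4) (.ofNat 2) 0) (.su (.ofNat 2765473504240336896) (.ss (.negSucc 1367194330627833855) (.q (.negSucc 4) (.ofNat 2) 0) (.q (.negSucc 0) (.ofNat 0) 0)) (.q (.negSucc 4) (.ofNat 2) 0))) (.q (.negSucc 4) (.ofNat 2) 0)) (.q (.negSucc 4) (.ofNat 2) 0)) (.q (.negSucc 4) (.ofNat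 2) 0)) (.q (.negSucc 4) (.ofNat 2) 0))) (.su (.ofNat 3006328673130250240) (.su (.ofNat 2929521188860329984) (.q (.negSucc 4) (.ofNat 2) 0) (.q (.negSucc 0) (.ofNat 1) 0)) (.q (.negSucc 0) (.ofNat 1) 0)))
def g_tcX301 : Rg := ⟨(.ofNat 2747614584070339142), (.ofNat 3159960341049328806), (.negSucc 2007038836442481829), (.negSucc 1153876923033406874), 0, 1, 3⟩
theorem ok_tcX301 : check 3 false g_tcX301 tcX301 = true := by decide +kernel

def tcX310p0 : Tr := (.ss (.negSucc 1579591939567648767) (.su (.ofNat 2775723701390278656) (.su (.ofNat 2772786356076675072) (.su (.ofNat 2771377744242540544) (.su (.ofNat 2770827988428652544) (.q (.ofNat 8032) (.negSucc 2145) 0) (.su (.ofNat 2771309162204758016) (.q (.negSucc 1946) (.ofNat 521) 1) (.q (.negSucc 11925) (.ofNat 3188) 0))) (.su (.ofNat 2772081981440131072) (.su (.ofNat 2771729862841335808) (.su (.ofNat 2771553803541938176) (.su (.ofNat 2771465773892239360) (.sw (.su (.ofNat 2771377855911690240)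 (.q (.negSucc 11925) (.ofNat 3188) 0) (.su (.ofNat 2771421810606997504) (.sw (.su (.ofNat 2771399833259343872) (.su (.ofNat 2771388844585517056) (.sw (.su (.ofNat 2771383350248603648) (.su (.ofNat 2771377861817270272) (.q (.negSucc 11925) (.ofNat 3188) 0) (.su (.ofNat 2771380605764501504) (.q (.negSucc 11925) (.ofNat 3188) 0) (.v false 2 (.ofNat 31) (.negSucc 6)))) (.q (.ofNat 14984) (.negSucc 4003) 0)) (.q (.ofNat 1529) (.negSucc 407) 5)) (.q (.ofNat 14984) (.negSucc 4003) 0)) (.q (.ofNat 14984) (.negSucc 4003) 0)) (.q (.ofNat 1529) (.negSucc 407) 4)) (.v false 2 (.ofNat 31) (.negSucc 6)))) (.q (.ofNat 1529) (.negSucc 407) 3)) (.v false 2 (.ofNat 31) (.negSucc 6))) (.v false 2 (.ofNat 31) (.negSucc 6))) (.v false 2 (.ofNat 31) (.negSucc 6))) (.su (.ofNat 2772713650870288384) (.q (.negSucc 1497) (.ofNat 401) 0) (.q (.ofNat 1978) (.negSucc 527) 0)))) (.su (.ofNat 2774255028733476864) (.su (.ofNat 2773520692405075968) (.su (.ofNat 2773153524240875520)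 (.su (.ofNat 2772786734033797120) (.q (.ofNat 1978) (.negSucc 527) 0) (.su (.ofNat 2772970111957467136) (.su (.ofNat 2772878422995632128) (.q (.ofNat 1978) (.negSucc 527) 0) (.q (.negSucc 150) (.ofNat 41) 1)) (.q (.negSucc 150) (.ofNat 41) 1))) (.q (.negSucc 150) (.ofNat 41) 1)) (.q (.negSucc 150) (.ofNat 41) 1)) (.q (.negSucc 150) (.ofNat 41) 1))) (.su (.ofNat 2779574191110750208) (.q (.negSucc 150) (.ofNat 41) 1) (.su (.ofNat 2780514410991452160) (.q (.ofNat 1196) (.negSucc 318) 0) (.q (.negSucc 4) (.ofNat 2) 2)))) (.ss (.negSucc 1578596606666604543) (.ss (.negSucc 1579094273117126655) (.ss (.negSucc 1579343106342387711) (.ss (.negSucc 1579467522955018239) (.q (.ofNat 1963) (.ofNat 525) 1) (.q (.negSucc 165) (.negSucc 43) 0)) (.q (.negSucc 165) (.negSucc 43) 0)) (.q (.negSucc 165) (.negSucc 43) 0)) (.q (.negSucc 165) (.negSucc 43) 0)))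
def tcX310p1 : Tr := (.su (.ofNat 2759055105113194496) (.q (.negSucc 49) (.ofNat 14) 0) (.su (.ofNat 2766384449623949312) (.q (.ofNat 66) (.negSucc 16) 0) (.su (.ofNat 2770701132274597888) (.q (.ofNat 182) (.negSucc 47) 0) (.su (.ofNat 2780746270505959424) (.ss (.negSucc 1596816338972573695) (.q (.negSucc 64) (.negSucc 16) 1) (.ss (.negSucc 1585640902787858431) (.q (.ofNat 51) (.ofNat 14) 2) (.ss (.negSucc 1564310377209004031) (.ss (.negSucc 1577601273765560319) (.ss (.negSucc 1581696954579025919) (.q (.ofNat 167) (.ofNat 45) 1) tcX310p0) (.ss (.negSucc 1570955825487282175) (.ss (.negSucc 1574278549626421247) (.q (.negSucc 165) (.negSucc 43) 0) (.q (.negSucc 49) (.negSucc 12) 0)) (.q (.negSucc 49) (.negSucc 12) 0))) (.ss (.negSucc 1547448266885431295) (.q (.ofNat 66) (.ofNat 18) 0) (.ss (.negSucc 1543135707403386879) (.q (.ofNat 182) (.ofNat 49) 0) (.ss (.negSucc 1543009212026585087) (.q (.ofNat 8032) (.ofNat 2147) 0) (.sw (.ss (.negSucc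 1542978799363162111) (.q (.ofNat 34942) (.ofNat 9339) 0) (.q (.negSucc 4) (.negSucc 0) 1)) (.ss (.negSucc 1542978799363162111) (.q (.ofNat 34942) (.ofNat 9339) 0) (.q (.negSucc 4) (.negSucc 0) 1))))))))) (.su (.ofNat 2781954633784885248) (.su (.ofNat 2781350452145422336) (.su (.ofNat 2781048361325690880) (.ss (.negSucc 1574628194324054015) (.q (.negSucc 4) (.ofNat 2) 2) (.su (.ofNat 2780897315915825152) (.ss (.negSucc 1558801823953846271) (.q (.negSucc 4) (.ofNat 2) 2) (.su (.ofNat 2780746425124782080) (.q (.negSucc 5306) (.ofNat 1419) 1) (.su (.ofNat 2780821861930369024) (.ss (.negSucc 1550888638768742399) (.q (.negSucc 4) (.ofNat 2) 2) (.su (.ofNat 2780784143527575552) (.sw (.q (.negSucc 34) (.ofNat 10) 3) (.ss (.negSucc 1546932046176190463) (.q (.negSucc 4) (.ofNat 2) 2) (.su (.ofNat 2780765284326178816) (.q (.ofNat 8148) (.negSucc 2176) 0) (.q (.negSucc 4) (.ofNat 2) 2)))) (.q (.negSucc 4) (.ofNat 2) 2))) (.q (.negSucc 4) (.ofNat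 2) 2)))) (.q (.negSucc 4) (.ofNat 2) 2))) (.q (.negSucc 4) (.ofNat 2) 2)) (.q (.negSucc 4) (.ofNat 2) 2)) (.q (.negSucc 4) (.ofNat 2) 2))))))
def tcX310p2 : Tr := (.su (.ofNat 2783162997063811072) (.ss (.negSucc 1664713381010997247) (.q (.ofNat 2) (.ofNat 1) 0) (.ss (.negSucc 1421659738621345791) (.ss (.negSucc 1542975453583638527) (.ss (.negSucc 1606280935064469503) (.q (.ofNat 6) (.ofNat 2) 0) tcX310p1) (.ss (.negSucc 1482317596102492159) (.ss (.negSucc 1512646524843065343) (.ss (.negSucc 1527810989213351935) (.ss (.negSucc 1535393221398495231) (.ss (.negSucc 1542963908711546879) (.su (.ofNat 2781476346226802688) (.q (.negSucc 4) (.negSucc 0) 1) (.q (.negSucc 4) (.ofNat 2) 2)) (.ss (.negSucc 1539178839932927999) (.ss (.negSucc 1541071374322237439) (.ss (.negSucc 1542017641516892159) (.ss (.negSucc 1542490775114219519) (.ss (.negSucc 1542963393315471359) (.sw (.sw (.q (.negSucc 1946) (.negSucc 519) 4) (.q (.negSucc 55766) (.negSucc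 14903) 4)) (.q (.negSucc 1946) (.negSucc 519) 3)) (.ss (.negSucc 1542727101394714623) (.su (.ofNat 2765388292089184256) (.q (.negSucc 4) (.negSucc 0) 1) (.ss (.negSucc 1542845247355092991) (.su (.ofNat 2774275644576497664) (.q (.negSucc 4) (.negSucc 0) 1) (.ss (.negSucc 1542904320335282175) (.su (.ofNat 2778719320820154368) (.q (.negSucc 4) (.negSucc 0) 1) (.sw (.q (.negSucc 34) (.ofNat 10) 3) (.q (.negSucc 1946) (.negSucc 519) 3))) (.q (.negSucc 4) (.negSucc 0) 1))) (.q (.negSucc 4) (.negSucc 0) 1))) (.q (.negSucc 4) (.negSucc 0) 1))) (.q (.negSucc 4) (.negSucc 0) 1)) (.q (.negSucc 4) (.negSucc 0) 1)) (.q (.negSucc 4) (.negSucc 0) 1)) (.q (.negSucc 4) (.negSucc 0) 1))) (.q (.negSucc 4) (.negSucc 0) 1)) (.q (.negSucc 4) (.negSucc 0) 1)) (.q (.negSucc 4) (.negSucc 0) 1)) (.q (.negSucc 4) (.negSucc 0) 1))) (.ss (.negSucc 1287783202823340031) (.ss (.negSucc 1354721470722342911) (.q (.ofNat 10) (.ofNat 3) 0) (.q (.negSucc 0) (.ofNat 0) 2))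 (.q (.negSucc 0) (.ofNat 0) 2)))) (.su (.ofNat 2834558568592572416) (.su (.ofNat 2808860782828191744) (.su (.ofNat 2796011889946001408) (.su (.ofNat 2789587443504906240) (.su (.ofNat 2786375220284358656) (.ss (.negSucc 1580481994230333439) (.q (.negSucc 4) (.ofNat 2) 2) (.su (.ofNat 2784769108674084864) (.ss (.negSucc 1154399248234577919) (.q (.negSucc 4) (.ofNat 2) 2) (.q (.negSucc 0) (.ofNat 0) 2)) (.q (.negSucc 4) (.ofNat 2) 2))) (.q (.negSucc 4) (.ofNat 2) 2)) (.q (.negSucc 4) (.ofNat 2) 2)) (.q (.negSucc 4) (.ofNat 2) 2)) (.q (.negSucc 4) (.ofNat 2) 2)) (.q (.negSucc 4) (.ofNat 2) 2)))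
def tcX310 : Tr := (.su (.ofNat 2885962936214355968) tcX310p2 (.su (.ofNat 3022953288942223360) (.su (.ofNat 2954458112578289664) (.q (.ofNat 10) (.negSucc 1) 0) (.q (.negSucc 0) (.ofNat 1) 1)) (.q (.negSucc 0) (.ofNat 1) 1)))
def g_tcX310 : Rg := ⟨(.ofNat 2747614584070339142), (.ofNat 3159960341049328806), (.negSucc 2007038836442481829), (.negSucc 1153876923033406874), 1, 0, 3⟩
theorem ok_tcX310 : check 3 false g_tcX310 tcX310 = true := by decide +kernel

def trD : Tr := (.su (.ofNat 688769268010975232) (.q (.ofNat 0) (.ofNat 0) 0) (.su (.ofNat 1033013164528107520) (.q (.negSucc 2) (.ofNat 1) 0) (.su (.ofNat 1601874092460343296) (.q (.ofNat 1) (.ofNat 0) 0) (.ss (.negSucc 1711930808354209791) (.q (.ofNat 2) (.ofNat 1) 0) (.ss (.ofNat 194780683883773952) (.ss (.negSucc 543809655004987391) (.ss (.negSucc 1127870231679598591) (.su (.ofNat 2167568426904584192) (.ss (.negSucc 1600537086320967679) (.ss (.negSucc 1603571738413629439) (.q (.ofNat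 6) (.ofNat 2) 0) (.q (.ofNat 51) (.ofNat 14) 0)) (.ss (.negSucc 1364203659000283135) (.ss (.negSucc 1482370372660625407) (.ss (.negSucc 1541453729490796543) (.su (.ofNat 1884721259682463744) (.q (.negSucc 0) (.ofNat 0) 0) (.q (.negSucc 1) (.ofNat 1) 0)) (.q (.negSucc 0) (.ofNat 0) 0)) (.q (.negSucc 0) (.ofNat 0) 0)) (.q (.negSucc 0) (.ofNat 0) 0))) (.su (.ofNat 2675701128611495936) (.q (.ofNat 2) (.ofNat 0) 0) (.ss (.negSucc 1153906667025334271) (.v false 0 (.ofNat 1) (.ofNat 1)) .o))) (.su (.ofNat 1873004863776882688) (.ss (.negSucc 661818038990929919) (.q (.negSucc 0) (.ofNat 0) 0) (.q (.ofNat 0) (.ofNat 0) 0)) (.su (.ofNat 2303168996934942720) (.su (.ofNat 2088086930355912704) (.q (.negSucc 1) (.ofNat 1) 0) (.q (.ofNat 2) (.ofNat 0) 0)) .o))) (.ss (.negSucc 174514485560606719) (.ss (.negSucc 359162070282797055) (.su (.ofNat 2167568426904584192) (.q (.ofNat 0) (.ofNat 0) 0) .o) .o) .o)) .o)))))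
def g_trD : Rg := ⟨(.negSucc 4095), (.ofNat 2733379384344795425), (.negSucc 2156918632041371936), (.ofNat 576460752303427584), 0, 0, 0⟩
theorem ok_trD : checkR true g_trD trD = true := by decide +kernel

def trX000 : Tr := (.su (.ofNat 2816333063850557440) (.su (.ofNat 2750810966928130048) (.q (.negSucc 49) (.ofNat 14) 0) (.su (.ofNat 2783572015389343744) (.su (.ofNat 2767191491158736896) (.q (.ofNat 66) (.negSucc 16) 0) (.q (.negSucc 4) (.ofNat 2) 0)) (.q (.negSucc 4) (.ofNat 2) 0))) (.su (.ofNat 2988138352760324096) (.su (.ofNat 2902235708305440768) (.q (.negSucc 4) (.ofNat 2) 0) (.q (.negSucc 0) (.ofNat 1) 0)) (.q (.negSucc 0) (.ofNat 1) 0)))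
def g_trX000 : Rg := ⟨(.ofNat 2747614584070339142), (.ofNat 3159960341049328806), (.negSucc 2007038836442481829), (.negSucc 1153876923033406874), 0, 0, 0⟩
theorem ok_trX000 : checkR false g_trX000 trX000 = true := by decide +kernel

end Pool.Agent.H.MP_5e03f8_nt
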