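import Pool.Agent.H.MP_5e03f8_nt.CheckSound
import Pool.Agent.H.MP_5e03f8_nt.Data

namespace Pool.Agent.H.MP_5e03f8_nt

theorem inX {n x y : ℤ} (hn : 0 < n)
    (h1 : 2 * (37 / 100) * n < (2 * x - n + (2 * y - n) * r14 : ℝ) * ep)
    (h2 : (2 * x - n + (2 * y - n) * r14 : ℝ) ≤ 2 * (37 / 100) * n)
    (h3 : |(2 * x - n - (2 * y - n) * r14 : ℝ)| ≤ 2 * (37 / 100) * n) :
    (((.ofNat 2747614584070339142 : ℤ)) : ℝ) * n ≤ SC * (x + y * r14) ∧
    SC * (x + y * r14) ≤ (((.ofNat 3159960341049328806 : ℤ)) : ℝ) * n ∧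
    (((.negSucc 2007038836442481829 : ℤ)) : ℝ) * n ≤ SC * (x - y * r14) ∧
    SC * (x - y * r14) ≤ (((.negSucc 1153876923033406874 : ℤ)) : ℝ) * n := by
  have hn' : (0 : ℝ) < n := by exact_mod_cast hn
  have r1 := rho_lo
  have r2 := rho_hi
  have hpos : (0 : ℝ) < 15 - 4 * r14 := by rw [← ep_inv]; exact inv_pos.2 ep_pos
  have h1' : 2 * (37 / 100) * n * (15 - 4 * r14) < (2 * x - n + (2 * y - n) * r14 : ℝ) := by
    have := mul_lt_mul_of_pos_right h1 hpos
    rw [mul_assoc _ ep, ep_mul, mul_one] at this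
    exact this
  obtain ⟨h3a, h3b⟩ := abs_le.1 h3
  have e1 : (((.ofNat 2747614584070339142 : ℤ)) : ℝ) = 2747614584070339142 := by norm_num
  have e2 : (((.ofNat 3159960341049328806 : ℤ)) : ℝ) = 3159960341049328806 := by norm_num
  have e3 : (((.negSucc 2007038836442481829 : ℤ)) : ℝ) = -2007038836442481830 := by
    rw [Int.negSucc_eq]; norm_num
  have e4 : (((.negSucc 1153876923033406874 : ℤ)) : ℝ) = -1153876923033406875 := by
    rw [Int.negSucc_eq]; norm_num
  rw [e1, e2, e3, e4]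
  have m1 := mul_le_mul_of_nonneg_left r1 hn'.le
  have m2 := mul_le_mul_of_nonneg_left r2 hn'.le
  norm_num [SC, rho] at m1 m2 ⊢
  refine ⟨?_, ?_, ?_, ?_⟩ <;> linarith

theorem dvd_class {n x a w : ℤ} {N : ℤ} (h : N ∣ x - n * a) (h2 : N ∣ a - w) : N ∣ x - n * w := by
  have : x - n * w = (x - n * a) + n * (a - w) := by ring
  rw [this]; exact dvd_add h (Dvd.dvd.mul_left h2 n)

theorem LV_cases (a b : ℤ) :
    (LV a b = 0 → (a % 4 = 0 ∧ b % 2 = 0) ∨ (a % 4 = 1 ∧ b % 2 = 1)) ∧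
    (LV a b = 1 → (a % 4 = 2 ∧ b % 2 = 1) ∨ (a % 4 = 3 ∧ b % 2 = 0)) ∧
    (LV a b = 2 → (a % 4 = 2 ∧ b % 2 = 0) ∨ (a % 4 = 3 ∧ b % 2 = 1)) ∧
    (LV a b = 3 → (a % 4 = 0 ∧ b % 2 = 1) ∨ (a % 4 = 1 ∧ b % 2 = 0)) := by
  have ha : a % 4 = 0 ∨ a % 4 = 1 ∨ a % 4 = 2 ∨ a % 4 = 3 := by omega
  have hb : b % 2 = 0 ∨ b % 2 = 1 := by omega
  unfold LV
  rcases ha with ha | ha | ha | ha <;> rcases hb with hb | hb <;>
  · rw [ha, hb]; simp

/-- level lemma from certificates -/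
theorem VL_of {l : ℕ} {wa wb wa' wb' : ℤ} {t t' : Tr} (hV : ∀ l' < l, VL (1121 / 1000) l')
    (hcase : ∀ a b : ℤ, LV a b = l → (a % 4 = wa ∧ b % 2 = wb) ∨ (a % 4 = wa' ∧ b % 2 = wb'))
    (h1 : check l false ⟨(.ofNat 2747614584070339142), (.ofNat 3159960341049328806), (.negSucc 2007038836442481829), (.negSucc 1153876923033406874), wa, wb, 3⟩ t = true)
    (h2 : check l false ⟨(.ofNat 2747614584070339142), (.ofNat 3159960341049328806), (.negSucc 2007038836442481829), (.negSucc 1153876923033406874), wa', wb', 3⟩ t' = true) :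
    VL (1121 / 1000) l := by
  intro x y n hn hodd hcl j hnear
  rw [cov_iff]
  refine exit_arg _ (fun a b => LV a b = l) hn ?_ ?_ ?_ ?_ hcl hnear
  · intro a b
    have ha : a % 4 = 0 ∨ a % 4 = 1 ∨ a % 4 = 2 ∨ a % 4 = 3 := by omega
    have hb : b % 2 = 0 ∨ b % 2 = 1 := by omega
    have : LV (1 - a) (1 - b) = LV a b := by
      unfold LV
      rcases ha with ha | ha | ha | ha <;> rcases hb with hb | hb <;>
      · rw [ha, hb, show (1 - a) % 4 = (1 - a % 4) % 4 by omega, show (1 - b) % 2 = (1 - b % 2) % 2 by omega, ha, hb]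
        rfl
    rw [this]
  · intro a b a' b' h3 h4
    rw [h3, h4]
  · intro x y hcl k1 k2 k3
    obtain ⟨q1, q2, q3, q4⟩ := inX hn k1 k2 k3
    obtain ⟨a, b, ha, hb, hl⟩ := hcl
    rw [← cov_iff]
    rcases hcase a b hl with ⟨c1, c2⟩ | ⟨c1, c2⟩
    · apply check_sound l false hV t _ h1 x y n hn hodd ?_ (by simp)
      refine ⟨q1, q2, q3, q4, ?_, ?_⟩
      · show (2 : ℤ) ^ ((3 + 1) / 2) ∣ x - n * wa
        norm_num
        apply dvd_class ha; omega
      · show (2 : ℤ) ^ (3 / 2) ∣ y - n * wb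
        norm_num
        apply dvd_class hb; omega
    · apply check_sound l false hV t' _ h2 x y n hn hodd ?_ (by simp)
      refine ⟨q1, q2, q3, q4, ?_, ?_⟩
      · show (2 : ℤ) ^ ((3 + 1) / 2) ∣ x - n * wa'
        norm_num
        apply dvd_class ha; omega
      · show (2 : ℤ) ^ (3 / 2) ∣ y - n * wb'
        norm_num
        apply dvd_class hb; omega
  · rintro ⟨h3, h4⟩
    apply hodd
    exact ⟨x, by linarith⟩

theorem VL0 : VL (1121 / 1000) 0 :=
  VL_of (by intro l' h; omega) (fun a b h => (LV_cases a b).1 h) ok_tcX000 ok_tcX011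

theorem VL1 : VL (1121 / 1000) 1 :=
  VL_of (by
    intro l' h
    interval_cases l'
    exact VL0) (fun a b h => (LV_cases a b).2.1 h) ok_tcX121 ok_tcX130

theorem VL2 : VL (1121 / 1000) 2 :=
  VL_of (by
    intro l' h
    interval_cases l'
    · exact VL0
    · exact VL1) (fun a b h => (LV_cases a b).2.2.1 h) ok_tcX220 ok_tcX231

theorem VL3 : VL (1121 / 1000) 3 :=
  VL_of (by
    intro l' h
    interval_cases l'
    · exact VL0
    · exact VL1
    · exact VL2) (fun a b h => (LV_cases a b).2.2.2 h) ok_tcX301 ok_tcX310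

theorem VR_true : VR := by
  intro x y n hn hne j hnear
  rw [covR_iff]
  have hcl : ∃ a b : ℤ, (4 : ℤ) ∣ x - n * a ∧ (2 : ℤ) ∣ y - n * b ∧ True ∨ ¬ (2 * x - n = 0 ∧ 2 * y - n = 0) := ⟨0, 0, Or.inr hne⟩
  -- the residue classes play no role here: run the exit argument directly
  have hn' : (0 : ℝ) < n := by exact_mod_cast hn
  obtain ⟨h1, h2⟩ := hnear
  have hd : (2 * x - n + (2 * y - n) * r14 : ℝ) ≠ 0 := by
    have := lin_ne hne
    push_cast at this
    exact this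
  obtain ⟨i, hi1, hi2⟩ := exists_exp hd (B := 2 * (37 / 100) * n) (by positivity)
  have hji : j ≤ i := by
    apply exp_le hi1
    rw [abs_mul, abs_of_pos (zpow_pos ep_pos _)]
    have := mul_le_mul_of_nonneg_left h1 (zpow_pos ep_pos j).le
    rw [zpow_neg] at this
    have h3 : ep ^ j * (2 * (37 / 100) * n * (ep ^ j)⁻¹) = 2 * (37 / 100) * n := by
      have := (zpow_pos ep_pos j).ne'
      field_simp
    rwa [h3] at this
  obtain ⟨x', y', e1, e2, e3, e4⟩ := iterV n i x y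
  apply e4
  have hd' : (2 * x' - n + (2 * y' - n) * r14 : ℝ) ≠ 0 := by
    rw [e1]; exact mul_ne_zero (zpow_pos ep_pos _).ne' hd
  rw [← e1] at hi1 hi2
  have hs : |(2 * x' - n - (2 * y' - n) * r14 : ℝ)| ≤ 2 * (37 / 100) * n := by
    rw [e2, abs_mul, abs_of_pos (zpow_pos ep_pos _)]
    have h5 := mul_le_mul_of_nonneg_left h2 (zpow_pos ep_pos (-i)).le
    have h6 : ep ^ (-i) * (2 * (37 / 100) * n * ep ^ j) = 2 * (37 / 100) * n * ep ^ (j - i) := by
      rw [zpow_sub₀ ep_pos.ne', zpow_neg]; field_simp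
    rw [h6] at h5
    have h7 : ep ^ (j - i) ≤ 1 := by
      rw [← zpow_zero ep]
      exact zpow_le_zpow_right₀ ep_gt.le (by omega)
    have h8 := mul_le_mul_of_nonneg_left h7 (show (0 : ℝ) ≤ 2 * (37 / 100) * n by positivity)
    linarith
  have key : ∀ x y : ℤ, 2 * (37 / 100) * n < (2 * x - n + (2 * y - n) * r14 : ℝ) * ep →
      (2 * x - n + (2 * y - n) * r14 : ℝ) ≤ 2 * (37 / 100) * n →
      |(2 * x - n - (2 * y - n) * r14 : ℝ)| ≤ 2 * (37 / 100) * n → CovR x y n := by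
    intro x y k1 k2 k3
    obtain ⟨q1, q2, q3, q4⟩ := inX hn k1 k2 k3
    refine checkR_sound false (by simp) _ _ ok_trX000 x y n hn ?_ ⟨q1, q2, q3, q4, ?_, ?_⟩ rfl (by simp)
    · -- not an exceptional point
      rintro p q ⟨hp, hq⟩
      -- then `δ₁ = n (p + q √14)`, `δ₂ = n (p - q √14)` with product at least one, impossible
      have hp' : (2 * (x : ℝ) - n) = 2 * n * p := by
        have : 2 * x - n = 2 * n * p := by linarith
        exact_mod_cast this
      have hq' : (2 * (y : ℝ) - n) = 2 * n * q := by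
        have : 2 * y - n = 2 * n * q := by linarith
        exact_mod_cast this
      rw [hp', hq'] at k1 k2 k3
      have hpq : ¬ (p = 0 ∧ q = 0) := by
        rintro ⟨rfl, rfl⟩
        simp at k1
        nlinarith
      have hN : (1 : ℝ) ≤ |((p : ℝ) + q * r14) * ((p : ℝ) - q * r14)| := by
        have : ((p : ℝ) + q * r14) * ((p : ℝ) - q * r14) = ((p ^ 2 - 14 * q ^ 2 : ℤ) : ℝ) := by
          push_cast; linear_combination (-(q : ℝ) ^ 2) * r14_sq
        rw [this]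
        have h0 : p ^ 2 - 14 * q ^ 2 ≠ 0 := by
          intro h; apply hpq; apply int_sq_ne; linarith
        exact_mod_cast Int.one_le_abs h0
      have a1 : |(p : ℝ) + q * r14| ≤ 37 / 100 := by
        rw [abs_le]
        constructor
        · have : 0 < (2 * n * p + 2 * n * q * r14 : ℝ) := by
            by_contra hcon
            push Not at hcon
            have := mul_nonpos_of_nonpos_of_nonneg hcon ep_pos.le
            nlinarith
          nlinarith
        · nlinarith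
      have a2 : |(p : ℝ) - q * r14| ≤ 37 / 100 := by
        rw [abs_le] at k3 ⊢
        constructor <;> nlinarith [k3.1, k3.2]
      rw [abs_mul] at hN
      have := mul_le_mul a1 a2 (abs_nonneg _) (by norm_num)
      linarith
    · exact ⟨x - n * 0, by simp [g_trX000]⟩
    · exact ⟨y - n * 0, by simp [g_trX000]⟩
  rw [← covR_iff]
  rcases le_total 0 (2 * x' - n + (2 * y' - n) * r14 : ℝ) with hpos | hneg
  · rw [abs_of_nonneg hpos] at hi1 hi2
    exact key x' y' hi1 hi2 hs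
  · rw [abs_of_nonpos hneg] at hi1 hi2
    rw [covR_iff]
    apply CovF.trans 1 1
    apply CovF.neg
    have e5 : (2 * ((-(x' - n * 1) : ℤ) : ℝ) - n + (2 * ((-(y' - n * 1) : ℤ) : ℝ) - n) * r14 : ℝ) =
      - (2 * x' - n + (2 * y' - n) * r14 : ℝ) := by push_cast; ring
    have e6 : (2 * ((-(x' - n * 1) : ℤ) : ℝ) - n - (2 * ((-(y' - n * 1) : ℤ) : ℝ) - n) * r14 : ℝ) =
      - (2 * x' - n - (2 * y' - n) * r14 : ℝ) := by push_cast; ring
    rw [← covR_iff]
    apply key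
    · rw [e5]; exact hi1
    · rw [e5]; exact hi2
    · rw [e6, abs_neg]; exact hs

/-- the base region -/
theorem inD {n x y : ℤ} (hn : 0 < n) (hb : 0 ≤ x ∧ 2 * x ≤ n ∧ 0 ≤ y ∧ 2 * y ≤ n) :
    InRg ⟨(.negSucc 4095), (.ofNat 2733379384344795425), (.negSucc 2156918632041371936), (.ofNat 576460752303427584), 0, 0, 0⟩ x y n := by
  obtain ⟨b1, b2, b3, b4⟩ := hb
  have hn' : (0 : ℝ) < n := by exact_mod_cast hn
  have b1' : (0 : ℝ) ≤ x := by exact_mod_cast b1
  have b2' : 2 * (x : ℝ) ≤ n := by exact_mod_cast b2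
  have b3' : (0 : ℝ) ≤ y := by exact_mod_cast b3
  have b4' : 2 * (y : ℝ) ≤ n := by exact_mod_cast b4
  have r2 := rho_hi
  have hr0 := r14_pos
  have m1 : (y : ℝ) * r14 * SC ≤ n / 2 * ((rho + 1 : ℤ) : ℝ) := by
    have h1 : (y : ℝ) * (SC * r14) ≤ n / 2 * (SC * r14) := by
      have := SC_pos
      apply mul_le_mul_of_nonneg_right (by linarith) (by positivity)
    have h2 : (n : ℝ) / 2 * (SC * r14) ≤ n / 2 * ((rho + 1 : ℤ) : ℝ) := mul_le_mul_of_nonneg_left r2 (by positivity)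
    linarith
  have m2 : 0 ≤ (y : ℝ) * r14 := by positivity
  refine ⟨?_, ?_, ?_, ?_, by simp, by simp⟩
  · show (((.negSucc 4095 : ℤ)) : ℝ) * n ≤ _
    rw [Int.negSucc_eq]; norm_num [SC, rho] at m1 ⊢; linarith
  · show _ ≤ (((.ofNat 2733379384344795425 : ℤ)) : ℝ) * n
    norm_num [SC, rho] at m1 ⊢; linarith
  · show (((.negSucc 2156918632041371936 : ℤ)) : ℝ) * n ≤ _
    rw [Int.negSucc_eq]; norm_num [SC, rho] at m1 ⊢; linarith
  · show _ ≤ (((.ofNat 576460752303427584 : ℤ)) : ℝ) * n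
    norm_num [SC, rho] at m1 ⊢; linarith

/-- reduction to the base region -/
theorem reduce_base {n : ℤ} (hn : 0 < n) (P : ℤ → Prop) (x y : ℤ) :
    ∃ x' y' : ℤ, (0 ≤ x' ∧ 2 * x' ≤ n ∧ 0 ≤ y' ∧ 2 * y' ≤ n) ∧ (CovF P x' y' n → CovF P x y n) ∧
      (∀ p q : ℤ, (2 * x' - n * (2 * p + 1) = 0 ∧ 2 * y' - n * (2 * q + 1) = 0) →
        ∃ p' q' : ℤ, (2 * x - n * (2 * p' + 1) = 0 ∧ 2 * y - n * (2 * q' + 1) = 0)) := by
  -- first make `0 ≤ 2 x ≤ n` up to sign
  have key : ∀ z : ℤ, ∃ a : ℤ, (0 ≤ z - n * a ∧ 2 * (z - n * a) ≤ n) ∨ (z - n * a < 0 ∧ -n < 2 * (z - n * a)) := by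
    intro z
    have h1 : 0 ≤ z % n := Int.emod_nonneg _ hn.ne'
    have h2 : z % n < n := Int.emod_lt_of_pos _ hn
    have h3 : z % n = z - n * (z / n) := by rw [Int.emod_def]
    by_cases h : 2 * (z % n) ≤ n
    · exact ⟨z / n, Or.inl ⟨by rw [← h3]; exact h1, by rw [← h3]; exact h⟩⟩
    · refine ⟨z / n + 1, Or.inr ⟨?_, ?_⟩⟩
      · have : z - n * (z / n + 1) = z % n - n := by rw [h3]; ring
        rw [this]; linarith
      · have : z - n * (z / n + 1) = z % n - n := by rw [h3]; ring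
        rw [this]; linarith
  obtain ⟨a, ha⟩ := key x
  obtain ⟨b, hb⟩ := key y
  rcases ha with ⟨ha1, ha2⟩ | ⟨ha1, ha2⟩
  · rcases hb with ⟨hb1, hb2⟩ | ⟨hb1, hb2⟩
    · refine ⟨x - n * a, y - n * b, ⟨ha1, ha2, hb1, hb2⟩, CovF.trans a b, ?_⟩
      rintro p q ⟨h1, h2⟩
      exact ⟨p + a, q + b, by linarith, by linarith⟩
    · refine ⟨x - n * a, -(y - n * b), ⟨ha1, ha2, by linarith, by linarith⟩, fun h => CovF.trans a b h.conj, ?_⟩
      rintro p q ⟨h1, h2⟩
      exact ⟨p + a, b - q - 1, by linarith, by linarith⟩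
  · rcases hb with ⟨hb1, hb2⟩ | ⟨hb1, hb2⟩
    · refine ⟨-(x - n * a), y - n * b, ⟨by linarith, by linarith, hb1, hb2⟩, fun h => CovF.trans a b ?_, ?_⟩
      · apply CovF.neg; apply CovF.conj; rwa [neg_neg]
      · rintro p q ⟨h1, h2⟩
        exact ⟨a - p - 1, q + b, by linarith, by linarith⟩
    · refine ⟨-(x - n * a), -(y - n * b), ⟨by linarith, by linarith, by linarith, by linarith⟩, fun h => CovF.trans a b h.neg, ?_⟩
      rintro p q ⟨h1, h2⟩
      exact ⟨a - p - 1, b - q - 1, by linarith, by linarith⟩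

/-- Part I: every point with odd denominator is covered. -/
theorem cover_odd {n : ℤ} (hn : 0 < n) (hodd : ¬ (2 : ℤ) ∣ n) (x y : ℤ) : Cov (1121 / 1000) x y n := by
  rw [cov_iff]
  obtain ⟨x', y', hb, hcov, -⟩ := reduce_base hn (fun N => |(N : ℝ)| * (1121 / 1000) ^ (padicValInt 2 N) < (n : ℝ) ^ 2) x y
  apply hcov
  rw [← cov_iff]
  refine check_sound 4 true ?_ _ _ ok_tcD x' y' n hn hodd (inD hn hb) (fun _ => hb)
  intro l hl
  interval_cases l
  · exact VL0
  · exact VL1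
  · exact VL2
  · exact VL3

/-- Part II: the real covering. -/
theorem cover_real {n : ℤ} (hn : 0 < n) (x y : ℤ)
    (hne : ∀ p q : ℤ, ¬ (2 * x - n * (2 * p + 1) = 0 ∧ 2 * y - n * (2 * q + 1) = 0)) : CovR x y n := by
  rw [covR_iff]
  obtain ⟨x', y', hb, hcov, hex⟩ := reduce_base hn (fun N => 1000 * |(N : ℝ)| < 1118 * (n : ℝ) ^ 2) x y
  apply hcov
  rw [← covR_iff]
  refine checkR_sound true (fun _ => VR_true) _ _ ok_trD x' y' n hn ?_ (inD hn hb) rfl (fun _ => hb)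
  intro p q h
  obtain ⟨p', q', h'⟩ := hex p q h
  exact hne p' q' h'

end Pool.Agent.H.MP_5e03f8_nt
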