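import Mathlib

/-!
Definitions for problem MP_5e03f8_nt (weighted norms and Euclidean windows).
-/

namespace Pool.Agent.H.MP_5e03f8_nt

open UniqueFactorizationMonoid

/-- The function `φ` on (prime) ideals of `R`: it takes the value `c` at `𝔭` and the
absolute norm at every other ideal. -/
noncomputable def phi {R : Type*} [CommRing R] [IsDedekindDomain R]
    [Module.Free ℤ R] (𝔭 : Ideal R) (c : ℝ) (𝔮 : Ideal R) : ℝ := by
  classical exact if 𝔮 = 𝔭 then c else (Ideal.absNorm 𝔮 : ℝ)

/-- The weighted norm `f_{𝔭,c}` on `R`: `0` at `0`, and at `α ≠ 0` the product of `φ(𝔮)` over the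
prime ideals `𝔮` in the factorisation of the principal ideal `(α)`, with multiplicity. -/
noncomputable def weightedNorm {R : Type*} [CommRing R] [IsDedekindDomain R]
    [Module.Free ℤ R] (𝔭 : Ideal R) (c : ℝ) (α : R) : ℝ := by
  classical exact if α = 0 then 0 else
    ((normalizedFactors (Ideal.span {α})).map (phi 𝔭 c)).prod

/-- A Euclidean function on a commutative ring: a nonnegative function with finitely many values
in each bounded interval, vanishing exactly at `0`, and allowing division with remainder. -/
structure IsEuclideanFunction {R : Type*} [CommRing R] (f : R → ℝ) : Prop where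
  nonneg : ∀ r, 0 ≤ f r
  finite_values : ∀ l : ℝ, 0 ≤ l → (Set.range f ∩ Set.Icc 0 l).Finite
  eq_zero_iff : ∀ r, f r = 0 ↔ r = 0
  exists_remainder : ∀ a b, b ≠ 0 → ∃ q, f (a - b * q) < f b

/-- The Euclidean window `w(𝔭)`. -/
def window {R : Type*} [CommRing R] [IsDedekindDomain R]
    [Module.Free ℤ R] (𝔭 : Ideal R) : Set ℝ :=
  {c | 0 < c ∧ IsEuclideanFunction (weightedNorm 𝔭 c)}

end Pool.Agent.H.MP_5e03f8_nt
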