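import Pool.Agent.H.MP_5e03f8_nt.Inv

namespace Pool.Agent.H.MP_5e03f8_nt

theorem r14_gt : 3.7416 < r14 := by
  unfold r14
  apply Real.lt_sqrt_of_sq_lt
  norm_num

theorem r14_lt : r14 < 3.7417 := by
  unfold r14
  rw [Real.sqrt_lt' (by norm_num)]
  norm_num

theorem int_sq_ne {p q : ℤ} (h : p ^ 2 = 14 * q ^ 2) : p = 0 ∧ q = 0 := by
  by_cases hq : q = 0
  · subst hq
    refine ⟨?_, rfl⟩
    have : p ^ 2 = 0 := by rw [h]; ring
    exact pow_eq_zero_iff (two_ne_zero) |>.1 this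
  · exfalso
    have h14 : ¬ IsSquare (14 : ℤ) := by
      intro ⟨x, hx⟩
      have h1 : x ≤ 4 := by nlinarith
      have h2 : -4 ≤ x := by nlinarith
      interval_cases x <;> omega
    have : Irrational (Real.sqrt ((14 : ℤ) : ℝ)) := (irrational_sqrt_intCast_iff).2 ⟨h14, by norm_num⟩
    apply this
    have hq' : (q : ℝ) ≠ 0 := by exact_mod_cast hq
    refine ⟨|(p : ℚ) / q|, ?_⟩
    have h3 : (((p : ℚ) / q : ℚ) : ℝ) ^ 2 = 14 := by
      push_cast
      rw [div_pow]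
      have : (p : ℝ) ^ 2 = 14 * (q : ℝ) ^ 2 := by exact_mod_cast h
      rw [this]; field_simp
    rw [show (((14 : ℤ) : ℝ)) = (((p : ℚ) / q : ℚ) : ℝ) ^ 2 by rw [h3]; norm_num, Real.sqrt_sq_eq_abs]
    push_cast; rfl

theorem lin_ne {p q : ℤ} (h : ¬ (p = 0 ∧ q = 0)) : (p : ℝ) + q * r14 ≠ 0 := by
  intro h0
  apply h
  apply int_sq_ne
  have h1 : (p : ℝ) ^ 2 = 14 * (q : ℝ) ^ 2 := by
    have : (p : ℝ) = - (q * r14) := by linarith
    rw [this]; linear_combination (q : ℝ) ^ 2 * r14_sq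
  exact_mod_cast h1

/-- choose the exponent so that the absolute value lands in a fundamental interval -/
theorem exists_exp {d B : ℝ} (hd : d ≠ 0) (hB : 0 < B) :
    ∃ i : ℤ, B < |ep ^ i * d| * ep ∧ |ep ^ i * d| ≤ B := by
  obtain ⟨m, hm1, hm2⟩ := exists_mem_Ioc_zpow (div_pos (abs_pos.2 hd) hB) ep_gt
  refine ⟨-(m + 1), ?_, ?_⟩
  · rw [abs_mul, abs_of_pos (zpow_pos ep_pos _), zpow_neg, zpow_add_one₀ ep_pos.ne']
    have h1 : 0 < ep ^ m := zpow_pos ep_pos _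
    rw [lt_div_iff₀ hB] at hm1
    have h2 : (ep ^ m * ep)⁻¹ * |d| * ep = |d| / ep ^ m := by
      have := ep_pos.ne'
      field_simp
    rw [h2, lt_div_iff₀ h1]
    linarith
  · rw [abs_mul, abs_of_pos (zpow_pos ep_pos _), zpow_neg]
    have h1 : 0 < ep ^ (m + 1) := zpow_pos ep_pos _
    rw [div_le_iff₀ hB] at hm2
    rw [inv_mul_le_iff₀ h1]
    linarith

/-- monotonicity of powers used in the exit argument -/
theorem exp_le {d B : ℝ} {i j : ℤ} (h1 : B < |ep ^ i * d| * ep) (h2 : |ep ^ j * d| ≤ B) : j ≤ i := by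
  by_contra hlt
  push Not at hlt
  have h3 : |ep ^ i * d| * ep = ep ^ (i + 1) * |d| := by
    rw [abs_mul, abs_of_pos (zpow_pos ep_pos _), zpow_add_one₀ ep_pos.ne']; ring
  have h4 : |ep ^ j * d| = ep ^ j * |d| := by
    rw [abs_mul, abs_of_pos (zpow_pos ep_pos _)]
  rw [h3] at h1
  rw [h4] at h2
  have h5 : ep ^ (i + 1) ≤ ep ^ j := zpow_le_zpow_right₀ ep_gt.le (by omega)
  have := mul_le_mul_of_nonneg_right h5 (abs_nonneg d)
  linarith

/-- membership in the small regions around the exceptional point -/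
def NearP (i : ℤ) (x y n : ℤ) : Prop :=
  |(2 * x - n + (2 * y - n) * r14 : ℝ)| ≤ 2 * (37 / 100) * n * ep ^ (-i) ∧
  |(2 * x - n - (2 * y - n) * r14 : ℝ)| ≤ 2 * (37 / 100) * n * ep ^ i

/-- The exit argument: a property invariant under the iteration which holds on the fundamental
region near the exceptional point holds near it. -/
theorem exit_arg (P : ℤ → Prop) (Q : ℤ → ℤ → Prop) {n : ℤ} (hn : 0 < n)
    (hQ : ∀ a b : ℤ, Q (1 - a) (1 - b) ↔ Q a b) (hQ2 : ∀ a b a' b' : ℤ, LV a' b' = LV a b → Q a b → Q a' b')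
    (hX : ∀ x y : ℤ, (∃ a b : ℤ, (4 : ℤ) ∣ x - n * a ∧ (2 : ℤ) ∣ y - n * b ∧ Q a b) →
      2 * (37 / 100) * n < (2 * x - n + (2 * y - n) * r14 : ℝ) * ep →
      (2 * x - n + (2 * y - n) * r14 : ℝ) ≤ 2 * (37 / 100) * n →
      |(2 * x - n - (2 * y - n) * r14 : ℝ)| ≤ 2 * (37 / 100) * n → CovF P x y n)
    {x y : ℤ} (hne : ¬ (2 * x - n = 0 ∧ 2 * y - n = 0))
    (hcl : ∃ a b : ℤ, (4 : ℤ) ∣ x - n * a ∧ (2 : ℤ) ∣ y - n * b ∧ Q a b) {j : ℤ} (h : NearP j x y n) :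
    CovF P x y n := by
  have hn' : (0 : ℝ) < n := by exact_mod_cast hn
  obtain ⟨h1, h2⟩ := h
  have hd : (2 * x - n + (2 * y - n) * r14 : ℝ) ≠ 0 := by
    have := lin_ne hne
    push_cast at this
    exact this
  obtain ⟨i, hi1, hi2⟩ := exists_exp hd (B := 2 * (37 / 100) * n) (by positivity)
  have hji : j ≤ i := by
    apply exp_le hi1
    rw [abs_mul, abs_of_pos (zpow_pos ep_pos _)]
    have := mul_le_mul_of_nonneg_left h1 (zpow_pos ep_pos j).le
    rw [zpow_neg] at this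
    have h3 : ep ^ j * (2 * (37 / 100) * n * (ep ^ j)⁻¹) = 2 * (37 / 100) * n := by
      have := (zpow_pos ep_pos j).ne'
      field_simp
    rwa [h3] at this
  obtain ⟨x', y', e1, e2, e3, e4⟩ := iterV n i x y
  apply e4
  rw [← e1] at hi1 hi2
  have hs : |(2 * x' - n - (2 * y' - n) * r14 : ℝ)| ≤ 2 * (37 / 100) * n := by
    rw [e2, abs_mul, abs_of_pos (zpow_pos ep_pos _)]
    have h5 := mul_le_mul_of_nonneg_left h2 (zpow_pos ep_pos (-i)).le
    have h6 : ep ^ (-i) * (2 * (37 / 100) * n * ep ^ j) = 2 * (37 / 100) * n * ep ^ (j - i) := by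
      rw [zpow_sub₀ ep_pos.ne', zpow_neg]; field_simp
    rw [h6] at h5
    have h7 : ep ^ (j - i) ≤ 1 := by
      rw [← zpow_zero ep]
      exact zpow_le_zpow_right₀ ep_gt.le (by omega)
    have h8 := mul_le_mul_of_nonneg_left h7 (show (0 : ℝ) ≤ 2 * (37 / 100) * n by positivity)
    linarith
  obtain ⟨a, b, ha, hb, hq⟩ := hcl
  obtain ⟨a', b', ha', hb', hl⟩ := e3 a b ha hb
  have hq' : Q a' b' := hQ2 _ _ _ _ hl hq
  rcases le_total 0 (2 * x' - n + (2 * y' - n) * r14 : ℝ) with hpos | hneg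
  · rw [abs_of_nonneg hpos] at hi1 hi2
    exact hX x' y' ⟨a', b', ha', hb', hq'⟩ hi1 hi2 hs
  · rw [abs_of_nonpos hneg] at hi1 hi2
    apply CovF.trans 1 1
    apply CovF.neg
    have e5 : (2 * ((-(x' - n * 1) : ℤ) : ℝ) - n + (2 * ((-(y' - n * 1) : ℤ) : ℝ) - n) * r14 : ℝ) =
      - (2 * x' - n + (2 * y' - n) * r14 : ℝ) := by push_cast; ring
    have e6 : (2 * ((-(x' - n * 1) : ℤ) : ℝ) - n - (2 * ((-(y' - n * 1) : ℤ) : ℝ) - n) * r14 : ℝ) =
      - (2 * x' - n - (2 * y' - n) * r14 : ℝ) := by push_cast; ring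
    apply hX
    · refine ⟨1 - a', 1 - b', ?_, ?_, (hQ _ _).2 hq'⟩
      · obtain ⟨k, hk⟩ := ha'
        exact ⟨-k, by linarith⟩
      · obtain ⟨k, hk⟩ := hb'
        exact ⟨-k, by linarith⟩
    · rw [e5]; exact hi1
    · rw [e5]; exact hi2
    · rw [e6, abs_neg]; exact hs

/-- points near zero in the prime ideal are covered by `±1` -/
theorem zlemma {n : ℤ} (hn : 0 < n) (hodd : ¬ (2 : ℤ) ∣ n) {x y : ℤ} (hx : (2 : ℤ) ∣ x)
    (h1 : |(x + y * r14 : ℝ)| ≤ 6 / 100 * n) (h2 : |(x - y * r14 : ℝ)| ≤ 6 / 100 * n) (κ : ℝ) :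
    Cov κ x y n := by
  have hn' : (0 : ℝ) < n := by exact_mod_cast hn
  have hr1 := r14_gt
  have hr2 := r14_lt
  rw [cov_iff]
  by_cases h0 : x = 0 ∧ y = 0
  · obtain ⟨rfl, rfl⟩ := h0
    refine ⟨0, 0, ?_⟩
    simp
    positivity
  obtain ⟨i, hi1, hi2⟩ := exists_exp (lin_ne h0) (B := 19 / 10 * n) (by positivity)
  have hji : 0 ≤ i - 1 + 1 := by
    have := exp_le (j := 0) hi1 (by simpa using h1.trans (by nlinarith))
    omega
  have hji1 : 1 ≤ i := by
    apply exp_le hi1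
    rw [zpow_one, abs_mul, abs_of_pos ep_pos]
    have := mul_le_mul_of_nonneg_left h1 ep_pos.le
    have h3 : ep < 30 := by unfold ep; linarith
    nlinarith
  obtain ⟨x', y', e1, e2, e3, e4⟩ := iterZ n i x y
  apply e4
  rw [← e1] at hi1 hi2
  have hs : |(x' - y' * r14 : ℝ)| ≤ 3 / 1000 * n := by
    rw [e2, abs_mul, abs_of_pos (zpow_pos ep_pos _)]
    have h5 : ep ^ (-i) ≤ ep ^ (-1 : ℤ) := zpow_le_zpow_right₀ ep_gt.le (by omega)
    rw [zpow_neg_one, ep_inv] at h5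
    have h6 : ep ^ (-i) ≤ 34 / 1000 := by linarith
    have h7 := mul_le_mul h6 h2 (abs_nonneg _) (by norm_num)
    nlinarith
  have hx' := e3 hx
  have key : ∀ x'' y'' : ℤ, (2 : ℤ) ∣ x'' → (19 / 10 * n < (x'' + y'' * r14 : ℝ) * ep) → ((x'' + y'' * r14 : ℝ) ≤ 19 / 10 * n) →
      (|(x'' - y'' * r14 : ℝ)| ≤ 3 / 1000 * n) → CovF (fun N => |(N : ℝ)| * κ ^ (padicValInt 2 N) < (n : ℝ) ^ 2) x'' y'' n := by
    intro x'' y'' hx2 k1 k2 k3
    refine ⟨1, 0, ?_⟩
    have hval : padicValInt 2 ((x'' - n * 1) ^ 2 - 14 * (y'' - n * 0) ^ 2) = 0 := by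
      apply padicValInt.eq_zero_of_not_dvd
      intro h
      have h' : (2 : ℤ) ∣ (x'' - n * 1) ^ 2 := by
        obtain ⟨k, hk⟩ := h
        refine ⟨k + 7 * (y'' - n * 0) ^ 2, ?_⟩
        push_cast at hk
        linarith
      have h'' := Int.prime_two.dvd_of_dvd_pow h'
      apply hodd
      have : n = x'' - (x'' - n * 1) := by ring
      rw [this]
      exact dvd_sub hx2 h''
    show |(((x'' - n * 1) ^ 2 - 14 * (y'' - n * 0) ^ 2 : ℤ) : ℝ)| * κ ^ (padicValInt 2 ((x'' - n * 1) ^ 2 - 14 * (y'' - n * 0) ^ 2)) < (n : ℝ) ^ 2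
    rw [hval, pow_zero, mul_one]
    have h3 : (((x'' - n * 1) ^ 2 - 14 * (y'' - n * 0) ^ 2 : ℤ) : ℝ) =
        ((x'' + y'' * r14 : ℝ) - n) * ((x'' - y'' * r14 : ℝ) - n) := by
      push_cast
      linear_combination ((y'' : ℝ)) ^ 2 * r14_sq
    rw [h3, abs_mul]
    have h4 : |(x'' + y'' * r14 : ℝ) - n| ≤ 94 / 100 * n := by
      rw [abs_le]
      constructor
      · have h5 : ep < 30 := by unfold ep; linarith
        have h6 : 0 < (x'' + y'' * r14 : ℝ) := by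
          by_contra hcon
          push Not at hcon
          have := mul_nonpos_of_nonpos_of_nonneg hcon ep_pos.le
          nlinarith
        nlinarith
      · linarith
    have h5 : |(x'' - y'' * r14 : ℝ) - n| ≤ 1003 / 1000 * n := by
      rw [abs_le] at k3 ⊢
      constructor <;> linarith [k3.1, k3.2]
    have h6 := mul_le_mul h4 h5 (abs_nonneg _) (by positivity)
    nlinarith
  rcases le_total 0 (x' + y' * r14 : ℝ) with hpos | hneg
  · rw [abs_of_nonneg hpos] at hi1 hi2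
    exact key x' y' hx' hi1 hi2 hs
  · rw [abs_of_nonpos hneg] at hi1 hi2
    apply CovF.neg
    apply key
    · exact (dvd_neg).2 hx'
    · push_cast; linarith
    · push_cast; linarith
    · push_cast
      rw [show (-(x' : ℝ) - -(y' : ℝ) * r14) = -(x' - y' * r14) by ring, abs_neg]
      exact hs

end Pool.Agent.H.MP_5e03f8_nt
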