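import Pool.Agent.H.MP_5e03f8_nt.Sound

namespace Pool.Agent.H.MP_5e03f8_nt

/-- some translate of the point has norm with the property `P` -/
def CovF (P : ℤ → Prop) (x y n : ℤ) : Prop := ∃ a b : ℤ, P ((x - n * a) ^ 2 - 14 * (y - n * b) ^ 2)

theorem CovF.trans {P : ℤ → Prop} {x y n : ℤ} (a b : ℤ) (h : CovF P (x - n * a) (y - n * b) n) :
    CovF P x y n := by
  obtain ⟨c, d, h⟩ := h
  refine ⟨a + c, b + d, ?_⟩
  rwa [show x - n * (a + c) = x - n * a - n * c by ring, show y - n * (b + d) = y - n * b - n * d by ring]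

theorem CovF.neg {P : ℤ → Prop} {x y n : ℤ} (h : CovF P (-x) (-y) n) : CovF P x y n := by
  obtain ⟨c, d, h⟩ := h
  refine ⟨-c, -d, ?_⟩
  rwa [show (x - n * -c) ^ 2 - 14 * (y - n * -d) ^ 2 = (-x - n * c) ^ 2 - 14 * (-y - n * d) ^ 2 by ring]

theorem CovF.conj {P : ℤ → Prop} {x y n : ℤ} (h : CovF P x (-y) n) : CovF P x y n := by
  obtain ⟨c, d, h⟩ := h
  refine ⟨c, -d, ?_⟩
  rwa [show (x - n * c) ^ 2 - 14 * (y - n * -d) ^ 2 = (x - n * c) ^ 2 - 14 * (-y - n * d) ^ 2 by ring]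

theorem CovF.eps {P : ℤ → Prop} {x y n : ℤ} (h : CovF P (15 * x + 56 * y) (4 * x + 15 * y) n) :
    CovF P x y n := by
  obtain ⟨c, d, h⟩ := h
  refine ⟨15 * c - 56 * d, -4 * c + 15 * d, ?_⟩
  rwa [show (x - n * (15 * c - 56 * d)) ^ 2 - 14 * (y - n * (-4 * c + 15 * d)) ^ 2 =
    (15 * x + 56 * y - n * c) ^ 2 - 14 * (4 * x + 15 * y - n * d) ^ 2 by ring]

theorem CovF.eps' {P : ℤ → Prop} {x y n : ℤ} (h : CovF P (15 * x - 56 * y) (-4 * x + 15 * y) n) :
    CovF P x y n := by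
  obtain ⟨c, d, h⟩ := h
  refine ⟨15 * c + 56 * d, 4 * c + 15 * d, ?_⟩
  rwa [show (x - n * (15 * c + 56 * d)) ^ 2 - 14 * (y - n * (4 * c + 15 * d)) ^ 2 =
    (15 * x - 56 * y - n * c) ^ 2 - 14 * (-4 * x + 15 * y - n * d) ^ 2 by ring]

theorem cov_iff {κ : ℝ} {x y n : ℤ} : Cov κ x y n ↔
    CovF (fun N => |(N : ℝ)| * κ ^ (padicValInt 2 N) < (n : ℝ) ^ 2) x y n := Iff.rfl

theorem covR_iff {x y n : ℤ} : CovR x y n ↔
    CovF (fun N => 1000 * |(N : ℝ)| < 1118 * (n : ℝ) ^ 2) x y n := Iff.rfl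

/-- the fundamental unit -/
noncomputable def ep : ℝ := 15 + 4 * r14

theorem ep_mul : ep * (15 - 4 * r14) = 1 := by
  unfold ep; linear_combination (-16) * r14_sq

theorem ep_gt : 1 < ep := by unfold ep; linarith [r14_pos]
theorem ep_pos : 0 < ep := by linarith [ep_gt]
theorem ep_inv : ep⁻¹ = 15 - 4 * r14 := by
  rw [inv_eq_one_div, div_eq_iff ep_pos.ne']; linarith [ep_mul]

/-- iterating multiplication by the unit, around the exceptional point `(1 + √14) / 2` -/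
theorem iterV (n : ℤ) (i : ℤ) : ∀ x y : ℤ, ∃ x' y' : ℤ,
    (2 * x' - n + (2 * y' - n) * r14 = ep ^ i * (2 * x - n + (2 * y - n) * r14)) ∧
    (2 * x' - n - (2 * y' - n) * r14 = ep ^ (-i) * (2 * x - n - (2 * y - n) * r14)) ∧
    (∀ a b : ℤ, (4 : ℤ) ∣ x - n * a → (2 : ℤ) ∣ y - n * b →
      ∃ a' b' : ℤ, (4 : ℤ) ∣ x' - n * a' ∧ (2 : ℤ) ∣ y' - n * b' ∧ LV a' b' = LV a b) ∧
    (∀ P : ℤ → Prop, CovF P x' y' n → CovF P x y n) := by
  have hLV : ∀ a b : ℤ, LV (1 - a) (1 - b) = LV a b := by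
    intro a b
    have ha : a % 4 = 0 ∨ a % 4 = 1 ∨ a % 4 = 2 ∨ a % 4 = 3 := by omega
    have hb : b % 2 = 0 ∨ b % 2 = 1 := by omega
    unfold LV
    rcases ha with ha | ha | ha | ha <;> rcases hb with hb | hb <;>
    · rw [ha, hb, show (1 - a) % 4 = (1 - a % 4) % 4 by omega, show (1 - b) % 2 = (1 - b % 2) % 2 by omega, ha, hb]
      rfl
  induction i using Int.induction_on with
  | zero =>
    intro x y
    refine ⟨x, y, by simp, by simp, fun a b h1 h2 => ⟨a, b, h1, h2, rfl⟩, fun P h => h⟩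
  | succ i ih =>
    intro x y
    obtain ⟨x', y', h1, h2, h3, h4⟩ := ih x y
    refine ⟨15 * x' + 56 * y' - n * 35, 4 * x' + 15 * y' - n * 9, ?_, ?_, ?_, ?_⟩
    · rw [zpow_add_one₀ ep_pos.ne']
      have : ep ^ (i : ℤ) * ep * (2 * x - n + (2 * y - n) * r14) = ep * (ep ^ (i : ℤ) * (2 * x - n + (2 * y - n) * r14)) := by ring
      rw [this, ← h1]
      push_cast
      unfold ep
      linear_combination (-4 * (2 * (y' : ℝ) - n)) * r14_sq
    · rw [neg_add, zpow_add₀ ep_pos.ne', zpow_neg_one, ep_inv]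
      have : ep ^ (-(i : ℤ)) * (15 - 4 * r14) * (2 * x - n - (2 * y - n) * r14) = (15 - 4 * r14) * (ep ^ (-(i : ℤ)) * (2 * x - n - (2 * y - n) * r14)) := by ring
      rw [this, ← h2]
      push_cast
      linear_combination (-4 * (2 * (y' : ℝ) - n)) * r14_sq
    · intro a b ha hb
      obtain ⟨a', b', ha', hb', hl⟩ := h3 a b ha hb
      refine ⟨1 - a', 1 - b', ?_, ?_, by rw [hLV, hl]⟩
      · obtain ⟨k, hk⟩ := ha'
        refine ⟨4 * x' + 14 * y' - 9 * n - k, by linarith⟩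
      · obtain ⟨k, hk⟩ := hb'
        refine ⟨2 * x' + 8 * y' - 5 * n - k, by linarith⟩
    · intro P h
      apply h4
      apply CovF.eps
      exact CovF.trans _ _ h
  | pred i ih =>
    intro x y
    obtain ⟨x', y', h1, h2, h3, h4⟩ := ih x y
    refine ⟨15 * x' - 56 * y' - n * (-21), -4 * x' + 15 * y' - n * 5, ?_, ?_, ?_, ?_⟩
    · rw [sub_eq_add_neg (-(i : ℤ)) 1, zpow_add₀ ep_pos.ne', zpow_neg_one, ep_inv]
      have : ep ^ (-(i : ℤ)) * (15 - 4 * r14) * (2 * x - n + (2 * y - n) * r14) = (15 - 4 * r14) * (ep ^ (-(i : ℤ)) * (2 * x - n + (2 * y - n) * r14)) := by ring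
      rw [this, ← h1]
      push_cast
      linear_combination (4 * (2 * (y' : ℝ) - n)) * r14_sq
    · rw [show -(-(i : ℤ) - 1) = -(-(i : ℤ)) + 1 by ring, zpow_add_one₀ ep_pos.ne']
      have : ep ^ (-(-(i : ℤ))) * ep * (2 * x - n - (2 * y - n) * r14) = ep * (ep ^ (-(-(i : ℤ))) * (2 * x - n - (2 * y - n) * r14)) := by ring
      rw [this, ← h2]
      push_cast
      unfold ep
      linear_combination (4 * (2 * (y' : ℝ) - n)) * r14_sq
    · intro a b ha hb
      obtain ⟨a', b', ha', hb', hl⟩ := h3 a b ha hb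
      refine ⟨1 - a', 1 - b', ?_, ?_, by rw [hLV, hl]⟩
      · obtain ⟨k, hk⟩ := ha'
        refine ⟨4 * x' - 14 * y' + 5 * n - k, by linarith⟩
      · obtain ⟨k, hk⟩ := hb'
        refine ⟨-2 * x' + 8 * y' - 3 * n - k, by linarith⟩
    · intro P h
      apply h4
      apply CovF.eps'
      exact CovF.trans _ _ h

/-- iterating multiplication by the unit, around zero -/
theorem iterZ (n : ℤ) (i : ℤ) : ∀ x y : ℤ, ∃ x' y' : ℤ,
    (x' + y' * r14 = ep ^ i * (x + y * r14)) ∧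
    (x' - y' * r14 = ep ^ (-i) * (x - y * r14)) ∧
    ((2 : ℤ) ∣ x → (2 : ℤ) ∣ x') ∧
    (∀ P : ℤ → Prop, CovF P x' y' n → CovF P x y n) := by
  induction i using Int.induction_on with
  | zero =>
    intro x y
    refine ⟨x, y, by simp, by simp, fun h => h, fun P h => h⟩
  | succ i ih =>
    intro x y
    obtain ⟨x', y', h1, h2, h3, h4⟩ := ih x y
    refine ⟨15 * x' + 56 * y', 4 * x' + 15 * y', ?_, ?_, ?_, ?_⟩
    · rw [zpow_add_one₀ ep_pos.ne']
      have : ep ^ (i : ℤ) * ep * (x + y * r14) = ep * (ep ^ (i : ℤ) * (x + y * r14)) := by ring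
      rw [this, ← h1]
      push_cast
      unfold ep
      linear_combination (-4 * (y' : ℝ)) * r14_sq
    · rw [neg_add, zpow_add₀ ep_pos.ne', zpow_neg_one, ep_inv]
      have : ep ^ (-(i : ℤ)) * (15 - 4 * r14) * (x - y * r14) = (15 - 4 * r14) * (ep ^ (-(i : ℤ)) * (x - y * r14)) := by ring
      rw [this, ← h2]
      push_cast
      linear_combination (-4 * (y' : ℝ)) * r14_sq
    · intro h
      obtain ⟨k, hk⟩ := h3 h
      exact ⟨15 * k + 28 * y', by linarith⟩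
    · intro P h
      apply h4
      exact CovF.eps h
  | pred i ih =>
    intro x y
    obtain ⟨x', y', h1, h2, h3, h4⟩ := ih x y
    refine ⟨15 * x' - 56 * y', -4 * x' + 15 * y', ?_, ?_, ?_, ?_⟩
    · rw [sub_eq_add_neg (-(i : ℤ)) 1, zpow_add₀ ep_pos.ne', zpow_neg_one, ep_inv]
      have : ep ^ (-(i : ℤ)) * (15 - 4 * r14) * (x + y * r14) = (15 - 4 * r14) * (ep ^ (-(i : ℤ)) * (x + y * r14)) := by ring
      rw [this, ← h1]
      push_cast
      linear_combination (4 * (y' : ℝ)) * r14_sq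
    · rw [show -(-(i : ℤ) - 1) = -(-(i : ℤ)) + 1 by ring, zpow_add_one₀ ep_pos.ne']
      have : ep ^ (-(-(i : ℤ))) * ep * (x - y * r14) = ep * (ep ^ (-(-(i : ℤ))) * (x - y * r14)) := by ring
      rw [this, ← h2]
      push_cast
      unfold ep
      linear_combination (4 * (y' : ℝ)) * r14_sq
    · intro h
      obtain ⟨k, hk⟩ := h3 h
      exact ⟨15 * k - 28 * y', by linarith⟩
    · intro P h
      apply h4
      exact CovF.eps' h

end Pool.Agent.H.MP_5e03f8_nt
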