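import Pool.Agent.H.MP_5e03f8_nt.Alg

namespace Pool.Agent.H.MP_5e03f8_nt

open NumberField Module UniqueFactorizationMonoid

section
variable {R : Type*} [CommRing R] [IsDedekindDomain R] [Module.Free ℤ R]

theorem prod_absNorm (s : Multiset (Ideal R)) :
    (s.map (fun 𝔮 => ((Ideal.absNorm 𝔮 : ℕ) : ℝ))).prod = ((Ideal.absNorm s.prod : ℕ) : ℝ) := by
  induction s using Multiset.induction with
  | empty => simp
  | cons a s ih => simp [ih]

theorem weightedNorm_zero (𝔭 : Ideal R) (c : ℝ) : weightedNorm 𝔭 c 0 = 0 := by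
  simp [weightedNorm]

theorem weightedNorm_of_ne {𝔭 : Ideal R} {c : ℝ} {x : R} (hx : x ≠ 0) : weightedNorm 𝔭 c x =
    ((normalizedFactors (Ideal.span {x})).map (phi 𝔭 c)).prod := by
  simp [weightedNorm, hx]

/-- away from `𝔭` the weighted norm is the absolute norm -/
theorem weightedNorm_of_not_dvd {𝔭 : Ideal R} {c : ℝ} {x : R} (hx : x ≠ 0)
    (h : ¬ 𝔭 ∣ Ideal.span {x}) : weightedNorm 𝔭 c x = (Ideal.absNorm (Ideal.span {x}) : ℝ) := by
  have hx' : Ideal.span {x} ≠ 0 := by simpa using hx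
  rw [weightedNorm_of_ne hx]
  have : (normalizedFactors (Ideal.span {x})).map (phi 𝔭 c) =
      (normalizedFactors (Ideal.span {x})).map (fun 𝔮 => ((Ideal.absNorm 𝔮 : ℕ) : ℝ)) := by
    apply Multiset.map_congr rfl
    intro 𝔮 h𝔮
    have : 𝔮 ≠ 𝔭 := by
      rintro rfl
      exact h (dvd_of_mem_normalizedFactors h𝔮)
    simp [phi, this]
  rw [this, prod_absNorm, prod_normalizedFactors_eq hx']
  simp

/-- one factor generating `𝔭` multiplies the weighted norm by `c` -/
theorem weightedNorm_mul_gen {𝔭 : Ideal R} (h𝔭 : Prime 𝔭) {c : ℝ} {w x : R} (hw : Ideal.span {w} = 𝔭)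
    (hx : x ≠ 0) : weightedNorm 𝔭 c (w * x) = c * weightedNorm 𝔭 c x := by
  have hw0 : w ≠ 0 := by
    rintro rfl
    apply h𝔭.ne_zero
    rw [← hw]; simp
  have hx' : Ideal.span {x} ≠ 0 := by simpa using hx
  rw [weightedNorm_of_ne (mul_ne_zero hw0 hx), weightedNorm_of_ne hx,
    ← Ideal.span_singleton_mul_span_singleton, hw, normalizedFactors_mul h𝔭.ne_zero hx',
    normalizedFactors_irreducible h𝔭.irreducible]
  simp [phi]

end

section field
variable {K : Type*} [Field K] [NumberField K] (s : 𝓞 K) (hs : s ^ 2 = 14)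
  (hK : IntermediateField.adjoin ℚ {(s : K)} = ⊤)

include hs in
omit [NumberField K] in
theorem span_eq : (Ideal.span {4 + s} : Ideal (𝓞 K)) = Ideal.span {2, s} := by
  apply le_antisymm
  · rw [Ideal.span_singleton_le_iff_mem, Ideal.mem_span_pair]
    exact ⟨2, 1, by ring⟩
  · rw [Ideal.span_le]
    intro x hx
    simp only [Set.mem_insert_iff, Set.mem_singleton_iff] at hx
    have h2 : (2 : 𝓞 K) ∈ Ideal.span {4 + s} := by
      rw [Ideal.mem_span_singleton]
      exact ⟨4 - s, by linear_combination hs⟩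
    rcases hx with rfl | rfl
    · exact h2
    · have h3 := Ideal.sub_mem _ (Ideal.mem_span_singleton_self (4 + x)) (Ideal.mul_mem_left _ 2 h2)
      have h4 : (4 + x) - 2 * 2 = x := by ring
      rwa [h4] at h3

include hs hK in
theorem prime_p : Prime (Ideal.span {2, s} : Ideal (𝓞 K)) := by
  rw [← span_eq s hs]
  have h1 : Ideal.absNorm (Ideal.span {4 + s} : Ideal (𝓞 K)) = 2 := by
    have := absNorm_eq s hs hK 4 1
    simpa using this
  have h2 : (Ideal.span {4 + s} : Ideal (𝓞 K)).IsPrime :=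
    Ideal.isPrime_of_irreducible_absNorm (by rw [h1]; exact Nat.prime_two)
  apply Ideal.prime_of_isPrime _ h2
  intro h
  rw [h] at h1
  simp at h1

include hs hK in
/-- explicit formula for the weighted norm in coordinates -/
theorem weightedNorm_eq (c : ℝ) (m n : ℤ) :
    weightedNorm (Ideal.span {2, s} : Ideal (𝓞 K)) c ((m : 𝓞 K) + (n : 𝓞 K) * s) =
      |((m ^ 2 - 14 * n ^ 2 : ℤ) : ℝ)| * (c / 2) ^ (padicValInt 2 (m ^ 2 - 14 * n ^ 2)) := by
  induction hN : (m ^ 2 - 14 * n ^ 2).natAbs using Nat.strong_induction_on generalizing m n with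
  | _ N ih =>
    by_cases h0 : (m : 𝓞 K) + (n : 𝓞 K) * s = 0
    · obtain ⟨rfl, rfl⟩ := int_unique s hs h0
      simp [weightedNorm_zero]
    have hNne : m ^ 2 - 14 * n ^ 2 ≠ 0 := by
      intro h
      have h1 : (m : ℚ) ^ 2 = 14 * (n : ℚ) ^ 2 := by
        have : m ^ 2 = 14 * n ^ 2 := by linarith
        exact_mod_cast this
      obtain ⟨h2, h3⟩ := rat_eq_zero h1
      apply h0
      have h4 : m = 0 := by exact_mod_cast h2
      have h5 : n = 0 := by exact_mod_cast h3
      rw [h4, h5]; simp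
    by_cases hpar : (2 : ℤ) ∣ m ^ 2 - 14 * n ^ 2
    · have hm : (2 : ℤ) ∣ m := by
        have : Prime (2 : ℤ) := by norm_num
        apply this.dvd_of_dvd_pow (n := 2)
        obtain ⟨k, hk⟩ := hpar
        exact ⟨k + 7 * n ^ 2, by linarith⟩
      obtain ⟨m', rfl⟩ := hm
      have hfac : (((2 * m' : ℤ) : 𝓞 K)) + (n : 𝓞 K) * s = (4 + s) * (((4 * m' - 7 * n : ℤ) : 𝓞 K) + ((2 * n - m' : ℤ) : 𝓞 K) * s) := by
        push_cast
        linear_combination (- (2 * (n : 𝓞 K) - (m' : 𝓞 K))) * hs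
      have hN2 : (2 * m') ^ 2 - 14 * n ^ 2 = 2 * ((4 * m' - 7 * n) ^ 2 - 14 * (2 * n - m') ^ 2) := by ring
      have hy : (((4 * m' - 7 * n : ℤ) : 𝓞 K) + ((2 * n - m' : ℤ) : 𝓞 K) * s) ≠ 0 := by
        intro h; apply h0; rw [hfac, h, mul_zero]
      have hNne' : (4 * m' - 7 * n) ^ 2 - 14 * (2 * n - m') ^ 2 ≠ 0 := by
        intro h; apply hNne; rw [hN2, h, mul_zero]
      rw [hfac, weightedNorm_mul_gen (prime_p s hs hK) (span_eq s hs) hy]
      rw [ih _ _ _ _ rfl]
      · rw [hN2]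
        rw [padicValInt.mul (by norm_num) hNne']
        have : padicValInt 2 2 = 1 := by
          have := padicValInt.self (p := 2) (by norm_num)
          exact_mod_cast this
        rw [this, pow_add]
        push_cast
        rw [abs_mul]
        rw [abs_of_pos (show (0:ℝ) < 2 by norm_num)]
        ring
      · rw [← hN, hN2, Int.natAbs_mul]
        have : 0 < ((4 * m' - 7 * n) ^ 2 - 14 * (2 * n - m') ^ 2).natAbs := Int.natAbs_pos.2 hNne'
        simp only [Int.reduceAbs]
        omega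
    · have hnd : ¬ (Ideal.span {2, s} : Ideal (𝓞 K)) ∣ Ideal.span {(m : 𝓞 K) + (n : 𝓞 K) * s} := by
        intro h
        have h1 := map_dvd (Ideal.absNorm (S := 𝓞 K)) h
        rw [absNorm_eq s hs hK] at h1
        have h2 : Ideal.absNorm (Ideal.span {2, s} : Ideal (𝓞 K)) = 2 := by
          rw [← span_eq s hs]
          have := absNorm_eq s hs hK 4 1
          simpa using this
        rw [h2] at h1
        exact hpar (Int.ofNat_dvd_left.2 h1)
      rw [weightedNorm_of_not_dvd h0 hnd, absNorm_eq s hs hK]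
      rw [padicValInt.eq_zero_of_not_dvd (by exact_mod_cast hpar)]
      simp

end field

end Pool.Agent.H.MP_5e03f8_nt
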