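import Pool.Agent.H.MP_5e03f8_nt.Cover
import Pool.Agent.H.MP_5e03f8_nt.WN

namespace Pool.Agent.H.MP_5e03f8_nt

open NumberField

/-- weighted absolute value of an integer -/
noncomputable def w2 (κ : ℝ) (N : ℤ) : ℝ := |(N : ℝ)| * κ ^ (padicValInt 2 N)

theorem W_eq (κ : ℝ) (x y : ℤ) : W κ x y = w2 κ (x ^ 2 - 14 * y ^ 2) := rfl

theorem w2_mul (κ : ℝ) (M N : ℤ) : w2 κ (M * N) = w2 κ M * w2 κ N := by
  unfold w2
  by_cases hM : M = 0
  · subst hM; simp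
  by_cases hN : N = 0
  · subst hN; simp
  rw [padicValInt.mul hM hN, pow_add]
  push_cast
  rw [abs_mul]; ring

theorem w2_nonneg {κ : ℝ} (hκ : 0 ≤ κ) (N : ℤ) : 0 ≤ w2 κ N := by
  unfold w2; positivity

theorem w2_pos {κ : ℝ} (hκ : 0 < κ) {N : ℤ} (hN : N ≠ 0) : 0 < w2 κ N := by
  unfold w2
  have : (0 : ℝ) < |(N : ℝ)| := abs_pos.2 (by exact_mod_cast hN)
  positivity

theorem abs_le_w2 {κ : ℝ} (hκ : 1 ≤ κ) (N : ℤ) : |(N : ℝ)| ≤ w2 κ N := by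
  unfold w2
  have : 1 ≤ κ ^ (padicValInt 2 N) := one_le_pow₀ hκ
  nlinarith [abs_nonneg (N : ℝ)]

theorem w2_mono {κ κ' : ℝ} (h0 : 0 ≤ κ) (h : κ ≤ κ') (N : ℤ) : w2 κ N ≤ w2 κ' N := by
  unfold w2
  have : κ ^ (padicValInt 2 N) ≤ κ' ^ (padicValInt 2 N) := pow_le_pow_left₀ h0 h _
  exact mul_le_mul_of_nonneg_left this (abs_nonneg _)

theorem w2_pow_mul (κ : ℝ) (e : ℕ) {N : ℤ} (hN : ¬ (2 : ℤ) ∣ N) :
    w2 κ (2 ^ e * N) = 2 ^ e * |(N : ℝ)| * κ ^ e := by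
  unfold w2
  rw [padic_pow_mul _ hN]
  push_cast
  rw [abs_mul, abs_of_pos (by positivity)]

/-- divisibility from the norm -/
theorem dvd_of_norm (j : ℕ) : ∀ u w : ℤ, (2 : ℤ) ^ (2 * j) ∣ u ^ 2 - 14 * w ^ 2 →
    (2 : ℤ) ^ j ∣ u ∧ (2 : ℤ) ^ j ∣ w := by
  induction j with
  | zero => intro u w _; simp
  | succ j ih =>
    intro u w h
    have h4 : (4 : ℤ) ∣ u ^ 2 - 14 * w ^ 2 := by
      refine dvd_trans ?_ h
      rw [show 2 * (j + 1) = 2 + 2 * j by ring, pow_add]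
      exact ⟨2 ^ (2 * j), by norm_num⟩
    have hu : (2 : ℤ) ∣ u := by
      apply Int.prime_two.dvd_of_dvd_pow (n := 2)
      obtain ⟨k, hk⟩ := h4
      exact ⟨2 * k + 7 * w ^ 2, by linarith⟩
    obtain ⟨u', rfl⟩ := hu
    have hw : (2 : ℤ) ∣ w := by
      apply Int.prime_two.dvd_of_dvd_pow (n := 2)
      obtain ⟨k, hk⟩ := h4
      exact ⟨u' ^ 2 - k - 3 * w ^ 2, by nlinarith⟩
    obtain ⟨w', rfl⟩ := hw
    have h5 : (2 : ℤ) ^ (2 * j) ∣ u' ^ 2 - 14 * w' ^ 2 := by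
      have e1 : (2 * u') ^ 2 - 14 * (2 * w') ^ 2 = 4 * (u' ^ 2 - 14 * w' ^ 2) := by ring
      have e2 : (2 : ℤ) ^ (2 * (j + 1)) = 4 * 2 ^ (2 * j) := by
        rw [show 2 * (j + 1) = 2 + 2 * j by ring, pow_add]; norm_num
      rw [e1, e2] at h
      exact (mul_dvd_mul_iff_left (by norm_num)).1 h
    obtain ⟨⟨a, ha⟩, ⟨b, hb⟩⟩ := ih u' w' h5
    exact ⟨⟨a, by rw [ha]; ring⟩, ⟨b, by rw [hb]; ring⟩⟩

theorem val_lt {j : ℕ} {u w : ℤ} (h : ¬ ((2 : ℤ) ^ j ∣ u ∧ (2 : ℤ) ^ j ∣ w)) :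
    padicValInt 2 (u ^ 2 - 14 * w ^ 2) < 2 * j := by
  by_contra hcon
  push Not at hcon
  apply h
  apply dvd_of_norm
  by_cases h0 : u ^ 2 - 14 * w ^ 2 = 0
  · rw [h0]; exact dvd_zero _
  · have := (padicValInt_dvd_iff (p := 2) (2 * j) (u ^ 2 - 14 * w ^ 2)).2 (Or.inr hcon)
    exact_mod_cast this

/-- Division with remainder in coordinates, by a positive integer. -/
theorem division {κ : ℝ} (h1 : Real.sqrt 5 / 2 < κ) (h2 : κ ≤ 1121 / 1000) {n : ℤ} (hn : 0 < n)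
    (x y : ℤ) : ∃ a b : ℤ, W κ (x - n * a) (y - n * b) < W κ n 0 := by
  have h5 : (2.236 : ℝ) < Real.sqrt 5 := by
    apply Real.lt_sqrt_of_sq_lt; norm_num
  have hκ1 : (1.118 : ℝ) < κ := by linarith
  have hκ54 : 5 / 4 < κ ^ 2 := by
    have h6 : (Real.sqrt 5) ^ 2 = 5 := Real.sq_sqrt (by norm_num)
    nlinarith
  obtain ⟨j, n', hodd, hnj⟩ : ∃ (j : ℕ) (n' : ℤ), ¬ (2 : ℤ) ∣ n' ∧ n = 2 ^ j * n' := by
    have hfin : FiniteMultiplicity (2 : ℤ) n := by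
      apply Int.finiteMultiplicity_iff.2
      exact ⟨by norm_num, hn.ne'⟩
    obtain ⟨c, hc1, hc2⟩ := hfin.exists_eq_pow_mul_and_not_dvd
    exact ⟨_, c, hc2, hc1⟩
  have hn'pos : 0 < n' := by
    rw [hnj] at hn
    exact (mul_pos_iff_of_pos_left (by positivity)).1 hn
  have hn'R : (0 : ℝ) < n' := by exact_mod_cast hn'pos
  have hW : W κ n 0 = 4 ^ j * (n' : ℝ) ^ 2 * κ ^ (2 * j) := by
    rw [W_eq, hnj]
    have : (2 ^ j * n') ^ 2 - 14 * 0 ^ 2 = (2 : ℤ) ^ (2 * j) * n' ^ 2 := by ring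
    rw [this, w2_pow_mul]
    · push_cast
      rw [abs_of_pos (by positivity), pow_mul]; norm_num
    · intro h
      exact hodd (Int.prime_two.dvd_of_dvd_pow h)
  rw [hW]
  by_cases hex : ∃ p q : ℤ, 2 * x - n * (2 * p + 1) = 0 ∧ 2 * y - n * (2 * q + 1) = 0
  · -- the exceptional points
    obtain ⟨p, q, hp, hq⟩ := hex
    obtain ⟨i, hi⟩ : ∃ i, j = i + 1 := by
      rcases j with _ | i
      · exfalso
        apply hodd
        rw [pow_zero, one_mul] at hnj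
        rw [← hnj]
        exact ⟨x - n * p, by linarith⟩
      · exact ⟨i, rfl⟩
    subst hi
    have e1 : x = 2 ^ i * n' * (2 * p + 1) := by
      have : 2 * x = 2 * (2 ^ i * n' * (2 * p + 1)) := by
        rw [hnj, pow_succ] at hp; linarith
      linarith
    have e2 : y = 2 ^ i * n' * (2 * q + 1) := by
      have : 2 * y = 2 * (2 ^ i * n' * (2 * q + 1)) := by
        rw [hnj, pow_succ] at hq; linarith
      linarith
    refine ⟨p - 1, q, ?_⟩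
    rw [W_eq, hnj, e1, e2]
    have e3 : (2 ^ i * n' * (2 * p + 1) - 2 ^ (i + 1) * n' * (p - 1)) ^ 2 -
        14 * (2 ^ i * n' * (2 * q + 1) - 2 ^ (i + 1) * n' * q) ^ 2 = (2 : ℤ) ^ (2 * i) * (-5 * n' ^ 2) := by
      rw [pow_succ]; ring
    rw [e3, w2_pow_mul]
    · push_cast
      rw [abs_mul, abs_of_pos (show (0 : ℝ) < (n' : ℝ) ^ 2 by positivity)]
      have e4 : κ ^ (2 * (i + 1)) = κ ^ (2 * i) * κ ^ 2 := by rw [mul_add, pow_add]
      have e5 : (2 : ℝ) ^ (2 * i) = 4 ^ i := by rw [pow_mul]; norm_num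
      have hp1 : (0 : ℝ) < κ ^ (2 * i) := by positivity
      have hp2 : (0 : ℝ) < 4 ^ i := by positivity
      have hp3 : (0 : ℝ) < 4 ^ i * (n' : ℝ) ^ 2 * κ ^ (2 * i) := by positivity
      have e6 : |(-5 : ℝ)| = 5 := by norm_num
      have e7 : (4 : ℝ) ^ (i + 1) = 4 * 4 ^ i := by rw [pow_succ]; ring
      rw [e4, e5, e6, e7]
      have e8 := mul_lt_mul_of_pos_left hκ54 hp3
      linarith
    · intro h
      have h6 : (2 : ℤ) ∣ n' ^ 2 := by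
        obtain ⟨k, hk⟩ := h
        exact ⟨k + 3 * n' ^ 2, by linarith⟩
      exact hodd (Int.prime_two.dvd_of_dvd_pow h6)
  push Not at hex
  by_cases hdiv : (2 : ℤ) ^ j ∣ x ∧ (2 : ℤ) ^ j ∣ y
  · obtain ⟨⟨x', rfl⟩, ⟨y', rfl⟩⟩ := hdiv
    obtain ⟨a, b, hab⟩ := cover_odd hn'pos hodd x' y'
    refine ⟨a, b, ?_⟩
    rw [W_eq] at hab ⊢
    have e1 : (2 ^ j * x' - n * a) ^ 2 - 14 * (2 ^ j * y' - n * b) ^ 2 =
        2 ^ (2 * j) * ((x' - n' * a) ^ 2 - 14 * (y' - n' * b) ^ 2) := by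
      rw [hnj]; ring
    rw [e1, w2_mul]
    have e2 : w2 κ (2 ^ (2 * j)) = 4 ^ j * κ ^ (2 * j) := by
      have := w2_pow_mul κ (2 * j) (N := 1) (by norm_num)
      rw [mul_one] at this
      rw [this, pow_mul 2]; norm_num
    rw [e2]
    have h3 : w2 κ ((x' - n' * a) ^ 2 - 14 * (y' - n' * b) ^ 2) < (n' : ℝ) ^ 2 :=
      lt_of_le_of_lt (w2_mono (by linarith) h2 _) hab
    have h4 : (0 : ℝ) < 4 ^ j * κ ^ (2 * j) := by positivity
    nlinarith [mul_lt_mul_of_pos_left h3 h4]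
  · obtain ⟨a, b, hab⟩ := cover_real hn x y (by
      intro p q h
      exact hex p q h.1 h.2)
    refine ⟨a, b, ?_⟩
    have hv : padicValInt 2 ((x - n * a) ^ 2 - 14 * (y - n * b) ^ 2) < 2 * j := by
      apply val_lt
      rintro ⟨h3, h4⟩
      apply hdiv
      have hnd : (2 : ℤ) ^ j ∣ n := ⟨n', hnj⟩
      constructor
      · have := dvd_add h3 (Dvd.dvd.mul_right hnd a)
        rwa [sub_add_cancel] at this
      · have := dvd_add h4 (Dvd.dvd.mul_right hnd b)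
        rwa [sub_add_cancel] at this
    have hjpos : 1 ≤ j := by omega
    rw [W_eq]
    unfold w2
    set v := padicValInt 2 ((x - n * a) ^ 2 - 14 * (y - n * b) ^ 2) with hvdef
    set N := (((x - n * a) ^ 2 - 14 * (y - n * b) ^ 2 : ℤ) : ℝ) with hN
    have e1 : κ ^ v ≤ κ ^ (2 * j - 1) := pow_le_pow_right₀ (by linarith) (by omega)
    have e2 : κ ^ (2 * j) = κ ^ (2 * j - 1) * κ := by
      rw [← pow_succ]; congr 1; omega
    have e3 : (n : ℝ) ^ 2 = 4 ^ j * (n' : ℝ) ^ 2 := by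
      rw [hnj]; push_cast; rw [mul_pow, ← pow_mul, mul_comm j 2, pow_mul]; norm_num
    rw [e2]
    have h6 : (0 : ℝ) < κ ^ (2 * j - 1) := by positivity
    have hnR : (0 : ℝ) < (n : ℝ) ^ 2 := by
      have : (0 : ℝ) < n := by exact_mod_cast hn
      positivity
    calc |N| * κ ^ v ≤ |N| * κ ^ (2 * j - 1) := mul_le_mul_of_nonneg_left e1 (abs_nonneg _)
      _ < (κ * (n : ℝ) ^ 2) * κ ^ (2 * j - 1) := by
        apply mul_lt_mul_of_pos_right _ h6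
        nlinarith
      _ = 4 ^ j * (n' : ℝ) ^ 2 * (κ ^ (2 * j - 1) * κ) := by rw [e3]; ring

/-- Division with remainder in coordinates. -/
theorem division' {κ : ℝ} (h1 : Real.sqrt 5 / 2 < κ) (h2 : κ ≤ 1121 / 1000) {b1 b2 : ℤ}
    (hb : b1 ^ 2 - 14 * b2 ^ 2 ≠ 0) (a1 a2 : ℤ) :
    ∃ q1 q2 : ℤ, W κ (a1 - (b1 * q1 + 14 * b2 * q2)) (a2 - (b1 * q2 + b2 * q1)) < W κ b1 b2 := by
  have h5 : (2.236 : ℝ) < Real.sqrt 5 := by
    apply Real.lt_sqrt_of_sq_lt; norm_num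
  have hκ0 : 0 < κ := by linarith
  set n0 := b1 ^ 2 - 14 * b2 ^ 2 with hn0
  have hpos : 0 < |n0| := abs_pos.2 hb
  obtain ⟨q1, q2, hq⟩ := division h1 h2 hpos (a1 * b1 - 14 * a2 * b2) (a2 * b1 - a1 * b2)
  obtain ⟨σ, hσ, hσ2⟩ : ∃ σ : ℤ, |n0| = n0 * σ ∧ σ * σ = 1 := by
    rcases abs_choice n0 with h | h
    · exact ⟨1, by rw [h]; ring, by norm_num⟩
    · exact ⟨-1, by rw [h]; ring, by norm_num⟩
  refine ⟨σ * q1, σ * q2, ?_⟩
  have key : W κ (a1 - (b1 * (σ * q1) + 14 * b2 * (σ * q2))) (a2 - (b1 * (σ * q2) + b2 * (σ * q1))) * W κ b1 b2 =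
      W κ (a1 * b1 - 14 * a2 * b2 - |n0| * q1) (a2 * b1 - a1 * b2 - |n0| * q2) := by
    rw [W_eq, W_eq, W_eq, ← w2_mul, hσ, hn0]
    congr 1
    ring
  have hWn : W κ (|n0|) 0 = W κ b1 b2 * W κ b1 b2 := by
    rw [W_eq, W_eq, ← w2_mul]
    congr 1
    rw [← hn0]
    have : |n0| ^ 2 = n0 * n0 := by rw [sq_abs]; ring
    rw [this]; ring
  rw [← key, hWn] at hq
  have hWpos : 0 < W κ b1 b2 := by
    rw [W_eq]; exact w2_pos hκ0 hb
  exact lt_of_mul_lt_mul_right hq hWpos.le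

section field
variable {K : Type*} [Field K] [NumberField K] (s : 𝓞 K) (hs : s ^ 2 = 14)
  (hK : IntermediateField.adjoin ℚ {(s : K)} = ⊤)

include hs hK in
theorem euclidean {c : ℝ} (h1 : Real.sqrt 5 < c) (h2 : c ≤ 2.242) :
    IsEuclideanFunction (weightedNorm (Ideal.span {2, s} : Ideal (𝓞 K)) c) := by
  have h5 : (2.236 : ℝ) < Real.sqrt 5 := by
    apply Real.lt_sqrt_of_sq_lt; norm_num
  have hκ0 : 0 < c / 2 := by linarith
  have hκ1 : 1 ≤ c / 2 := by linarith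
  have hf : ∀ m n : ℤ, weightedNorm (Ideal.span {2, s} : Ideal (𝓞 K)) c ((m : 𝓞 K) + (n : 𝓞 K) * s) =
      W (c / 2) m n := fun m n => weightedNorm_eq s hs hK c m n
  constructor
  · intro r
    obtain ⟨m, n, rfl⟩ := exists_int s hs hK r
    rw [hf, W_eq]; exact w2_nonneg hκ0.le _
  · intro l hl
    have hfin : (Set.Icc (-⌈l⌉) ⌈l⌉).Finite := Set.finite_Icc _ _
    apply Set.Finite.subset (hfin.image (w2 (c / 2)))
    rintro v ⟨⟨r, rfl⟩, hr1, hr2⟩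
    obtain ⟨m, n, rfl⟩ := exists_int s hs hK r
    rw [hf, W_eq] at hr2 ⊢
    refine ⟨m ^ 2 - 14 * n ^ 2, ?_, rfl⟩
    have h3 := (abs_le_w2 hκ1 (m ^ 2 - 14 * n ^ 2)).trans hr2
    have h4 : |(m ^ 2 - 14 * n ^ 2 : ℤ)| ≤ ⌈l⌉ := by
      have : ((|(m ^ 2 - 14 * n ^ 2 : ℤ)| : ℤ) : ℝ) ≤ (⌈l⌉ : ℝ) := by
        push_cast at h3 ⊢
        exact h3.trans (Int.le_ceil l)
      exact_mod_cast this
    exact abs_le.1 h4
  · intro r
    obtain ⟨m, n, rfl⟩ := exists_int s hs hK r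
    constructor
    · intro h
      rw [hf, W_eq] at h
      by_contra hne
      have hN : m ^ 2 - 14 * n ^ 2 ≠ 0 := by
        intro h0
        obtain ⟨rfl, rfl⟩ := int_sq_ne (p := m) (q := n) (by linarith)
        apply hne; simp
      exact (w2_pos hκ0 hN).ne' h
    · intro h
      rw [h]
      exact weightedNorm_zero _ _
  · intro a b hb
    obtain ⟨a1, a2, rfl⟩ := exists_int s hs hK a
    obtain ⟨b1, b2, rfl⟩ := exists_int s hs hK b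
    have hN : b1 ^ 2 - 14 * b2 ^ 2 ≠ 0 := by
      intro h0
      obtain ⟨rfl, rfl⟩ := int_sq_ne (p := b1) (q := b2) (by linarith)
      apply hb; simp
    obtain ⟨q1, q2, hq⟩ := division' (κ := c / 2) (by linarith) (by linarith) hN a1 a2
    refine ⟨(q1 : 𝓞 K) + (q2 : 𝓞 K) * s, ?_⟩
    have e1 : ((a1 : 𝓞 K) + (a2 : 𝓞 K) * s) - ((b1 : 𝓞 K) + (b2 : 𝓞 K) * s) * ((q1 : 𝓞 K) + (q2 : 𝓞 K) * s) =
        ((a1 - (b1 * q1 + 14 * b2 * q2) : ℤ) : 𝓞 K) + ((a2 - (b1 * q2 + b2 * q1) : ℤ) : 𝓞 K) * s := by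
      push_cast
      linear_combination (-(b2 : 𝓞 K) * q2) * hs
    rw [e1, hf, hf]
    exact hq

end field

end Pool.Agent.H.MP_5e03f8_nt
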