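import Pool.Agent.H.MP_5e03f8_nt.Cert

namespace Pool.Agent.H.MP_5e03f8_nt

/-! ### valuations -/

theorem padic_pow_mul (e : ℕ) {N : ℤ} (h : ¬ (2 : ℤ) ∣ N) : padicValInt 2 ((2 : ℤ) ^ e * N) = e := by
  have hne : N ≠ 0 := by
    intro h0; apply h; rw [h0]; exact dvd_zero _
  rw [padicValInt.mul (by positivity) hne]
  have h1 : padicValInt 2 N = 0 := padicValInt.eq_zero_of_not_dvd (by exact_mod_cast h)
  have h2 : padicValInt 2 ((2 : ℤ) ^ e) = e := by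
    have := padicValNat.prime_pow (p := 2) e
    unfold padicValInt
    rw [Int.natAbs_pow]
    simpa using this
  rw [h1, h2]; rfl

theorem padic_even {d1 d2 : ℤ} (e : ℕ) (h1 : (2 : ℤ) ^ e ∣ d1) (h2 : (2 : ℤ) ^ e ∣ d2)
    (h3 : ¬ (2 : ℤ) ^ (e + 1) ∣ d1) : padicValInt 2 (d1 ^ 2 - 14 * d2 ^ 2) = 2 * e := by
  obtain ⟨a, rfl⟩ := h1
  obtain ⟨b, rfl⟩ := h2
  have ha : ¬ (2 : ℤ) ∣ a := by
    rintro ⟨c, rfl⟩
    apply h3
    exact ⟨c, by ring⟩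
  have hodd : ¬ (2 : ℤ) ∣ (a ^ 2 - 14 * b ^ 2) := by
    intro h
    have : (2 : ℤ) ∣ a ^ 2 := by
      obtain ⟨k, hk⟩ := h
      exact ⟨k + 7 * b ^ 2, by linarith⟩
    exact ha (Int.prime_two.dvd_of_dvd_pow this)
  have : (2 ^ e * a) ^ 2 - 14 * (2 ^ e * b) ^ 2 = (2 : ℤ) ^ (2 * e) * (a ^ 2 - 14 * b ^ 2) := by ring
  rw [this, padic_pow_mul _ hodd]

theorem padic_odd {d1 d2 : ℤ} (e : ℕ) (h1 : (2 : ℤ) ^ (e + 1) ∣ d1) (h2 : (2 : ℤ) ^ e ∣ d2)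
    (h3 : ¬ (2 : ℤ) ^ (e + 1) ∣ d2) : padicValInt 2 (d1 ^ 2 - 14 * d2 ^ 2) = 2 * e + 1 := by
  obtain ⟨a, rfl⟩ := h1
  obtain ⟨b, rfl⟩ := h2
  have hb : ¬ (2 : ℤ) ∣ b := by
    rintro ⟨c, rfl⟩
    apply h3
    exact ⟨c, by ring⟩
  have hodd : ¬ (2 : ℤ) ∣ (2 * a ^ 2 - 7 * b ^ 2) := by
    intro h
    have : (2 : ℤ) ∣ b ^ 2 := by
      obtain ⟨k, hk⟩ := h
      exact ⟨a ^ 2 - k - 3 * b ^ 2, by linarith⟩
    exact hb (Int.prime_two.dvd_of_dvd_pow this)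
  have : (2 ^ (e + 1) * a) ^ 2 - 14 * (2 ^ e * b) ^ 2 = (2 : ℤ) ^ (2 * e + 1) * (2 * a ^ 2 - 7 * b ^ 2) := by ring
  rw [this, padic_pow_mul _ hodd]

theorem dvd_of_mod {n w x m : ℤ} {N : ℕ} {e : ℕ} (h : (2 : ℤ) ^ N ∣ x - n * w) (hN : e ≤ N)
    (hm : (w - m) % 2 ^ e = 0) : (2 : ℤ) ^ e ∣ x - n * m := by
  have h1 : (2 : ℤ) ^ e ∣ x - n * w := dvd_trans (pow_dvd_pow 2 hN) h
  have h2 : (2 : ℤ) ^ e ∣ w - m := Int.dvd_of_emod_eq_zero hm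
  have h3 : x - n * m = (x - n * w) + n * (w - m) := by ring
  rw [h3]
  exact dvd_add h1 (Dvd.dvd.mul_left h2 n)

theorem not_dvd_of_mod {n w x m : ℤ} {N : ℕ} {e : ℕ} (hn : ¬ (2 : ℤ) ∣ n)
    (h : (2 : ℤ) ^ N ∣ x - n * w) (hN : e ≤ N)
    (hm : (w - m) % 2 ^ e ≠ 0) : ¬ (2 : ℤ) ^ e ∣ x - n * m := by
  have h1 : (2 : ℤ) ^ e ∣ x - n * w := dvd_trans (pow_dvd_pow 2 hN) h
  intro h4
  apply hm
  apply Int.emod_eq_zero_of_dvd
  have h2 : (2 : ℤ) ^ e ∣ n * (w - m) := by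
    have h3 : n * (w - m) = (x - n * m) - (x - n * w) := by ring
    rw [h3]; exact dvd_sub h4 h1
  have hcop : IsCoprime ((2 : ℤ) ^ e) n := by
    apply IsCoprime.pow_left
    exact (Int.prime_two.coprime_iff_not_dvd).2 hn
  exact hcop.dvd_of_dvd_mul_left h2

theorem val_of_valOk {g : Rg} {x y n m n' : ℤ} {v : ℕ} (hn : ¬ (2 : ℤ) ∣ n)
    (hx : (2 : ℤ) ^ ((g.k + 1) / 2) ∣ x - n * g.wa) (hy : (2 : ℤ) ^ (g.k / 2) ∣ y - n * g.wb)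
    (hv : v < g.k) (h : valOk v (g.wa - m) (g.wb - n') = true) :
    padicValInt 2 ((x - n * m) ^ 2 - 14 * (y - n * n') ^ 2) = v := by
  unfold valOk at h
  split_ifs at h with h2
  · simp only [Bool.and_eq_true, beq_iff_eq, bne_iff_ne, ne_eq] at h
    obtain ⟨⟨h3, h4⟩, h5⟩ := h
    rw [padic_even (v / 2) (dvd_of_mod hx (by omega) h3) (dvd_of_mod hy (by omega) h4)
      (not_dvd_of_mod hn hx (by omega) h5)]
    omega
  · simp only [Bool.and_eq_true, beq_iff_eq, bne_iff_ne, ne_eq] at h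
    obtain ⟨⟨h3, h4⟩, h5⟩ := h
    rw [padic_odd (v / 2) (dvd_of_mod hx (by omega) h3) (dvd_of_mod hy (by omega) h4)
      (not_dvd_of_mod hn hy (by omega) h5)]
    omega

/-! ### real bounds -/

theorem SC_pos : (0 : ℝ) < SC := by norm_num [SC]

theorem bound_u {g : Rg} {x y n : ℤ} (hn : 0 < n) (h : InRg g x y n) (m n' : ℤ) :
    SC * |((x - n * m : ℤ) : ℝ) + ((y - n * n' : ℤ) : ℝ) * r14| ≤
      ((max (g.u1 - lo m n') (hi m n' - g.u0) : ℤ) : ℝ) * n := by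
  obtain ⟨h1, h2, -, -, -⟩ := h
  have hn' : (0 : ℝ) < n := by exact_mod_cast hn
  have h3 := lo_le m n'
  have h4 := le_hi m n'
  rw [show (SC : ℝ) * |((x - n * m : ℤ) : ℝ) + ((y - n * n' : ℤ) : ℝ) * r14| =
    |SC * (((x - n * m : ℤ) : ℝ) + ((y - n * n' : ℤ) : ℝ) * r14)| by
      rw [abs_mul, abs_of_pos SC_pos]]
  rw [abs_le]
  push_cast
  constructor
  · have h5 := mul_le_mul_of_nonneg_right (le_max_right ((g.u1 : ℝ) - (lo m n' : ℝ)) ((hi m n' : ℝ) - (g.u0 : ℝ))) hn'.le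
    nlinarith
  · have h5 := mul_le_mul_of_nonneg_right (le_max_left ((g.u1 : ℝ) - (lo m n' : ℝ)) ((hi m n' : ℝ) - (g.u0 : ℝ))) hn'.le
    nlinarith

theorem bound_s {g : Rg} {x y n : ℤ} (hn : 0 < n) (h : InRg g x y n) (m n' : ℤ) :
    SC * |((x - n * m : ℤ) : ℝ) - ((y - n * n' : ℤ) : ℝ) * r14| ≤
      ((max (g.s1 - lo m (-n')) (hi m (-n') - g.s0) : ℤ) : ℝ) * n := by
  obtain ⟨-, -, h1, h2, -⟩ := h
  have hn' : (0 : ℝ) < n := by exact_mod_cast hn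
  have h3 := lo_le m (-n')
  have h4 := le_hi m (-n')
  rw [show (SC : ℝ) * |((x - n * m : ℤ) : ℝ) - ((y - n * n' : ℤ) : ℝ) * r14| =
    |SC * (((x - n * m : ℤ) : ℝ) - ((y - n * n' : ℤ) : ℝ) * r14)| by
      rw [abs_mul, abs_of_pos SC_pos]]
  rw [abs_le]
  push_cast at h3 h4 ⊢
  constructor
  · have h5 := mul_le_mul_of_nonneg_right (le_max_right ((g.s1 : ℝ) - (lo m (-n') : ℝ)) ((hi m (-n') : ℝ) - (g.s0 : ℝ))) hn'.le
    nlinarith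
  · have h5 := mul_le_mul_of_nonneg_right (le_max_left ((g.s1 : ℝ) - (lo m (-n') : ℝ)) ((hi m (-n') : ℝ) - (g.s0 : ℝ))) hn'.le
    nlinarith

theorem norm_bound {g : Rg} {x y n : ℤ} (hn : 0 < n) (h : InRg g x y n) (m n' : ℤ) :
    (SC : ℝ) ^ 2 * |(((x - n * m) ^ 2 - 14 * (y - n * n') ^ 2 : ℤ) : ℝ)| ≤
      ((max (g.u1 - lo m n') (hi m n' - g.u0) * max (g.s1 - lo m (-n')) (hi m (-n') - g.s0) : ℤ) : ℝ) * (n : ℝ) ^ 2 := by
  have h1 := bound_u hn h m n'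
  have h2 := bound_s hn h m n'
  have hn' : (0 : ℝ) < n := by exact_mod_cast hn
  have h3 : (((x - n * m) ^ 2 - 14 * (y - n * n') ^ 2 : ℤ) : ℝ) =
      (((x - n * m : ℤ) : ℝ) + ((y - n * n' : ℤ) : ℝ) * r14) * (((x - n * m : ℤ) : ℝ) - ((y - n * n' : ℤ) : ℝ) * r14) := by
    push_cast
    linear_combination (- ((y : ℝ) - n * n') ^ 2) * (-r14_sq)
  rw [h3, abs_mul]
  have h4 := mul_le_mul h1 h2 (mul_nonneg SC_pos.le (abs_nonneg _)) (le_trans (mul_nonneg SC_pos.le (abs_nonneg _)) h1)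
  push_cast at h4 ⊢
  nlinarith [h4]

theorem sound_q {g : Rg} {x y n : ℤ} (hn : 0 < n) (hodd : ¬ (2 : ℤ) ∣ n) (h : InRg g x y n)
    (m n' : ℤ) (v : ℕ) (hc : checkQ g m n' v = true) : Cov (1121 / 1000) x y n := by
  unfold checkQ at hc
  simp only [Bool.and_eq_true, decide_eq_true_eq] at hc
  obtain ⟨⟨h1, h2⟩, h3⟩ := hc
  have hn' : (0 : ℝ) < n := by exact_mod_cast hn
  refine ⟨m, n', ?_⟩
  have hval := val_of_valOk hodd h.2.2.2.2.1 h.2.2.2.2.2 h1 h2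
  have hb := norm_bound hn h m n'
  unfold W
  rw [hval]
  set M := max (g.u1 - lo m n') (hi m n' - g.u0) * max (g.s1 - lo m (-n')) (hi m (-n') - g.s0) with hM
  have h4 : (M : ℝ) * 1121 ^ v < 1000 ^ v * (SC * SC) := by exact_mod_cast h3
  have h5 : (SC : ℝ) ^ 2 > 0 := by have := SC_pos; positivity
  rw [div_pow]
  have h6 : (0 : ℝ) < 1000 ^ v := by positivity
  have h7 : (0 : ℝ) < 1121 ^ v := by positivity
  have h8 : (SC : ℝ) ^ 2 * 1000 ^ v * (|(((x - n * m) ^ 2 - 14 * (y - n * n') ^ 2 : ℤ) : ℝ)| * (1121 ^ v / 1000 ^ v)) <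
      (SC : ℝ) ^ 2 * 1000 ^ v * (n : ℝ) ^ 2 := by
    calc (SC : ℝ) ^ 2 * 1000 ^ v * (|(((x - n * m) ^ 2 - 14 * (y - n * n') ^ 2 : ℤ) : ℝ)| * (1121 ^ v / 1000 ^ v))
        = ((SC : ℝ) ^ 2 * |(((x - n * m) ^ 2 - 14 * (y - n * n') ^ 2 : ℤ) : ℝ)|) * 1121 ^ v := by
          field_simp
      _ ≤ (M : ℝ) * (n : ℝ) ^ 2 * 1121 ^ v := by
          apply mul_le_mul_of_nonneg_right hb h7.le
      _ = ((M : ℝ) * 1121 ^ v) * (n : ℝ) ^ 2 := by ring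
      _ < (1000 ^ v * (SC * SC)) * (n : ℝ) ^ 2 := by
          apply mul_lt_mul_of_pos_right h4 (by positivity)
      _ = _ := by ring
  exact lt_of_mul_lt_mul_left h8 (by positivity)

/-- Real covering: the point is within distance `1.118` in norm of an integer. -/
def CovR (x y n : ℤ) : Prop :=
  ∃ a b : ℤ, 1000 * |(((x - n * a) ^ 2 - 14 * (y - n * b) ^ 2 : ℤ) : ℝ)| < 1118 * (n : ℝ) ^ 2

theorem sound_rq {g : Rg} {x y n : ℤ} (hn : 0 < n) (h : InRg g x y n)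
    (m n' : ℤ) (hc : checkRQ g m n' = true) : CovR x y n := by
  unfold checkRQ at hc
  simp only [decide_eq_true_eq] at hc
  have hn' : (0 : ℝ) < n := by exact_mod_cast hn
  refine ⟨m, n', ?_⟩
  have hb := norm_bound hn h m n'
  set M := max (g.u1 - lo m n') (hi m n' - g.u0) * max (g.s1 - lo m (-n')) (hi m (-n') - g.s0) with hM
  have h4 : (M : ℝ) * 1000 < 1118 * (SC * SC) := by exact_mod_cast hc
  have h5 : (SC : ℝ) ^ 2 > 0 := by have := SC_pos; positivity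
  have h8 : (SC : ℝ) ^ 2 * (1000 * |(((x - n * m) ^ 2 - 14 * (y - n * n') ^ 2 : ℤ) : ℝ)|) <
      (SC : ℝ) ^ 2 * (1118 * (n : ℝ) ^ 2) := by
    calc (SC : ℝ) ^ 2 * (1000 * |(((x - n * m) ^ 2 - 14 * (y - n * n') ^ 2 : ℤ) : ℝ)|)
        = ((SC : ℝ) ^ 2 * |(((x - n * m) ^ 2 - 14 * (y - n * n') ^ 2 : ℤ) : ℝ)|) * 1000 := by ring
      _ ≤ (M : ℝ) * (n : ℝ) ^ 2 * 1000 := by
          apply mul_le_mul_of_nonneg_right hb (by norm_num)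
      _ = ((M : ℝ) * 1000) * (n : ℝ) ^ 2 := by ring
      _ < (1118 * (SC * SC)) * (n : ℝ) ^ 2 := by
          apply mul_lt_mul_of_pos_right h4 (by positivity)
      _ = _ := by ring
  exact lt_of_mul_lt_mul_left h8 (by positivity)

end Pool.Agent.H.MP_5e03f8_nt
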