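import Mathlib

/-!
The finite computation behind the upper bound of the window: an explicit point with denominator
`D` whose orbit under the fundamental unit `15 + 4 √14` has length 22.
-/

namespace Pool.Agent.H.MP_5e03f8_nt

/-- the denominator of the witness -/
def D : ℤ := 4092238385644493

/-- the orbit of the witness modulo `D` under the unit `15 + 4 √14` -/
def orb : List (ℤ × ℤ) :=
  [(573018579, 1499270639011672), (2114396667042457, 2027869949026931),
   (2048323653587736, 2045490432773356), (2043975541566721, 2045505635150847),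
   (1979605194390992, 2028341222729152), (52842891140137, 1513393647700811),
   (3697919925457611, 2451084351850248), (394318460186882, 2451084351850248),
   (4039395494504356, 1513393647700811), (2112633191253501, 2028341222729152),
   (2048262844077772, 2045505635150847), (2043914732056757, 2045490432773356),
   (1977841718602036, 2027869949026931), (4092237812625914, 1499270639011672),
   (2114379476485087, 2027865364878299), (2047809082903794, 2045352908314396),
   (2028555611605831, 2041384485530679), (1517521866248234, 1904844258583072),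
   (2574716519396259, 1904844258583072), (2063682774038662, 2041384485530679),
   (2044429302740699, 2045352908314396), (1977858909159406, 2027865364878299)]

/-- some power of two `2 ^ v` (with `v < 12`) divides `k` and `D ^ 2 ≤ |k| * 1.129 ^ v` -/
def okNorm (k : ℤ) : Bool :=
  (List.range 12).any fun v => decide ((2 : ℤ) ^ v ∣ k) && decide (D ^ 2 * 1000 ^ v ≤ |k| * 1129 ^ v)

/-- the check for one candidate -/
def okPt (X Y : ℤ) : Bool :=
  decide (D ^ 2 ≤ |X ^ 2 - 14 * Y ^ 2|) || okNorm (X ^ 2 - 14 * Y ^ 2)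

/-- the check for all candidates attached to one orbit point -/
def okOrb (p : ℤ × ℤ) : Bool :=
  ([0, -1] : List ℤ).all fun j => ([-3, -2, -1, 0, 1, 2] : List ℤ).all fun k =>
    okPt (p.1 + k * D) (p.2 + j * D)

theorem all_ok : orb.all okOrb = true := by decide +kernel

theorem orb_range : orb.all (fun p => decide (0 ≤ p.1) && decide (p.1 < D) && decide (0 ≤ p.2) &&
    decide (p.2 < D)) = true := by decide +kernel

theorem orb_fwd : orb.all (fun p => orb.any fun q => decide (D ∣ 15 * p.1 + 56 * p.2 - q.1) &&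
    decide (D ∣ 4 * p.1 + 15 * p.2 - q.2)) = true := by decide +kernel

theorem orb_bwd : orb.all (fun p => orb.any fun q => decide (D ∣ 15 * p.1 - 56 * p.2 - q.1) &&
    decide (D ∣ 15 * p.2 - 4 * p.1 - q.2)) = true := by decide +kernel

theorem okNorm_sound {k : ℤ} (hk : k ≠ 0) (h : okNorm k = true) (κ : ℝ) (hκ : 1.129 ≤ κ) :
    ((D ^ 2 : ℤ) : ℝ) ≤ |(k : ℝ)| * κ ^ (padicValInt 2 k) := by
  simp only [okNorm, List.any_eq_true, List.mem_range, Bool.and_eq_true, decide_eq_true_eq] at h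
  obtain ⟨v, _, hv, hle⟩ := h
  have hvle : v ≤ padicValInt 2 k := by
    have := (padicValInt_dvd_iff (p := 2) v k).1 (by exact_mod_cast hv)
    rcases this with h | h
    · exact absurd h hk
    · exact h
  have h1 : κ ^ v ≤ κ ^ (padicValInt 2 k) := pow_le_pow_right₀ (by linarith) hvle
  have h2 : (1.129 : ℝ) ^ v ≤ κ ^ v := pow_le_pow_left₀ (by norm_num) hκ v
  have h3 : ((D ^ 2 : ℤ) : ℝ) * 1000 ^ v ≤ |(k : ℝ)| * 1129 ^ v := by exact_mod_cast hle
  have h4 : ((D ^ 2 : ℤ) : ℝ) ≤ |(k : ℝ)| * (1.129 : ℝ) ^ v := by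
    have h5 : (1.129 : ℝ) = 1129 / 1000 := by norm_num
    rw [h5, div_pow, ← mul_div_assoc, le_div_iff₀ (by positivity)]
    exact h3
  calc ((D ^ 2 : ℤ) : ℝ) ≤ |(k : ℝ)| * (1.129 : ℝ) ^ v := h4
    _ ≤ |(k : ℝ)| * κ ^ (padicValInt 2 k) := by
        apply mul_le_mul_of_nonneg_left (le_trans h2 h1) (abs_nonneg _)

theorem norm_ne_zero {X Y : ℤ} (h : ¬ (D ∣ X ∧ D ∣ Y)) : X ^ 2 - 14 * Y ^ 2 ≠ 0 := by
  intro h0
  have h1 : X ^ 2 = 14 * Y ^ 2 := by linarith
  -- 14 is not a square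
  by_cases hY : Y = 0
  · subst hY
    have : X = 0 := by simpa using h1
    subst this
    exact h ⟨dvd_zero _, dvd_zero _⟩
  · have : IsSquare (14 : ℤ) := by
      have h2 : Y ^ 2 ∣ X ^ 2 := ⟨14, by rw [h1]; ring⟩
      have h3 : Y ∣ X := (Int.pow_dvd_pow_iff (by norm_num)).1 h2
      obtain ⟨t, rfl⟩ := h3
      refine ⟨t, ?_⟩
      have h4 : Y ^ 2 * (t * t) = Y ^ 2 * 14 := by rw [← sub_eq_zero]; linear_combination h1
      exact (mul_left_cancel₀ (pow_ne_zero 2 hY) h4).symm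
    obtain ⟨x, hx⟩ := this
    have h1 : x ≤ 4 := by nlinarith
    have h2 : -4 ≤ x := by nlinarith
    interval_cases x <;> omega

/-- the main lower bound: every element congruent modulo `D` to a point of the orbit has
large weighted norm -/
theorem lower_bound (κ : ℝ) (hκ : 1.129 ≤ κ) (X Y : ℤ)
    (h : ∃ p ∈ orb, D ∣ X - p.1 ∧ D ∣ Y - p.2) :
    ((D ^ 2 : ℤ) : ℝ) ≤ |((X ^ 2 - 14 * Y ^ 2 : ℤ) : ℝ)| * κ ^ (padicValInt 2 (X ^ 2 - 14 * Y ^ 2)) := by
  induction hn : Y.natAbs using Nat.strong_induction_on generalizing X Y with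
  | _ n ih =>
  obtain ⟨p, hp, hX, hY⟩ := h
  by_cases hf : (4 * X + 15 * Y).natAbs < n
  · have := ih _ hf (15 * X + 56 * Y) (4 * X + 15 * Y) ?_ rfl
    · have h2 : (15 * X + 56 * Y) ^ 2 - 14 * (4 * X + 15 * Y) ^ 2 = X ^ 2 - 14 * Y ^ 2 := by ring
      rw [h2] at this
      exact this
    · have h3 := orb_fwd
      rw [List.all_eq_true] at h3
      have h4 := h3 p hp
      simp only [List.any_eq_true, Bool.and_eq_true, decide_eq_true_eq] at h4
      obtain ⟨q, hq, h5, h6⟩ := h4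
      refine ⟨q, hq, ?_, ?_⟩
      · have : 15 * X + 56 * Y - q.1 = 15 * (X - p.1) + 56 * (Y - p.2) + (15 * p.1 + 56 * p.2 - q.1) := by ring
        rw [this]
        exact dvd_add (dvd_add (hX.mul_left _) (hY.mul_left _)) h5
      · have : 4 * X + 15 * Y - q.2 = 4 * (X - p.1) + 15 * (Y - p.2) + (4 * p.1 + 15 * p.2 - q.2) := by ring
        rw [this]
        exact dvd_add (dvd_add (hX.mul_left _) (hY.mul_left _)) h6
  by_cases hb : (15 * Y - 4 * X).natAbs < n
  · have := ih _ hb (15 * X - 56 * Y) (15 * Y - 4 * X) ?_ rfl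
    · have h2 : (15 * X - 56 * Y) ^ 2 - 14 * (15 * Y - 4 * X) ^ 2 = X ^ 2 - 14 * Y ^ 2 := by ring
      rw [h2] at this
      exact this
    · have h3 := orb_bwd
      rw [List.all_eq_true] at h3
      have h4 := h3 p hp
      simp only [List.any_eq_true, Bool.and_eq_true, decide_eq_true_eq] at h4
      obtain ⟨q, hq, h5, h6⟩ := h4
      refine ⟨q, hq, ?_, ?_⟩
      · have : 15 * X - 56 * Y - q.1 = 15 * (X - p.1) - 56 * (Y - p.2) + (15 * p.1 - 56 * p.2 - q.1) := by ring
        rw [this]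
        exact dvd_add (dvd_sub (hX.mul_left _) (hY.mul_left _)) h5
      · have : 15 * Y - 4 * X - q.2 = 15 * (Y - p.2) - 4 * (X - p.1) + (15 * p.2 - 4 * p.1 - q.2) := by ring
        rw [this]
        exact dvd_add (dvd_sub (hY.mul_left _) (hX.mul_left _)) h6
  -- now |Y| is minimal, hence 7 Y ^ 2 ≤ 4 |norm|
  push Not at hf hb
  have hκ1 : (1 : ℝ) ≤ κ ^ (padicValInt 2 (X ^ 2 - 14 * Y ^ 2)) := one_le_pow₀ (by linarith)
  by_cases hbig : D ^ 2 ≤ |X ^ 2 - 14 * Y ^ 2|
  · have h1 : ((D ^ 2 : ℤ) : ℝ) ≤ |((X ^ 2 - 14 * Y ^ 2 : ℤ) : ℝ)| := by exact_mod_cast hbig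
    calc ((D ^ 2 : ℤ) : ℝ) ≤ |((X ^ 2 - 14 * Y ^ 2 : ℤ) : ℝ)| * 1 := by rw [mul_one]; exact h1
      _ ≤ _ := mul_le_mul_of_nonneg_left hκ1 (abs_nonneg _)
  push Not at hbig
  have hYn : |Y| = n := by rw [← hn]; exact (Int.natCast_natAbs Y).symm
  have hf' : |Y| ≤ |4 * X + 15 * Y| := by
    rw [hYn, ← Int.natCast_natAbs]; exact_mod_cast hf
  have hb' : |Y| ≤ |15 * Y - 4 * X| := by
    rw [hYn, ← Int.natCast_natAbs]; exact_mod_cast hb
  have hf2 : Y ^ 2 ≤ (4 * X + 15 * Y) ^ 2 := sq_le_sq.2 hf'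
  have hb2 : Y ^ 2 ≤ (15 * Y - 4 * X) ^ 2 := sq_le_sq.2 hb'
  have key : 7 * Y ^ 2 ≤ 4 * |X ^ 2 - 14 * Y ^ 2| := by
    have e1 : |X| ^ 2 = X ^ 2 := sq_abs X
    have e2 : |Y| ^ 2 = Y ^ 2 := sq_abs Y
    have e3 : 0 ≤ (2 * |X| - 7 * |Y|) * (|X| - 4 * |Y|) := by
      have : (2 * |X| - 7 * |Y|) * (|X| - 4 * |Y|) = 2 * X ^ 2 - 15 * |X * Y| + 28 * Y ^ 2 := by
        rw [abs_mul, ← e1, ← e2]; ring
      rw [this]
      rcases abs_cases (X * Y) with ⟨h, _⟩ | ⟨h, _⟩ <;> rw [h] <;> nlinarith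
    have p1 := abs_nonneg X
    have p2 := abs_nonneg Y
    rcases le_or_gt (4 * |Y|) |X| with h | h
    · have : 2 * Y ^ 2 ≤ X ^ 2 - 14 * Y ^ 2 := by nlinarith
      have h2 := le_abs_self (X ^ 2 - 14 * Y ^ 2)
      nlinarith [sq_nonneg Y]
    · have h3 : 2 * |X| ≤ 7 * |Y| := by
        by_contra hc
        push Not at hc
        nlinarith
      have : 4 * X ^ 2 ≤ 49 * Y ^ 2 := by nlinarith
      have h2 := neg_abs_le (X ^ 2 - 14 * Y ^ 2)
      nlinarith [sq_nonneg Y]
  have hD : (0 : ℤ) < D := by decide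
  have hrange := orb_range
  rw [List.all_eq_true] at hrange
  have hr := hrange p hp
  simp only [Bool.and_eq_true, decide_eq_true_eq] at hr
  obtain ⟨⟨⟨hx0, hx1⟩, hy0⟩, hy1⟩ := hr
  have hYlt : Y ^ 2 < D ^ 2 := by nlinarith
  have hXlt : X ^ 2 < (3 * D) ^ 2 := by
    have h2 := le_abs_self (X ^ 2 - 14 * Y ^ 2)
    nlinarith
  have hY2 := abs_lt_of_sq_lt_sq' hYlt hD.le
  have hX2 := abs_lt_of_sq_lt_sq' hXlt (by positivity)
  obtain ⟨j, hj⟩ := hY
  obtain ⟨k, hk⟩ := hX
  have hjr : -2 < j ∧ j < 1 := by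
    constructor <;> nlinarith
  have hkr : -4 < k ∧ k < 3 := by
    constructor <;> nlinarith
  have hok : okPt X Y = true := by
    have h1 := all_ok
    rw [List.all_eq_true] at h1
    have h2 := h1 p hp
    simp only [okOrb, List.all_eq_true] at h2
    have h3 := h2 j (by
      obtain ⟨a, b⟩ := hjr
      interval_cases j <;> simp) k (by
      obtain ⟨a, b⟩ := hkr
      interval_cases k <;> simp)
    have e1 : p.1 + k * D = X := by linarith
    have e2 : p.2 + j * D = Y := by linarith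
    rwa [e1, e2] at h3
  simp only [okPt, Bool.or_eq_true, decide_eq_true_eq] at hok
  rcases hok with h | h
  · omega
  · have hne : X ^ 2 - 14 * Y ^ 2 ≠ 0 := by
      intro h0
      rw [h0] at h
      revert h
      decide +kernel
    exact okNorm_sound hne h κ hκ

end Pool.Agent.H.MP_5e03f8_nt
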